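import Pool.Agent.V11122.Sym.Euler

set_option autoImplicit false

/-! Faces with a middle vertex; the kernel; a dual vector. -/

namespace Pool.Agent.V11122.Sym

open Pool.Agent.V11122.Sink Filter Topology

variable {V : Type} {G : SimpleGraph V} {p : V → E3}

/-- nonpolar faces lying in direction `τ` from their middle vertex -/
structure Mid (G : SimpleGraph V) (p : V → E3) (τ : ℝ) (m b c : V) : Prop where
  nf : NF G p m b c
  s1 : 0 < τ * S (p m) (p b)
  s2 : τ * S (p b) (p c) < 0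
  s3 : 0 < τ * S (p c) (p m)

theorem mid_cases (gen : IsGeneric p) {a b c : V} (h : NF G p a b c) :
    ∃ τ : ℝ, (τ = 1 ∨ τ = -1) ∧ (Mid G p τ a b c ∨ Mid G p τ b c a ∨ Mid G p τ c a b) := by
  have hA := S_ne gen h.ab.ne
  have hB := S_ne gen h.bc.ne
  have hC := S_ne gen h.ca.ne
  have hD := h.pos
  have r1 : Dt (p b) (p c) (p a) = Dt (p a) (p b) (p c) := Dt_rot _ _ _
  have r2 : Dt (p c) (p a) (p b) = Dt (p a) (p b) (p c) := by rw [← Dt_rot (p c)]
  have n1 : ‖(1 : ℝ) • Sink.north‖ = 1 := by rw [one_smul, norm_north]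
  have n2 : ‖(-1 : ℝ) • Sink.north‖ = 1 := by rw [norm_smul, norm_north]; simp
  rcases lt_or_gt_of_ne hA with kA | kA <;> rcases lt_or_gt_of_ne hB with kB | kB <;>
    rcases lt_or_gt_of_ne hC with kC | kC
  · exfalso
    apply h.south
    rw [← neg_one_smul ℝ, ← nz_unit n2, open_iff hD.ne' (pole_ne (Or.inr rfl))]
    refine ⟨?_, ?_, ?_⟩
    · rw [co_smul, co_north]
      have := div_neg_of_neg_of_pos kB hD
      linarith
    · rw [co_smul, co_north, r1]
      have := div_neg_of_neg_of_pos kC hD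
      linarith
    · rw [co_smul, co_north, r2]
      have := div_neg_of_neg_of_pos kA hD
      linarith
  · exact ⟨-1, Or.inr rfl, Or.inr (Or.inl ⟨h.rot, by linarith, by linarith, by linarith⟩)⟩
  · exact ⟨-1, Or.inr rfl, Or.inl ⟨h, by linarith, by linarith, by linarith⟩⟩
  · exact ⟨1, Or.inl rfl, Or.inr (Or.inr ⟨h.rot.rot, by linarith, by linarith, by linarith⟩)⟩
  · exact ⟨-1, Or.inr rfl, Or.inr (Or.inr ⟨h.rot.rot, by linarith, by linarith, by linarith⟩)⟩
  · exact ⟨1, Or.inl rfl, Or.inl ⟨h, by linarith, by linarith, by linarith⟩⟩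
  · exact ⟨1, Or.inl rfl, Or.inr (Or.inl ⟨h.rot, by linarith, by linarith, by linarith⟩)⟩
  · exfalso
    apply h.north
    rw [← one_smul ℝ Sink.north, ← nz_unit n1, open_iff hD.ne' (pole_ne (Or.inl rfl))]
    refine ⟨?_, ?_, ?_⟩
    · rw [co_smul, co_north, one_mul]
      exact div_pos kB hD
    · rw [co_smul, co_north, one_mul, r1]
      exact div_pos kC hD
    · rw [co_smul, co_north, one_mul, r2]
      exact div_pos kA hD

theorem Mid.ev {τ : ℝ} {m b c : V} (h : Mid G p τ m b c) :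
    ∀ᶠ t in 𝓝[>] (0 : ℝ), OC p m b c (p m + (t * τ) • north) := by
  have hD := h.nf.pos
  have r1 : Dt (p b) (p c) (p m) = Dt (p m) (p b) (p c) := Dt_rot _ _ _
  have r2 : Dt (p c) (p m) (p b) = Dt (p m) (p b) (p c) := by rw [← Dt_rot (p c)]
  obtain ⟨c1, c2, c3⟩ := co_of_rep (q := p m) (r := 1) (s := 0) (t := 0) hD.ne' (by simp)
  filter_upwards [eventually_pos (y := τ * S (p b) (p c) / Dt (p m) (p b) (p c)) one_pos,
    self_mem_nhdsWithin] with t h1 ht
  refine ⟨?_, ?_, ?_⟩
  · rw [co_up, c1]; exact h1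
  · rw [co_up, c2, zero_add, r1]; exact mul_pos ht (div_pos h.s3 hD)
  · rw [co_up, c3, zero_add, r2]; exact mul_pos ht (div_pos h.s1 hD)

theorem vne [Finite V] (H : Sit G p) (v : V) (t : ℝ) : p v + t • north ≠ 0 := by
  apply ne_zero_of_horiz
  rw [vadd0, vadd1]
  exact hu H.T H.gen v

theorem Mid.uniq [Finite V] (H : Sit G p) {τ : ℝ} {m b c b' c' : V} (h : Mid G p τ m b c)
    (h' : Mid G p τ m b' c') : b' = b ∧ c' = c := by
  obtain ⟨t, h1, h2⟩ := (h.ev.and h'.ev).exists
  rcases same_corners H.T.toIsShortestPathEmbedding h.nf h'.nf (vne H m _) h1 h2 with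
    ⟨-, e1, e2⟩ | ⟨e, -, -⟩ | ⟨e, -, -⟩
  · exact ⟨e1, e2⟩
  · exact absurd e h.nf.ab.ne
  · exact absurd e h.nf.ca.ne'

theorem Mid.not_onE [Finite V] (H : Sit G p) {τ : ℝ} (hτ : τ = 1 ∨ τ = -1) {x y z m b c : V}
    (P : Pol G p τ x y z) (h : Mid G p τ m b c) (hE : OnE p x y z (p m)) : False := by
  obtain ⟨t, h1, ht⟩ := (h.ev.and self_mem_nhdsWithin).exists
  exact h.nf.not_inX H.T.toIsShortestPathEmbedding hτ (pole_off H.T H.gen hτ) h1
    (P.upb _ hE t ht)

theorem Mid.not_corner [Finite V] (H : Sit G p) {τ : ℝ} (hτ : τ = 1 ∨ τ = -1) {x y z m b c : V}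
    (P : Pol G p τ x y z) (h : Mid G p τ m b c) : m ≠ x ∧ m ≠ y ∧ m ≠ z := by
  refine ⟨?_, ?_, ?_⟩
  · rintro rfl
    exact h.not_onE H hτ P (Or.inl ⟨1, 0, zero_le_one, le_rfl, by simp⟩)
  · rintro rfl
    exact h.not_onE H hτ P (Or.inl ⟨0, 1, le_rfl, zero_le_one, by simp⟩)
  · rintro rfl
    exact h.not_onE H hτ P (Or.inr (Or.inl ⟨0, 1, le_rfl, zero_le_one, by simp⟩))

theorem cone2 {σ : ℝ} {a b q : E3} (h : 0 < σ * S a b) (h1 : 0 ≤ σ * S a q)
    (h2 : σ * S b q ≤ 0) :
    ∃ r s : ℝ, 0 ≤ r ∧ 0 ≤ s ∧ q 0 = (r • a + s • b) 0 ∧ q 1 = (r • a + s • b) 1 := by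
  have hS : S a b ≠ 0 := by rintro h0; rw [h0] at h; simp at h
  refine ⟨-(σ * S b q) / (σ * S a b), σ * S a q / (σ * S a b),
    div_nonneg (by linarith) h.le, div_nonneg h1 h.le, ?_, ?_⟩
  · have hσ : σ ≠ 0 := by rintro rfl; simp at h
    simp only [PiLp.add_apply, PiLp.smul_apply, smul_eq_mul]
    rw [div_mul_eq_mul_div, div_mul_eq_mul_div, ← add_div, eq_div_iff h.ne']
    unfold S; ring
  · simp only [PiLp.add_apply, PiLp.smul_apply, smul_eq_mul]
    rw [div_mul_eq_mul_div, div_mul_eq_mul_div, ← add_div, eq_div_iff h.ne']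
    unfold S; ring

theorem above {σ : ℝ} {a b c : V} (P : Pol G p σ a b c) (q : E3) :
    ∃ x y, DE a b c x y ∧ ∃ r s : ℝ, 0 ≤ r ∧ 0 ≤ s ∧ q 0 = (r • p x + s • p y) 0 ∧
      q 1 = (r • p x + s • p y) 1 := by
  have hsum : (σ * S (p b) (p c)) * (σ * S (p a) q) + (σ * S (p c) (p a)) * (σ * S (p b) q) +
      (σ * S (p a) (p b)) * (σ * S (p c) q) = 0 := by unfold S; ring
  have s1 := P.s1
  have s2 := P.s2
  have s3 := P.s3
  by_cases h1 : 0 ≤ σ * S (p a) q
  · by_cases h2 : σ * S (p b) q ≤ 0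
    · exact ⟨a, b, Or.inl ⟨rfl, rfl⟩, cone2 s1 h1 h2⟩
    · push Not at h2
      by_cases h3 : σ * S (p c) q ≤ 0
      · exact ⟨b, c, Or.inr (Or.inl ⟨rfl, rfl⟩), cone2 s2 h2.le h3⟩
      · push Not at h3
        exfalso
        have := mul_nonneg s2.le h1
        have := mul_pos s3 h2
        have := mul_pos s1 h3
        linarith
  · push Not at h1
    by_cases h3 : 0 ≤ σ * S (p c) q
    · exact ⟨c, a, Or.inr (Or.inr ⟨rfl, rfl⟩), cone2 s3 h3 h1.le⟩
    · push Not at h3
      by_cases h2 : 0 ≤ σ * S (p b) q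
      · exact ⟨b, c, Or.inr (Or.inl ⟨rfl, rfl⟩), cone2 s2 h2 h3.le⟩
      · push Not at h2
        exfalso
        have := mul_neg_of_pos_of_neg s2 h1
        have := mul_neg_of_pos_of_neg s3 h2
        have := mul_neg_of_pos_of_neg s1 h3
        linarith

theorem DD_neg (g : V → ℝ) (a b c : V) : DD p (fun v => -g v) a b c = -DD p g a b c := by
  unfold DD; ring

theorem EV.neg {g : V → ℝ} {q : E3} {w : ℝ} (h : EV G p g q w) :
    EV G p (fun v => -g v) q (-w) := by
  obtain ⟨a, b, hab, r, s, hr, hs, e, rfl⟩ := h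
  exact ⟨a, b, hab, r, s, hr, hs, e, by ring⟩

theorem const_lt [Finite V] (H : Sit G p) {g : V → ℝ}
    (hg : ∀ a b c, NF G p a b c → DD p g a b c = 0) {q q' : E3} (hq : q ≠ 0)
    (h0 : q 0 = q' 0) (h1 : q 1 = q' 1) {w w' : ℝ} (hw : EV G p g q w) (hw' : EV G p g q' w')
    (hlt : q 2 < q' 2) : w = w' := by
  have e := eq_vadd h0 h1
  have ht : 0 < q' 2 - q 2 := by linarith
  rw [e] at hw'
  have k1 := growth H g 0 (fun a b c hN => by rw [hg a b c hN, zero_div]) ht hq hw.inD hw'.inD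
    hw hw'
  have k2 := growth H (fun v => -g v) 0
    (fun a b c hN => by rw [DD_neg, hg a b c hN, neg_zero, zero_div]) ht hq hw.inD hw'.inD
    hw.neg hw'.neg
  linarith

theorem const_eq [Finite V] (H : Sit G p) {g : V → ℝ}
    (hg : ∀ a b c, NF G p a b c → DD p g a b c = 0) {q q' : E3} (hq : q ≠ 0) (hq' : q' ≠ 0)
    (h0 : q 0 = q' 0) (h1 : q 1 = q' 1) {w w' : ℝ} (hw : EV G p g q w)
    (hw' : EV G p g q' w') : w = w' := by
  rcases lt_trichotomy (q 2) (q' 2) with h | h | h
  · exact const_lt H hg hq h0 h1 hw hw' h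
  · have : q = q' := ext3 h0 h1 h
    subst this
    exact ev_unique H.T.toIsShortestPathEmbedding H.gen hq hw hw'
  · exact (const_lt H hg hq' h0.symm h1.symm hw' hw h).symm

theorem ker_zero [Finite V] (H : Sit G p) {σ : ℝ} {a b c : V} (P : Pol G p σ a b c) {g : V → ℝ}
    (hg : ∀ a b c, NF G p a b c → DD p g a b c = 0) (ga : g a = 0) (gb : g b = 0)
    (gc : g c = 0) (v : V) : g v = 0 := by
  obtain ⟨x, y, hxy, r, s, hr, hs, e0, e1⟩ := above P (p v)
  have hq' : r • p x + s • p y ≠ 0 := by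
    apply ne_zero_of_horiz
    rw [← e0, ← e1]
    exact hu H.T H.gen v
  have hv : EV G p g (p v) (g v) := ⟨v, v, Or.inl rfl, 1, 0, zero_le_one, le_rfl, by simp,
    by ring⟩
  have hx : EV G p g (r • p x + s • p y) 0 := by
    refine ⟨x, y, Or.inr (hxy.adj P), r, s, hr, hs, rfl, ?_⟩
    rcases hxy with ⟨rfl, rfl⟩ | ⟨rfl, rfl⟩ | ⟨rfl, rfl⟩
    · rw [ga, gb]; ring
    · rw [gb, gc]; ring
    · rw [gc, ga]; ring
  exact const_eq H hg (p_ne_zero H.T.toIsShortestPathEmbedding v) hq' e0 e1 hv hx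

theorem DD_lin (g : V → ℝ) (α β : ℝ) (a b c : V) :
    DD p (fun v => g v + (α * p v 0 + β * p v 1)) a b c = DD p g a b c := by
  unfold DD S; ring

theorem lin_two {a b : V} (hS : S (p a) (p b) ≠ 0) (x y : ℝ) :
    ∃ α β : ℝ, α * p a 0 + β * p a 1 = x ∧ α * p b 0 + β * p b 1 = y := by
  refine ⟨(x * p b 1 - y * p a 1) / S (p a) (p b), (y * p a 0 - x * p b 0) / S (p a) (p b),
    ?_, ?_⟩
  · rw [div_mul_eq_mul_div, div_mul_eq_mul_div, ← add_div, div_eq_iff hS]
    unfold S; ring
  · rw [div_mul_eq_mul_div, div_mul_eq_mul_div, ← add_div, div_eq_iff hS]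
    unfold S; ring

theorem ker_lin [Finite V] (H : Sit G p) {σ : ℝ} {a b c : V} (P : Pol G p σ a b c) {g : V → ℝ}
    (hg : ∀ a b c, NF G p a b c → DD p g a b c = 0) (hP : DD p g a b c = 0) :
    ∃ α β : ℝ, ∀ v, g v = α * p v 0 + β * p v 1 := by
  have hS := S_ne H.gen P.ab.ne
  obtain ⟨α, β, h1, h2⟩ := lin_two hS (-g a) (-g b)
  have hg' : ∀ x y z, NF G p x y z →
      DD p (fun v => g v + (α * p v 0 + β * p v 1)) x y z = 0 := by
    intro x y z h
    rw [DD_lin, hg x y z h]
  have ga : g a + (α * p a 0 + β * p a 1) = 0 := by rw [h1]; ring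
  have gb : g b + (α * p b 0 + β * p b 1) = 0 := by rw [h2]; ring
  have gc : g c + (α * p c 0 + β * p c 1) = 0 := by
    have := DD_lin (p := p) g α β a b c
    rw [hP] at this
    unfold DD at this
    simp only [ga, gb, zero_mul, zero_add] at this
    exact (mul_eq_zero.1 this).resolve_right hS
  have key := ker_zero H P hg' ga gb gc
  refine ⟨-α, -β, fun v => ?_⟩
  have := key v
  simp only at this
  linarith

theorem W_rot (a b c : V) : W p b c a = W p a b c := by
  unfold W; congr 1; ring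

theorem DD_rot (g : V → ℝ) (a b c : V) : DD p g b c a = DD p g a b c := by
  unfold DD; ring

theorem W_mid {τ : ℝ} (hτ : τ = 1 ∨ τ = -1) {m b c : V} (h : Mid G p τ m b c) :
    τ * W p m b c < 0 := by
  have h1 := h.s1
  have h2 := h.s2
  have h3 := h.s3
  have k : (τ * S (p m) (p b)) * (τ * S (p b) (p c)) * (τ * S (p c) (p m)) < 0 :=
    mul_neg_of_neg_of_pos (mul_neg_of_pos_of_neg h1 h2) h3
  have k' : τ * (S (p m) (p b) * S (p b) (p c) * S (p c) (p m)) < 0 := by
    rcases hτ with rfl | rfl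
    · linarith
    · linarith
  unfold W
  rcases hτ with rfl | rfl
  · have := inv_lt_zero.2 (by linarith : S (p m) (p b) * S (p b) (p c) * S (p c) (p m) < 0)
    linarith
  · have := inv_pos.2 (by linarith : 0 < S (p m) (p b) * S (p b) (p c) * S (p c) (p m))
    linarith

theorem W_pol {σ : ℝ} (hσ : σ = 1 ∨ σ = -1) {a b c : V} (P : Pol G p σ a b c) :
    0 < σ * W p a b c := by
  have h1 := P.s1
  have h2 := P.s2
  have h3 := P.s3
  have k : 0 < (σ * S (p a) (p b)) * (σ * S (p b) (p c)) * (σ * S (p c) (p a)) :=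
    mul_pos (mul_pos h1 h2) h3
  unfold W
  rcases hσ with rfl | rfl
  · have := inv_pos.2 (by linarith : 0 < S (p a) (p b) * S (p b) (p c) * S (p c) (p a))
    linarith
  · have := inv_lt_zero.2 (by linarith : S (p a) (p b) * S (p b) (p c) * S (p c) (p a) < 0)
    linarith

/-- nonpositive terms with zero total vanish -/
theorem all_zero [Fintype V] {f : V → V → V → ℝ} {r : ℝ} (hf : ∀ x y z, f x y z ≤ 0)
    (hr : r ≤ 0) (h : (∑ x, ∑ y, ∑ z, f x y z) + r = 0) : (∀ x y z, f x y z = 0) ∧ r = 0 := by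
  have h1 : ∀ x y, ∑ z, f x y z ≤ 0 := fun x y => Finset.sum_nonpos fun z _ => hf x y z
  have h2 : ∀ x, ∑ y, ∑ z, f x y z ≤ 0 := fun x => Finset.sum_nonpos fun y _ => h1 x y
  have h3 : ∑ x, ∑ y, ∑ z, f x y z ≤ 0 := Finset.sum_nonpos fun x _ => h2 x
  have e3 : ∑ x, ∑ y, ∑ z, f x y z = 0 := by linarith
  have e2 := (Finset.sum_eq_zero_iff_of_nonpos fun x _ => h2 x).1 e3
  refine ⟨fun x y z => ?_, by linarith⟩
  have e1 := (Finset.sum_eq_zero_iff_of_nonpos fun y _ => h1 x y).1 (e2 x (Finset.mem_univ x))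
  exact (Finset.sum_eq_zero_iff_of_nonpos fun z _ => hf x y z).1 (e1 y (Finset.mem_univ y)) z
    (Finset.mem_univ z)

theorem ker_mid [Fintype V] (H : Sit G p) {a b c a' b' c' : V} (P : Pol G p 1 a b c)
    (P' : Pol G p (-1) a' b' c') {g : V → ℝ}
    (hg : ∀ m b c, Mid G p (-1) m b c → DD p g m b c = 0) (hP : DD p g a b c = 0) :
    ∃ α β : ℝ, ∀ v, g v = α * p v 0 + β * p v 1 := by
  classical
  have hq := quad H P P' g g
  rw [add_assoc] at hq
  have hw' := W_pol (Or.inr rfl) P'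
  have hterm : ∀ x y z, NF G p x y z → W p x y z * DD p g x y z * DD p g x y z ≤ 0 ∧
      (W p x y z * DD p g x y z * DD p g x y z = 0 → DD p g x y z = 0) := by
    intro x y z h
    have pos_case : ∀ x y z, Mid G p 1 x y z → W p x y z * DD p g x y z * DD p g x y z ≤ 0 ∧
      (W p x y z * DD p g x y z * DD p g x y z = 0 → DD p g x y z = 0) := by
      intro x y z hm
      have hw := W_mid (Or.inl rfl) hm
      rw [one_mul] at hw
      constructor
      · rw [mul_assoc]
        exact mul_nonpos_of_nonpos_of_nonneg hw.le (mul_self_nonneg _)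
      · intro h0
        rw [mul_assoc] at h0
        exact mul_self_eq_zero.1 ((mul_eq_zero.1 h0).resolve_left hw.ne)
    have neg_case : ∀ x y z, Mid G p (-1) x y z →
      W p x y z * DD p g x y z * DD p g x y z ≤ 0 ∧
      (W p x y z * DD p g x y z * DD p g x y z = 0 → DD p g x y z = 0) := by
      intro x y z hm
      rw [hg x y z hm]
      simp
    obtain ⟨τ, hτ, hm⟩ := mid_cases H.gen h
    have all : ∀ x y z, Mid G p τ x y z → W p x y z * DD p g x y z * DD p g x y z ≤ 0 ∧
      (W p x y z * DD p g x y z * DD p g x y z = 0 → DD p g x y z = 0) := by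
      rcases hτ with rfl | rfl
      · exact pos_case
      · exact neg_case
    rcases hm with hm | hm | hm
    · exact all _ _ _ hm
    · have := all _ _ _ hm
      rwa [W_rot, DD_rot] at this
    · have := all _ _ _ hm
      rwa [← W_rot z x y, ← DD_rot g z x y] at this
  obtain ⟨h1, -⟩ := all_zero (r := 3 * (W p a b c * DD p g a b c * DD p g a b c) +
      3 * (W p a' b' c' * DD p g a' b' c' * DD p g a' b' c')) (by
      intro x y z
      by_cases h : NF G p x y z
      · rw [if_pos h]; exact (hterm x y z h).1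
      · rw [if_neg h]) (by
      rw [hP]
      have h2 := mul_self_nonneg (DD p g a' b' c')
      have h3 : W p a' b' c' * (DD p g a' b' c' * DD p g a' b' c') ≤ 0 :=
        mul_nonpos_of_nonpos_of_nonneg (by linarith) h2
      linarith) hq
  apply ker_lin H P _ hP
  intro x y z h
  have := h1 x y z
  rw [if_pos h] at this
  exact (hterm x y z h).2 this

open Classical in
theorem exists_dual [Fintype V] (H : Sit G p) {a b c a' b' c' : V} (P : Pol G p 1 a b c)
    (P' : Pol G p (-1) a' b' c') : ∃ k : V → ℝ,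
    (∀ m b c, Mid G p (-1) m b c → DD p k m b c = 0) ∧ DD p k a b c = 1 := by
  let M : Finset (V × V × V) :=
    Finset.univ.filter fun x => Mid G p (-1) x.1 x.2.1 x.2.2
  have hM : ∀ x, x ∈ M ↔ Mid G p (-1) x.1 x.2.1 x.2.2 := by intro x; simp [M]
  -- cardinality
  have hcard : M.card + 3 ≤ Fintype.card V := by
    have hinj : Set.InjOn (fun x : V × V × V => x.1) (M : Set (V × V × V)) := by
      rintro ⟨m, b, c⟩ h1 ⟨m', b', c'⟩ h2 e
      have k1 := (hM _).1 h1
      have k2 := (hM _).1 h2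
      simp only at e k1 k2
      subst e
      obtain ⟨e1, e2⟩ := k1.uniq H k2
      rw [e1, e2]
    have h1 : (M.image fun x : V × V × V => x.1).card = M.card :=
      Finset.card_image_of_injOn hinj
    have h2 : (M.image fun x : V × V × V => x.1) ⊆ ({a', b', c'} : Finset V)ᶜ := by
      intro m hm
      obtain ⟨⟨m', b, c⟩, h3, e⟩ := Finset.mem_image.1 hm
      simp only at e
      subst e
      obtain ⟨k1, k2, k3⟩ := ((hM _).1 h3).not_corner H (Or.inr rfl) P'
      simp only [Finset.mem_compl, Finset.mem_insert, Finset.mem_singleton, not_or]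
      exact ⟨k1, k2, k3⟩
    have h3 : ({a', b', c'} : Finset V).card = 3 := by
      rw [Finset.card_eq_three]
      exact ⟨a', b', c', P'.ab.ne, P'.ca.ne', P'.bc.ne, rfl⟩
    have h4 := Finset.card_le_card h2
    rw [h1] at h4
    have h5 := Finset.card_add_card_compl ({a', b', c'} : Finset V)
    omega
  let L : (V → ℝ) →ₗ[ℝ] (M → ℝ) × ℝ :=
    { toFun := fun g => (fun x => DD p g x.1.1 x.1.2.1 x.1.2.2, DD p g a b c)
      map_add' := by
        intro g h
        ext x
        · simp [DD]; ring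
        · simp [DD]; ring
      map_smul' := by
        intro r g
        ext x
        · simp [DD]; ring
        · simp [DD]; ring }
  have hker : LinearMap.ker L ≤
      Submodule.span ℝ (({fun v => p v 0, fun v => p v 1} : Finset (V → ℝ)) : Set (V → ℝ)) := by
    intro g hg
    rw [LinearMap.mem_ker] at hg
    have e1 : ∀ m b c, Mid G p (-1) m b c → DD p g m b c = 0 := by
      intro m b c hm
      have := congrFun (congrArg Prod.fst hg) ⟨(m, b, c), (hM _).2 hm⟩
      exact this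
    have e2 : DD p g a b c = 0 := congrArg Prod.snd hg
    obtain ⟨α, β, h⟩ := ker_mid H P P' e1 e2
    have e : g = α • (fun v => p v 0) + β • (fun v => p v 1) := by
      funext v
      simp [h v]
    rw [e]
    apply Submodule.add_mem
    · apply Submodule.smul_mem
      apply Submodule.subset_span
      simp
    · apply Submodule.smul_mem
      apply Submodule.subset_span
      simp
  have hk2 : Module.finrank ℝ (LinearMap.ker L) ≤ 2 :=
    (Submodule.finrank_mono hker).trans ((finrank_span_finset_le_card _).trans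
      Finset.card_le_two)
  have hrn := LinearMap.finrank_range_add_finrank_ker L
  rw [Module.finrank_fintype_fun_eq_card] at hrn
  have htarget : Module.finrank ℝ ((M → ℝ) × ℝ) = M.card + 1 := by
    rw [Module.finrank_prod, Module.finrank_fintype_fun_eq_card, Module.finrank_self,
      Fintype.card_coe]
  have hle := Submodule.finrank_le (LinearMap.range L)
  have htop : LinearMap.range L = ⊤ := by
    apply Submodule.eq_top_of_finrank_eq
    rw [htarget] at hle ⊢
    omega
  obtain ⟨k, hk⟩ := LinearMap.range_eq_top.1 htop (0, 1)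
  refine ⟨k, ?_, congrArg Prod.snd hk⟩
  intro m b c hm
  exact congrFun (congrArg Prod.fst hk) ⟨(m, b, c), (hM _).2 hm⟩

end Pool.Agent.V11122.Sym
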