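import Pool.Agent.V11122.Sym.Defs

set_option autoImplicit false

/-! Determinants, cones, values of piecewise linear functions on the drawing. -/

namespace Pool.Agent.V11122.Sym

open Pool.Agent.V11122.Sink

/-- planar determinant of the horizontal parts -/
def S (q r : E3) : ℝ := q 0 * r 1 - q 1 * r 0

/-- determinant -/
def Dt (q r t : E3) : ℝ := q 2 * S r t + r 2 * S t q + t 2 * S q r

theorem north0 : north 0 = 0 := rfl
theorem north1 : north 1 = 0 := rfl
theorem north2 : north 2 = 1 := rfl

theorem ext3 {q r : E3} (h0 : q 0 = r 0) (h1 : q 1 = r 1) (h2 : q 2 = r 2) : q = r := by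
  ext i
  fin_cases i
  · exact h0
  · exact h1
  · exact h2

theorem S_anti (q r : E3) : S r q = -S q r := by unfold S; ring
theorem S_self (q : E3) : S q q = 0 := by unfold S; ring

theorem Dt_rot (q r t : E3) : Dt r t q = Dt q r t := by unfold Dt; ring
theorem Dt_swap (q r t : E3) : Dt q t r = -Dt q r t := by unfold Dt S; ring

/-- Cramer's rule -/
theorem cramer (a b c q : E3) :
    Dt a b c • q = Dt q b c • a + Dt q c a • b + Dt q a b • c := by
  apply ext3 <;> simp [Dt, S] <;> ring

/-- coefficient of `a` in the basis `a, b, c` -/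
noncomputable def co (a b c q : E3) : ℝ := Dt q b c / Dt a b c

theorem co_add (a b c q r : E3) : co a b c (q + r) = co a b c q + co a b c r := by
  unfold co
  rw [← add_div]
  congr 1
  simp [Dt, S]; ring

theorem co_smul (a b c q : E3) (x : ℝ) : co a b c (x • q) = x * co a b c q := by
  unfold co
  rw [← mul_div_assoc]
  congr 1
  simp [Dt, S]; ring

theorem rep {a b c : E3} (h : Dt a b c ≠ 0) (q : E3) :
    q = co a b c q • a + co b c a q • b + co c a b q • c := by
  have h1 := cramer a b c q
  have h2 : Dt b c a = Dt a b c := Dt_rot a b c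
  have h3 : Dt c a b = Dt a b c := by rw [← Dt_rot c a b]
  have h4 : q = (Dt a b c)⁻¹ • (Dt a b c • q) := by rw [smul_smul, inv_mul_cancel₀ h, one_smul]
  conv_lhs => rw [h4, h1]
  unfold co
  rw [h2, h3]
  simp only [smul_add, smul_smul]
  congr 1
  · congr 1 <;> congr 1 <;> ring
  · congr 1; ring

theorem co_a {a b c : E3} (h : Dt a b c ≠ 0) : co a b c a = 1 := div_self h

theorem co_b (a b c : E3) : co a b c b = 0 := by
  have : Dt b b c = 0 := by unfold Dt S; ring
  rw [co, this, zero_div]

theorem co_c (a b c : E3) : co a b c c = 0 := by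
  have : Dt c b c = 0 := by unfold Dt S; ring
  rw [co, this, zero_div]

theorem Dt_ne {a b c : E3} (h : Dt a b c ≠ 0) : Dt b c a ≠ 0 ∧ Dt c a b ≠ 0 := by
  refine ⟨by rwa [Dt_rot], ?_⟩
  rw [← Dt_rot c a b]; exact h

theorem co_comb {a b c : E3} (h : Dt a b c ≠ 0) (r s t : ℝ) :
    co a b c (r • a + s • b + t • c) = r := by
  rw [co_add, co_add, co_smul, co_smul, co_smul, co_a h, co_b, co_c]; ring

theorem Dt_north (a b : E3) : Dt north a b = S a b := by
  simp [Dt, S, north0, north1, north2]

theorem co_north (a b c : E3) : co a b c north = S b c / Dt a b c := by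
  rw [co, Dt_north]

theorem co_vert (a b c q : E3) (t : ℝ) :
    co a b c (q + t • north) = co a b c q + t * (S b c / Dt a b c) := by
  rw [co_add, co_smul, co_north]

/-- `a, b, c` linearly independent, in elementary form -/
theorem indep_of_Dt {a b c : E3} (h : Dt a b c ≠ 0) {r s t : ℝ}
    (h0 : r • a + s • b + t • c = 0) : r = 0 ∧ s = 0 ∧ t = 0 := by
  have z : ∀ x y w : E3, co x y w 0 = 0 := by
    intro x y w
    have := co_smul x y w 0 0
    simpa using this
  refine ⟨?_, ?_, ?_⟩
  · rw [← co_comb h r s t, h0, z]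
  · rw [← co_comb (Dt_ne h).1 s t r]
    have : s • b + t • c + r • a = 0 := by rw [← h0]; abel
    rw [this, z]
  · rw [← co_comb (Dt_ne h).2 t r s]
    have : t • c + r • a + s • b = 0 := by rw [← h0]; abel
    rw [this, z]

theorem indep2 {a b : E3} (h : S a b ≠ 0) {r s : ℝ} (h0 : r • a + s • b = 0) :
    r = 0 ∧ s = 0 := by
  have e0 : r * a 0 + s * b 0 = 0 := by
    have := congrArg (fun y : E3 => y 0) h0; simpa using this
  have e1 : r * a 1 + s * b 1 = 0 := by
    have := congrArg (fun y : E3 => y 1) h0; simpa using this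
  unfold S at h
  constructor
  · have : r * (a 0 * b 1 - a 1 * b 0) = 0 := by
      linear_combination (b 1) * e0 - (b 0) * e1
    exact (mul_eq_zero.1 this).resolve_right h
  · have : s * (a 0 * b 1 - a 1 * b 0) = 0 := by
      linear_combination (a 0) * e1 - (a 1) * e0
    exact (mul_eq_zero.1 this).resolve_right h

theorem eq2 {a b : E3} (h : S a b ≠ 0) {r s r' s' : ℝ} (h0 : r • a + s • b = r' • a + s' • b) :
    r = r' ∧ s = s' := by
  have : (r - r') • a + (s - s') • b = 0 := by
    rw [sub_smul, sub_smul]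
    have h1 : r • a - r' • a + (s • b - s' • b) = (r • a + s • b) - (r' • a + s' • b) := by abel
    rw [h1, h0, sub_self]
  obtain ⟨h1, h2⟩ := indep2 h this
  exact ⟨by linarith, by linarith⟩

variable {V : Type} {G : SimpleGraph V} {p : V → E3}

/-- equal or adjacent -/
def Ad (G : SimpleGraph V) (a b : V) : Prop := a = b ∨ G.Adj a b

theorem Ad.symm {a b : V} (h : Ad G a b) : Ad G b a := by
  rcases h with h | h
  · exact Or.inl h.symm
  · exact Or.inr h.symm

theorem S_ne (gen : IsGeneric p) {a b : V} (h : a ≠ b) : S (p a) (p b) ≠ 0 := by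
  intro h0
  have hli := gen.pole a b h
  rw [Fintype.linearIndependent_iff] at hli
  have key : ∀ r s t : ℝ, r • north + s • p a + t • p b = 0 → r = 0 ∧ s = 0 ∧ t = 0 := by
    intro r s t h1
    have h2 := hli ![r, s, t] (by
      rw [Fin.sum_univ_three]
      simpa using h1)
    exact ⟨h2 0, h2 1, h2 2⟩
  unfold S at h0
  -- nontrivial relations
  have rel : ∀ s t : ℝ, s * p a 0 + t * p b 0 = 0 → s * p a 1 + t * p b 1 = 0 →
      s = 0 ∧ t = 0 := by
    intro s t e0 e1
    have := key (-(s * p a 2 + t * p b 2)) s t (by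
      apply ext3
      · simp [north0]; linarith
      · simp [north1]; linarith
      · simp [north2])
    exact this.2
  have r1 := rel (p b 0) (-p a 0) (by ring) (by linarith)
  have r2 := rel (p b 1) (-p a 1) (by linarith) (by ring)
  have r3 := rel 1 0 (by rw [neg_eq_zero.1 r1.2]; ring) (by rw [neg_eq_zero.1 r2.2]; ring)
  exact one_ne_zero r3.1

theorem Dt_ne_zero (gen : IsGeneric p) {a b c : V} (h1 : a ≠ b) (h2 : b ≠ c) (h3 : a ≠ c) :
    Dt (p a) (p b) (p c) ≠ 0 := by
  intro h0
  have hli := gen.three a b c h1 h2 h3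
  rw [Fintype.linearIndependent_iff] at hli
  have key : ∀ r s t : ℝ, r • p a + s • p b + t • p c = 0 → r = 0 ∧ s = 0 ∧ t = 0 := by
    intro r s t h1
    have h2 := hli ![r, s, t] (by
      rw [Fin.sum_univ_three]
      simpa using h1)
    exact ⟨h2 0, h2 1, h2 2⟩
  have := key (S (p b) (p c)) (S (p c) (p a)) (S (p a) (p b)) (by
    unfold Dt at h0
    apply ext3
    · simp [S]; ring
    · simp [S]; ring
    · simp only [PiLp.add_apply, PiLp.smul_apply, smul_eq_mul, PiLp.zero_apply]
      linarith)
  exact S_ne gen h2 this.1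

end Pool.Agent.V11122.Sym
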