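import Pool.Agent.V11122.Sink.Defs

set_option autoImplicit false

/-! Shortest-path triangulations (one face may be larger than a hemisphere), genericity,
floatability. -/

namespace Pool.Agent.V11122.Sym

open Pool.Agent.V11122.Sink

/-- The closed spherical triangle with corners `x`, `y`, `z`: all unit vectors which are
nonnegative combinations of `x`, `y`, `z`. -/
def closedTriangle (x y z : E3) : Set E3 :=
  {w | ‖w‖ = 1 ∧ ∃ r s t : ℝ, 0 ≤ r ∧ 0 ≤ s ∧ 0 ≤ t ∧ w = r • x + s • y + t • z}

/-- `p` is a shortest-path triangulation with underlying graph `G`: a shortest-path embedding such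
that every face (connected component of the complement of the drawing) is bounded by three edges,
i.e. it is one of the two sides of a spherical triangle spanned by three pairwise adjacent
vertices: the open triangle, or the complement of the closed triangle. -/
structure IsTriangulation {V : Type} (G : SimpleGraph V) (p : V → E3) : Prop
    extends IsShortestPathEmbedding G p where
  face : ∀ x ∈ sphere \ drawing G p, ∃ a b c, G.Adj a b ∧ G.Adj b c ∧ G.Adj c a ∧
    (connectedComponentIn (sphere \ drawing G p) x = openTriangle (p a) (p b) (p c) ∨
      connectedComponentIn (sphere \ drawing G p) x =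
        sphere \ closedTriangle (p a) (p b) (p c))

/-- The genericity convention: no great circle contains more than two vertices, and no great
circle through the poles contains more than one vertex. -/
structure IsGeneric {V : Type} (p : V → E3) : Prop where
  three : ∀ a b c, a ≠ b → b ≠ c → a ≠ c → LinearIndependent ℝ ![p a, p b, p c]
  pole : ∀ a b, a ≠ b → LinearIndependent ℝ ![north, p a, p b]

/-- `p` is floatable: there is a continuous family `Γ t`, `t ∈ [0,1]`, of shortest-path embeddings
of `G` with `Γ 0 = p`, such that every vertex stays on its own longitude, and such that in `Γ 1`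
all vertices lie in the open northern hemisphere. -/
def Floatable {V : Type} (G : SimpleGraph V) (p : V → E3) : Prop :=
  ∃ Γ : unitInterval → V → E3, Continuous Γ ∧ Γ 0 = p ∧
    (∀ t, IsShortestPathEmbedding G (Γ t)) ∧ (∀ t v, Γ t v ∈ longitude (p v)) ∧
    ∀ v, 0 < Γ 1 v 2

end Pool.Agent.V11122.Sym
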