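import Pool.Agent.V11122.Sym.Mid

set_option autoImplicit false

/-! Signs of the dual vector; sinkable implies floatable when the poles lie in different faces. -/

namespace Pool.Agent.V11122.Sym

open Pool.Agent.V11122.Sink Filter Topology

variable {V : Type} {G : SimpleGraph V} {p : V → E3}

/-- reduce a rotation-invariant statement about nonpolar faces to middle faces -/
theorem nf_reduce (gen : IsGeneric p) {Q : V → V → V → Prop}
    (hrot : ∀ a b c, Q b c a → Q a b c) (h1 : ∀ a b c, Mid G p 1 a b c → Q a b c)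
    (h2 : ∀ a b c, Mid G p (-1) a b c → Q a b c) : ∀ a b c, NF G p a b c → Q a b c := by
  intro a b c h
  obtain ⟨τ, hτ, hm⟩ := mid_cases gen h
  have all : ∀ x y z, Mid G p τ x y z → Q x y z := by
    rcases hτ with rfl | rfl
    · exact h1
    · exact h2
  rcases hm with hm | hm | hm
  · exact all _ _ _ hm
  · exact hrot _ _ _ (all _ _ _ hm)
  · exact hrot _ _ _ (hrot _ _ _ (all _ _ _ hm))

theorem DD_pol_nonpos {a b c : V} (P : Pol G p (-1) a b c) {g : V → ℝ} (hg : ∀ v, 0 ≤ g v) :
    DD p g a b c ≤ 0 := by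
  have h1 := P.s1
  have h2 := P.s2
  have h3 := P.s3
  unfold DD
  have k1 := mul_nonpos_of_nonneg_of_nonpos (hg a) (by linarith : S (p b) (p c) ≤ 0)
  have k2 := mul_nonpos_of_nonneg_of_nonpos (hg b) (by linarith : S (p c) (p a) ≤ 0)
  have k3 := mul_nonpos_of_nonneg_of_nonpos (hg c) (by linarith : S (p a) (p b) ≤ 0)
  linarith

open Classical in
theorem nonneg_of [Fintype V] (H : Sit G p) {a b c a' b' c' : V} (P : Pol G p 1 a b c)
    (P' : Pol G p (-1) a' b' c') {x : V → ℝ} (hx : ∀ v, 0 < x v)
    (hxD : ∀ a b c, NF G p a b c → DD p x a b c < 0) {k : V → ℝ}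
    (hk : ∀ m b c, Mid G p (-1) m b c → DD p k m b c = 0) (hk' : DD p k a' b' c' ≤ 0) :
    ∀ m b c, Mid G p 1 m b c → 0 ≤ DD p k m b c := by
  intro m0 b0 c0 hm0
  by_contra hneg
  push Not at hneg
  let ψ : V → ℝ := fun v => if (∃ b c, Mid G p 1 v b c ∧ DD p k v b c < 0) then x v else 0
  have hψ0 : ∀ v, 0 ≤ ψ v := by
    intro v
    simp only [ψ]
    split_ifs
    · exact (hx v).le
    · exact le_rfl
  have hψx : ∀ v, ψ v ≤ x v := by
    intro v
    simp only [ψ]
    split_ifs
    · exact le_rfl
    · exact (hx v).le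
  have hψP : DD p ψ a b c = 0 := by
    have e : ∀ v, (v = a ∨ v = b ∨ v = c) → ψ v = 0 := by
      intro v hv
      simp only [ψ]
      rw [if_neg]
      rintro ⟨y, z, hm, -⟩
      obtain ⟨k1, k2, k3⟩ := hm.not_corner H (Or.inl rfl) P
      rcases hv with h | h | h
      · exact k1 h
      · exact k2 h
      · exact k3 h
    unfold DD
    rw [e a (Or.inl rfl), e b (Or.inr (Or.inl rfl)), e c (Or.inr (Or.inr rfl))]
    ring
  have hψP' := DD_pol_nonpos P' hψ0
  have hw' := W_pol (Or.inr rfl) P'
  -- terms of middle faces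
  have hmid : ∀ m y z, Mid G p 1 m y z → W p m y z * DD p ψ m y z * DD p k m y z ≤ 0 ∧
      (DD p k m y z < 0 → W p m y z * DD p ψ m y z * DD p k m y z < 0) := by
    intro m y z hm
    have hw := W_mid (Or.inl rfl) hm
    rw [one_mul] at hw
    have s1 := hm.s1
    have s3 := hm.s3
    rw [one_mul] at s1 s3
    have strictc : DD p k m y z < 0 → W p m y z * DD p ψ m y z * DD p k m y z < 0 := by
      intro hlt
      have e : ψ m = x m := by
        simp only [ψ]
        rw [if_pos ⟨y, z, hm, hlt⟩]
      have h1 : DD p ψ m y z ≤ DD p x m y z := by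
        unfold DD
        rw [e]
        have := mul_le_mul_of_nonneg_right (hψx y) s3.le
        have := mul_le_mul_of_nonneg_right (hψx z) s1.le
        linarith
      have h2 := hxD m y z hm.nf
      have h3 : 0 < W p m y z * DD p ψ m y z := mul_pos_of_neg_of_neg hw (by linarith)
      exact mul_neg_of_pos_of_neg h3 hlt
    refine ⟨?_, strictc⟩
    rcases lt_or_ge (DD p k m y z) 0 with hlt | hge
    · exact (strictc hlt).le
    · have e : ψ m = 0 := by
        simp only [ψ]
        rw [if_neg]
        rintro ⟨y', z', hm', hlt⟩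
        obtain ⟨e1, e2⟩ := hm.uniq H hm'
        rw [e1, e2] at hlt
        linarith
      have h1 : 0 ≤ DD p ψ m y z := by
        unfold DD
        rw [e]
        have := mul_nonneg (hψ0 y) s3.le
        have := mul_nonneg (hψ0 z) s1.le
        linarith
      rw [mul_assoc]
      exact mul_nonpos_of_nonpos_of_nonneg hw.le (mul_nonneg h1 hge)
  have hterm : ∀ x y z, NF G p x y z → W p x y z * DD p ψ x y z * DD p k x y z ≤ 0 := by
    refine nf_reduce H.gen (Q := fun x y z => W p x y z * DD p ψ x y z * DD p k x y z ≤ 0)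
      ?_ ?_ ?_
    · intro u v w h
      rwa [W_rot u v w, DD_rot ψ u v w, DD_rot k u v w] at h
    · intro u v w h; exact (hmid u v w h).1
    · intro u v w h
      rw [hk u v w h, mul_zero]
  have hq := quad H P P' ψ k
  rw [add_assoc] at hq
  obtain ⟨h1, -⟩ := all_zero (by
      intro x y z
      by_cases h : NF G p x y z
      · rw [if_pos h]; exact hterm x y z h
      · rw [if_neg h]) (by
      rw [hψP]
      have h2 : 0 ≤ DD p ψ a' b' c' * DD p k a' b' c' :=
        mul_nonneg_of_nonpos_of_nonpos hψP' hk'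
      have h3 : W p a' b' c' * (DD p ψ a' b' c' * DD p k a' b' c') ≤ 0 :=
        mul_nonpos_of_nonpos_of_nonneg (by linarith) h2
      linarith) hq
  have := h1 m0 b0 c0
  rw [if_pos hm0.nf] at this
  have h2 := (hmid m0 b0 c0 hm0).2 hneg
  linarith

open Classical in
theorem dual_signs [Fintype V] (H : Sit G p) {a b c a' b' c' : V} (P : Pol G p 1 a b c)
    (P' : Pol G p (-1) a' b' c') {x : V → ℝ} (hx : ∀ v, 0 < x v)
    (hxD : ∀ a b c, NF G p a b c → DD p x a b c < 0) {k : V → ℝ}
    (hk : ∀ m b c, Mid G p (-1) m b c → DD p k m b c = 0) (hk1 : DD p k a b c = 1) :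
    DD p k a' b' c' < 0 ∧ ∀ a b c, NF G p a b c → 0 ≤ DD p k a b c := by
  have hlt : DD p k a' b' c' < 0 := by
    by_contra hge
    push Not at hge
    have hneg := nonneg_of H P P' hx hxD (k := fun v => -k v)
      (fun m b c hm => by rw [DD_neg, hk m b c hm, neg_zero]) (by rw [DD_neg]; linarith)
    let g : V → ℝ := fun v => if v = a then 1 else 0
    have hg0 : ∀ v, 0 ≤ g v := by
      intro v
      simp only [g]
      split_ifs
      · exact zero_le_one
      · exact le_rfl
    have hgP : 0 < DD p g a b c := by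
      have s2 := P.s2
      rw [one_mul] at s2
      unfold DD
      simp only [g, if_true, if_neg P.ab.ne', if_neg P.ca.ne]
      linarith
    have hgP' := DD_pol_nonpos P' hg0
    have hterm : ∀ x y z, NF G p x y z → 0 ≤ W p x y z * DD p g x y z * DD p k x y z := by
      refine nf_reduce H.gen (Q := fun x y z => 0 ≤ W p x y z * DD p g x y z * DD p k x y z)
        ?_ ?_ ?_
      · intro u v w h
        rwa [W_rot u v w, DD_rot g u v w, DD_rot k u v w] at h
      · intro m y z hm
        have hw := W_mid (Or.inl rfl) hm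
        have s1 := hm.s1
        have s3 := hm.s3
        rw [one_mul] at s1 s3 hw
        have hma := (hm.not_corner H (Or.inl rfl) P).1
        have e : g m = 0 := by simp only [g]; rw [if_neg hma]
        have h1 : 0 ≤ DD p g m y z := by
          unfold DD
          rw [e]
          have := mul_nonneg (hg0 y) s3.le
          have := mul_nonneg (hg0 z) s1.le
          linarith
        have h2 := hneg m y z hm
        rw [DD_neg] at h2
        exact mul_nonneg_of_nonpos_of_nonpos (mul_nonpos_of_nonpos_of_nonneg hw.le h1)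
          (by linarith)
      · intro u v w h
        rw [hk u v w h, mul_zero]
    have hq := quad H P P' g k
    have hsum : 0 ≤ ∑ x, ∑ y, ∑ z, if NF G p x y z then
        W p x y z * DD p g x y z * DD p k x y z else 0 := by
      apply Finset.sum_nonneg
      intro x _
      apply Finset.sum_nonneg
      intro y _
      apply Finset.sum_nonneg
      intro z _
      by_cases h : NF G p x y z
      · rw [if_pos h]; exact hterm x y z h
      · rw [if_neg h]
    have hw := W_pol (Or.inl rfl) P
    rw [one_mul] at hw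
    have hw' := W_pol (Or.inr rfl) P'
    rw [hk1, mul_one] at hq
    have h1 := mul_pos hw hgP
    have h2 : 0 ≤ W p a' b' c' * DD p g a' b' c' * DD p k a' b' c' :=
      mul_nonneg (mul_nonneg_of_nonpos_of_nonpos (by linarith) hgP') hge
    linarith
  refine ⟨hlt, ?_⟩
  have hpos := nonneg_of H P P' hx hxD hk hlt.le
  refine nf_reduce H.gen (Q := fun x y z => 0 ≤ DD p k x y z) ?_ ?_ ?_
  · intro u v w h
    rwa [DD_rot] at h
  · exact hpos
  · intro u v w h
    rw [hk u v w h]

theorem DD_add (g h : V → ℝ) (r : ℝ) (a b c : V) :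
    DD p (fun v => g v + r * h v) a b c = DD p g a b c + r * DD p h a b c := by
  unfold DD; ring

theorem floatable_of [Finite V] (H : Sit G p) {x : V → ℝ} (hx : ∀ v, 0 < x v)
    (hxD : ∀ a b c, NF G p a b c → DD p x a b c < 0) : Floatable G p := by
  haveI : Fintype V := Fintype.ofFinite V
  have emb := H.T.toIsShortestPathEmbedding
  obtain ⟨a, b, c, P⟩ := H.pol (σ := 1) (Or.inl rfl)
  obtain ⟨a', b', c', P'⟩ := H.pol (σ := -1) (Or.inr rfl)
  obtain ⟨k, hk, hk1⟩ := exists_dual H P P'
  obtain ⟨hk2, hk3⟩ := dual_signs H P P' hx hxD hk hk1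
  -- large multiple
  obtain ⟨r, hr, hr2⟩ : ∃ r : ℝ, 0 ≤ r ∧
      DD p (fun v => p v 2) a' b' c' + r * DD p k a' b' c' < 0 := by
    refine ⟨(|DD p (fun v => p v 2) a' b' c'| + 1) / (-DD p k a' b' c'), ?_, ?_⟩
    · apply div_nonneg
      · positivity
      · linarith
    · have e : (|DD p (fun v => p v 2) a' b' c'| + 1) / (-DD p k a' b' c') *
          DD p k a' b' c' = -(|DD p (fun v => p v 2) a' b' c'| + 1) := by
        rw [div_neg, neg_mul, div_mul_cancel₀ _ hk2.ne]
      rw [e]
      have := le_abs_self (DD p (fun v => p v 2) a' b' c')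
      linarith
  set g : V → ℝ := fun v => p v 2 + r * k v with hg
  have hgN : ∀ a b c, NF G p a b c → 0 < DD p g a b c := by
    intro a b c h
    rw [hg, DD_add]
    have h1 : DD p (fun v => p v 2) a b c = Dt (p a) (p b) (p c) := rfl
    rw [h1]
    have := mul_nonneg hr (hk3 a b c h)
    have := h.pos
    linarith
  have hgP : DD p g a' b' c' < 0 := by rw [hg, DD_add]; exact hr2
  -- level the south triple
  have s1 := P'.s1
  have s2 := P'.s2
  have s3 := P'.s3
  have hS := S_ne H.gen P'.ab.ne
  set σ' := S (p a') (p b') + S (p b') (p c') + S (p c') (p a') with hσ'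
  have hσneg : σ' < 0 := by rw [hσ']; linarith
  set C := DD p g a' b' c' / σ' with hC
  have hCpos : 0 < C := div_pos_of_neg_of_neg hgP hσneg
  obtain ⟨α, β, l1, l2⟩ := lin_two (p := p) hS (C - g a') (C - g b')
  set g' : V → ℝ := fun v => g v + (α * p v 0 + β * p v 1) with hg'
  have ga : g' a' = C := by rw [hg']; simp only; rw [l1]; ring
  have gb : g' b' = C := by rw [hg']; simp only; rw [l2]; ring
  have gc : g' c' = C := by
    have h1 := DD_lin (p := p) g α β a' b' c'
    change DD p g' a' b' c' = _ at h1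
    have h2 : DD p g a' b' c' = C * σ' := by rw [hC, div_mul_cancel₀ _ hσneg.ne]
    rw [h2] at h1
    unfold DD at h1
    rw [ga, gb, hσ'] at h1
    have h3 : (g' c' - C) * S (p a') (p b') = 0 := by linarith
    have := (mul_eq_zero.1 h3).resolve_right hS
    linarith
  have hgN' : ∀ a b c, NF G p a b c → 0 < DD p g' a b c := by
    intro a b c h
    rw [hg', DD_lin]; exact hgN a b c h
  -- positivity everywhere
  have hpos : ∀ v, 0 < g' v := by
    intro v
    obtain ⟨y, z, hyz, s, t, hs, ht, e0, e1⟩ := above P' (p v)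
    have hhu := hu H.T H.gen v
    have hq' : s • p y + t • p z ≠ 0 := by
      apply ne_zero_of_horiz
      rw [← e0, ← e1]
      exact hhu
    have hst : 0 < s + t := by
      rcases (add_nonneg hs ht).lt_or_eq with h | h
      · exact h
      · exfalso
        apply hq'
        have h1 : s = 0 := by linarith
        have h2 : t = 0 := by linarith
        rw [h1, h2]; simp
    have hval : s * g' y + t * g' z = (s + t) * C := by
      rcases hyz with ⟨rfl, rfl⟩ | ⟨rfl, rfl⟩ | ⟨rfl, rfl⟩
      · rw [ga, gb]; ring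
      · rw [gb, gc]; ring
      · rw [gc, ga]; ring
    have evq : EV G p g' (s • p y + t • p z) ((s + t) * C) :=
      ⟨y, z, Or.inr (hyz.adj P'), s, t, hs, ht, rfl, hval.symm⟩
    have evv : EV G p g' (p v) (g' v) :=
      ⟨v, v, Or.inl rfl, 1, 0, zero_le_one, le_rfl, by simp, by ring⟩
    have hCst : 0 < (s + t) * C := mul_pos hst hCpos
    rcases lt_trichotomy ((s • p y + t • p z) 2) (p v 2) with h | h | h
    · have := strict H hgN' hq' e0.symm e1.symm evq evv h
      linarith
    · have e : s • p y + t • p z = p v := ext3 e0.symm e1.symm h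
      rw [e] at evq
      rw [ev_unique emb H.gen (p_ne_zero emb v) evv evq]
      exact hCst
    · exfalso
      have hE : OnE p a' b' c' (s • p y + t • p z) := by
        rcases hyz with ⟨rfl, rfl⟩ | ⟨rfl, rfl⟩ | ⟨rfl, rfl⟩
        · exact Or.inl ⟨s, t, hs, ht, rfl⟩
        · exact Or.inr (Or.inl ⟨s, t, hs, ht, rfl⟩)
        · exact Or.inr (Or.inr ⟨s, t, hs, ht, rfl⟩)
      have := P'.upb _ hE ((s • p y + t • p z) 2 - p v 2) (by linarith)
      have e : s • p y + t • p z + (((s • p y + t • p z) 2 - p v 2) * -1) • north = p v := by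
        apply ext3
        · rw [vadd0]; exact e0.symm
        · rw [vadd1]; exact e1.symm
        · rw [vadd2]; ring
      rw [e] at this
      exact this.notD emb evv.inD
  obtain ⟨Γ, h1, h2, h3, h4, h5⟩ := path H hgN'
  refine ⟨Γ, h1, h2, h3, h4, ?_⟩
  intro v
  rw [h5, pos_two]
  exact mul_pos (inv_pos.2 (norm_pos_iff.2 (lift_ne H g' v))) (hpos v)

theorem S_scale {q r q' r' : E3} {x y : ℝ} (h0 : q 0 = x * q' 0) (h1 : q 1 = x * q' 1)
    (k0 : r 0 = y * r' 0) (k1 : r 1 = y * r' 1) : S q r = x * y * S q' r' := by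
  unfold S; rw [h0, h1, k0, k1]; ring

theorem sink_heights [Finite V] (H : Sit G p) (h : Sinkable G p) :
    ∃ x : V → ℝ, (∀ v, 0 < x v) ∧ ∀ a b c, NF G p a b c → DD p x a b c < 0 := by
  obtain ⟨Γ, hcont, h0, hemb, hlong, hneg⟩ := h
  have hl : ∀ t v, ∃ r : ℝ, 0 < r ∧ Γ t v 0 = r * p v 0 ∧ Γ t v 1 = r * p v 1 :=
    fun t v => (hlong t v).2
  choose r hr hr0 hr1 using hl
  have hSS : ∀ t a b, S (Γ t a) (Γ t b) = r t a * r t b * S (p a) (p b) :=
    fun t a b => S_scale (hr0 t a) (hr1 t a) (hr0 t b) (hr1 t b)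
  have hcoord : ∀ v (i : Fin 3), Continuous fun t => Γ t v i := by
    intro v i
    have h1 : Continuous fun t => Γ t v := (continuous_apply v).comp hcont
    exact (PiLp.continuous_apply 2 (fun _ : Fin 3 => ℝ) i).comp h1
  -- the sign of a middle face persists
  have main : ∀ τ : ℝ, ∀ m b c, Mid G p τ m b c → 0 < Dt (Γ 1 m) (Γ 1 b) (Γ 1 c) := by
    intro τ m b c hm
    by_contra hcon
    push Not at hcon
    have hφ : Continuous fun t => Dt (Γ t m) (Γ t b) (Γ t c) := by
      unfold Dt S
      have hm0 := hcoord m 0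
      have hm1 := hcoord m 1
      have hm2 := hcoord m 2
      have hb0 := hcoord b 0
      have hb1 := hcoord b 1
      have hb2 := hcoord b 2
      have hc0 := hcoord c 0
      have hc1 := hcoord c 1
      have hc2 := hcoord c 2
      fun_prop
    have hex : ∃ t, Dt (Γ t m) (Γ t b) (Γ t c) = 0 := by
      have := mem_range_of_exists_le_of_exists_ge (c := (0 : ℝ)) hφ ⟨1, hcon⟩
        ⟨0, by rw [h0]; exact hm.nf.pos.le⟩
      exact this
    obtain ⟨t, ht⟩ := hex
    have e1 : τ * S (Γ t m) (Γ t b) = r t m * r t b * (τ * S (p m) (p b)) := by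
      rw [hSS]; ring
    have e2 : τ * S (Γ t b) (Γ t c) = r t b * r t c * (τ * S (p b) (p c)) := by
      rw [hSS]; ring
    have e3 : τ * S (Γ t c) (Γ t m) = r t c * r t m * (τ * S (p c) (p m)) := by
      rw [hSS]; ring
    have p1 : 0 < τ * S (Γ t m) (Γ t b) := by
      rw [e1]; exact mul_pos (mul_pos (hr t m) (hr t b)) hm.s1
    have p2 : τ * S (Γ t b) (Γ t c) < 0 := by
      rw [e2]; exact mul_neg_of_pos_of_neg (mul_pos (hr t b) (hr t c)) hm.s2
    have p3 : 0 < τ * S (Γ t c) (Γ t m) := by
      rw [e3]; exact mul_pos (mul_pos (hr t c) (hr t m)) hm.s3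
    have hmem : Γ t m ∈ arc (Γ t b) (Γ t c) := by
      refine ⟨(hemb t).unit m, -(τ * S (Γ t c) (Γ t m)) / (τ * S (Γ t b) (Γ t c)),
        -(τ * S (Γ t m) (Γ t b)) / (τ * S (Γ t b) (Γ t c)),
        (div_pos_of_neg_of_neg (by linarith) p2).le,
        (div_pos_of_neg_of_neg (by linarith) p2).le, ?_⟩
      unfold Dt at ht
      apply ext3
      · simp only [PiLp.add_apply, PiLp.smul_apply, smul_eq_mul]
        rw [div_mul_eq_mul_div, div_mul_eq_mul_div, ← add_div, eq_div_iff p2.ne]
        unfold S; ring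
      · simp only [PiLp.add_apply, PiLp.smul_apply, smul_eq_mul]
        rw [div_mul_eq_mul_div, div_mul_eq_mul_div, ← add_div, eq_div_iff p2.ne]
        unfold S; ring
      · simp only [PiLp.add_apply, PiLp.smul_apply, smul_eq_mul]
        rw [div_mul_eq_mul_div, div_mul_eq_mul_div, ← add_div, eq_div_iff p2.ne]
        linear_combination τ * ht
    rcases (hemb t).vertex_edge m b c hm.nf.bc hmem with h | h
    · exact hm.nf.ab.ne h
    · exact hm.nf.ca.ne' h
  have mainNF : ∀ a b c, NF G p a b c → 0 < Dt (Γ 1 a) (Γ 1 b) (Γ 1 c) := by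
    refine nf_reduce H.gen (Q := fun a b c => 0 < Dt (Γ 1 a) (Γ 1 b) (Γ 1 c)) ?_ ?_ ?_
    · intro a b c h
      rwa [Dt_rot] at h
    · exact main 1
    · exact main (-1)
  refine ⟨fun v => -(Γ 1 v 2) / r 1 v, fun v => div_pos (by have := hneg v; linarith) (hr 1 v),
    ?_⟩
  intro a b c h
  have h1 := mainNF a b c h
  have ha := hr 1 a
  have hb := hr 1 b
  have hc := hr 1 c
  have e : DD p (fun v => -(Γ 1 v 2) / r 1 v) a b c =
      -(Dt (Γ 1 a) (Γ 1 b) (Γ 1 c)) / (r 1 a * r 1 b * r 1 c) := by
    unfold DD Dt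
    rw [hSS, hSS, hSS]
    field_simp
    ring
  rw [e]
  exact div_neg_of_neg_of_pos (by linarith) (mul_pos (mul_pos ha hb) hc)

theorem sit_float [Finite V] (H : Sit G p) (h : Sinkable G p) : Floatable G p := by
  obtain ⟨x, hx, hxD⟩ := sink_heights H h
  exact floatable_of H hx hxD

end Pool.Agent.V11122.Sym
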