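import Pool.Agent.V11122.Sym.PosEmb

set_option autoImplicit false

/-! Every directed edge has exactly one face on its left; the quadratic identity. -/

namespace Pool.Agent.V11122.Sym

open Pool.Agent.V11122.Sink Filter Topology

variable {V : Type} {G : SimpleGraph V} {p : V → E3}

/-- directed edges of a cyclic triple -/
def DE (a b c x y : V) : Prop := (x = a ∧ y = b) ∨ (x = b ∧ y = c) ∨ (x = c ∧ y = a)

theorem mid_ne (gen : IsGeneric p) {x y : V} (hxy : x ≠ y) : p x + p y ≠ 0 := by
  intro h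
  have := indep2 (r := 1) (s := 1) (S_ne gen hxy) (by rw [one_smul, one_smul, h])
  exact one_ne_zero this.1

theorem edge_mid (emb : IsShortestPathEmbedding G p) (gen : IsGeneric p) {x y a b : V}
    (hxy : G.Adj x y) (hab : G.Adj a b) {r s : ℝ} (hr : 0 ≤ r) (hs : 0 ≤ s)
    (e : p x + p y = r • p a + s • p b) : (x = a ∧ y = b) ∨ (x = b ∧ y = a) := by
  have e1 : p x + p y = (1 : ℝ) • p x + (1 : ℝ) • p y := by rw [one_smul, one_smul]
  have hS := S_ne gen hxy.ne
  rcases common emb (Or.inr hxy) (Or.inr hab) (mid_ne gen hxy.ne) zero_le_one zero_le_one hr hs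
    e1 e with ⟨v, h1, -, h3⟩ | ⟨-, h⟩
  · exfalso
    rcases h1 with rfl | rfl
    · have := eq2 (r := 1) (s := 1) (r' := ‖p v + p y‖) (s' := 0) hS
        (by rw [← e1]; conv_lhs => rw [h3]
            simp)
      exact one_ne_zero this.2
    · have := eq2 (r := 1) (s := 1) (r' := 0) (s' := ‖p x + p v‖) hS
        (by rw [← e1]; conv_lhs => rw [h3]
            simp)
      exact one_ne_zero this.1
  · exact h

theorem ev_oc {x y z : V} (h : NF G p x y z) {σ : ℝ} (hs : 0 < σ * S (p x) (p y)) :
    ∀ᶠ t in 𝓝[>] (0 : ℝ), OC p x y z (p x + p y + (t * σ) • north) := by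
  have hD := h.pos
  have e : p x + p y = (1 : ℝ) • p x + (1 : ℝ) • p y + (0 : ℝ) • p z := by simp
  obtain ⟨c1, c2, c3⟩ := co_of_rep hD.ne' e
  have r2 : Dt (p z) (p x) (p y) = Dt (p x) (p y) (p z) := by rw [← Dt_rot (p z)]
  filter_upwards [eventually_pos (y := σ * S (p y) (p z) / Dt (p x) (p y) (p z)) one_pos,
    eventually_pos (y := σ * S (p z) (p x) / Dt (p y) (p z) (p x)) one_pos,
    self_mem_nhdsWithin] with t h1 h2 ht
  refine ⟨?_, ?_, ?_⟩
  · rw [co_up, c1]; exact h1
  · rw [co_up, c2]; exact h2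
  · rw [co_up, c3, zero_add, r2]
    exact mul_pos ht (div_pos hs hD)

theorem nf_edge (emb : IsShortestPathEmbedding G p) (gen : IsGeneric p) {σ : ℝ} {x y a b c : V}
    (hxy : G.Adj x y) (hs : 0 < σ * S (p x) (p y)) (h : NF G p a b c)
    {r s : ℝ} (hr : 0 ≤ r) (hs' : 0 ≤ s) (e : p x + p y = r • p a + s • p b)
    (hf : ∃ᶠ t in 𝓝[>] (0 : ℝ), OC p a b c (p x + p y + (t * σ) • north)) : NF G p x y c := by
  rcases edge_mid emb gen hxy h.ab hr hs' e with ⟨rfl, rfl⟩ | ⟨rfl, rfl⟩
  · exact h
  · exfalso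
    have hD := h.pos
    obtain ⟨t, h1, ht⟩ := (hf.and_eventually self_mem_nhdsWithin).exists
    obtain ⟨-, -, c3⟩ := co_of_rep (q := p x + p y) (r := 1) (s := 1) (t := 0) hD.ne'
      (by simp [add_comm])
    have r2 : Dt (p c) (p y) (p x) = Dt (p y) (p x) (p c) := by rw [← Dt_rot (p c)]
    have h2 := h1.2.2
    rw [co_up, c3, zero_add, r2, S_anti] at h2
    have h3 : σ * -S (p x) (p y) / Dt (p y) (p x) (p c) < 0 :=
      div_neg_of_neg_of_pos (by linarith) hD
    have := mul_neg_of_pos_of_neg (show (0 : ℝ) < t from ht) h3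
    linarith

theorem left_exists [Finite V] (H : Sit G p) {σ : ℝ} (hσ : σ = 1 ∨ σ = -1) {a b c x y : V}
    (P : Pol G p σ a b c) (hxy : G.Adj x y) (hs : 0 < σ * S (p x) (p y)) :
    DE a b c x y ∨ ∃ z, NF G p x y z := by
  have emb := H.T.toIsShortestPathEmbedding
  have hd : InD G p (p x + p y) := ⟨x, y, Or.inr hxy, 1, 1, zero_le_one, zero_le_one, by simp⟩
  have hanti : ∀ u v : V, 0 < σ * S (p u) (p v) → ¬ (x = v ∧ y = u) := by
    rintro u v h ⟨rfl, rfl⟩
    rw [S_anti] at h
    linarith
  have hne := mid_ne H.gen hxy.ne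
  rcases exists_dir H hσ P hne hd with h | ⟨a', b', c', h, hc, hf⟩
  · left
    rcases h with ⟨r, s, hr, hs', e⟩ | ⟨r, s, hr, hs', e⟩ | ⟨r, s, hr, hs', e⟩
    · rcases edge_mid emb H.gen hxy P.ab hr hs' e with h | h
      · exact Or.inl h
      · exact absurd h (hanti _ _ P.s1)
    · rcases edge_mid emb H.gen hxy P.bc hr hs' e with h | h
      · exact Or.inr (Or.inl h)
      · exact absurd h (hanti _ _ P.s2)
    · rcases edge_mid emb H.gen hxy P.ca hr hs' e with h | h
      · exact Or.inr (Or.inr h)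
      · exact absurd h (hanti _ _ P.s3)
  · right
    rcases h.onE emb hne hc hd with ⟨r, s, hr, hs', e⟩ | ⟨r, s, hr, hs', e⟩ | ⟨r, s, hr, hs', e⟩
    · exact ⟨_, nf_edge emb H.gen hxy hs h hr hs' e hf⟩
    · exact ⟨_, nf_edge emb H.gen hxy hs h.rot hr hs' e (hf.mono fun t ht => ht.rot)⟩
    · exact ⟨_, nf_edge emb H.gen hxy hs h.rot.rot hr hs' e (hf.mono fun t ht => ht.rot.rot)⟩

theorem sgn_cases {x : ℝ} (h : x ≠ 0) : ∃ σ : ℝ, (σ = 1 ∨ σ = -1) ∧ 0 < σ * x := by
  rcases lt_or_gt_of_ne h with h | h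
  · exact ⟨-1, Or.inr rfl, by linarith⟩
  · exact ⟨1, Or.inl rfl, by linarith⟩

theorem horiz_mid (gen : IsGeneric p) {x y : V} (hxy : x ≠ y) (t : ℝ) :
    p x + p y + t • north ≠ 0 := by
  intro h
  have h0 : p x 0 + p y 0 = 0 := by rw [← PiLp.add_apply, ← vadd0 _ t, h]; rfl
  have h1 : p x 1 + p y 1 = 0 := by rw [← PiLp.add_apply, ← vadd1 _ t, h]; rfl
  have := horiz_eq (r := 1) (s := 1) (r' := 0) (s' := 0) (S_ne gen hxy) (by linarith)
    (by linarith)
  exact one_ne_zero this.1

theorem left_unique [Finite V] (H : Sit G p) {x y z z' : V} (h : NF G p x y z)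
    (h' : NF G p x y z') : z' = z := by
  obtain ⟨σ, -, hs⟩ := sgn_cases (S_ne H.gen h.ab.ne)
  obtain ⟨t, h1, h2⟩ := ((ev_oc h hs).and (ev_oc h' hs)).exists
  rcases same_corners H.T.toIsShortestPathEmbedding h h' (horiz_mid H.gen h.ab.ne _) h1 h2 with
    ⟨-, -, e⟩ | ⟨e, -, -⟩ | ⟨e, -, -⟩
  · exact e
  · exact absurd e h.ab.ne
  · exact absurd e h.ca.ne'

theorem Pol.onE_mid {σ : ℝ} {a b c x y : V} (h : DE a b c x y) : OnE p a b c (p x + p y) := by
  rcases h with ⟨rfl, rfl⟩ | ⟨rfl, rfl⟩ | ⟨rfl, rfl⟩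
  · exact Or.inl ⟨1, 1, zero_le_one, zero_le_one, by simp⟩
  · exact Or.inr (Or.inl ⟨1, 1, zero_le_one, zero_le_one, by simp⟩)
  · exact Or.inr (Or.inr ⟨1, 1, zero_le_one, zero_le_one, by simp⟩)

theorem DE.pos {σ : ℝ} {a b c x y : V} (P : Pol G p σ a b c) (h : DE a b c x y) :
    0 < σ * S (p x) (p y) := by
  rcases h with ⟨rfl, rfl⟩ | ⟨rfl, rfl⟩ | ⟨rfl, rfl⟩
  · exact P.s1
  · exact P.s2
  · exact P.s3

theorem DE.adj {σ : ℝ} {a b c x y : V} (P : Pol G p σ a b c) (h : DE a b c x y) :
    G.Adj x y := by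
  rcases h with ⟨rfl, rfl⟩ | ⟨rfl, rfl⟩ | ⟨rfl, rfl⟩
  · exact P.ab
  · exact P.bc
  · exact P.ca

theorem left_excl [Finite V] (H : Sit G p) {σ : ℝ} (hσ : σ = 1 ∨ σ = -1) {a b c x y z : V}
    (P : Pol G p σ a b c) (hde : DE a b c x y) (h : NF G p x y z) : False := by
  obtain ⟨t, h1, ht⟩ := ((ev_oc h (hde.pos P)).and self_mem_nhdsWithin).exists
  exact h.not_inX H.T.toIsShortestPathEmbedding hσ (pole_off H.T H.gen hσ) h1
    (P.upb _ (Pol.onE_mid (σ := σ) hde) t ht)

open Classical in
theorem edge_ind [Fintype V] (H : Sit G p) {a b c a' b' c' : V} (P : Pol G p 1 a b c)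
    (P' : Pol G p (-1) a' b' c') (F : V → V → ℝ) (x y : V) :
    (if G.Adj x y then F x y else 0) =
      (∑ z, if NF G p x y z then F x y else 0) + (if DE a b c x y then F x y else 0) +
      (if DE a' b' c' x y then F x y else 0) := by
  by_cases hxy : G.Adj x y
  · rw [if_pos hxy]
    obtain ⟨σ, hσ, hs⟩ := sgn_cases (S_ne H.gen hxy.ne)
    have hsum0 : (∀ z, ¬ NF G p x y z) → (∑ z, if NF G p x y z then F x y else 0) = 0 := by
      intro h
      apply Finset.sum_eq_zero
      intro z _
      rw [if_neg (h z)]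
    have hsum1 : ∀ z, NF G p x y z → (∑ z, if NF G p x y z then F x y else 0) = F x y := by
      intro z hz
      rw [Finset.sum_eq_single z]
      · rw [if_pos hz]
      · intro z' _ hz'
        rw [if_neg]
        intro h
        exact hz' (left_unique H hz h)
      · intro h; exact absurd (Finset.mem_univ z) h
    rcases hσ with rfl | rfl
    · have h2 : ¬ DE a' b' c' x y := by
        intro h
        have := h.pos P'
        linarith
      rw [if_neg h2]
      by_cases h1 : DE a b c x y
      · rw [if_pos h1, hsum0 fun z hz => left_excl H (Or.inl rfl) P h1 hz]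
        ring
      · rw [if_neg h1]
        rcases left_exists H (Or.inl rfl) P hxy hs with h | ⟨z, hz⟩
        · exact absurd h h1
        · rw [hsum1 z hz]; ring
    · have h2 : ¬ DE a b c x y := by
        intro h
        have := h.pos P
        linarith
      rw [if_neg h2]
      by_cases h1 : DE a' b' c' x y
      · rw [if_pos h1, hsum0 fun z hz => left_excl H (Or.inr rfl) P' h1 hz]
        ring
      · rw [if_neg h1]
        rcases left_exists H (Or.inr rfl) P' hxy hs with h | ⟨z, hz⟩
        · exact absurd h h1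
        · rw [hsum1 z hz]; ring
  · rw [if_neg hxy, if_neg fun h => hxy (DE.adj P h), if_neg fun h => hxy (DE.adj P' h),
      Finset.sum_eq_zero]
    · ring
    · intro z _
      rw [if_neg fun h => hxy h.ab]

open Classical in
theorem sum_DE [Fintype V] {a b c : V} (h1 : a ≠ b) (h2 : b ≠ c) (h3 : c ≠ a)
    (F : V → V → ℝ) :
    (∑ x, ∑ y, if DE a b c x y then F x y else 0) = F a b + F b c + F c a := by
  have key : ∀ x y, (if DE a b c x y then F x y else 0) =
      (if x = a then (if y = b then F a b else 0) else 0) +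
      (if x = b then (if y = c then F b c else 0) else 0) +
      (if x = c then (if y = a then F c a else 0) else 0) := by
    intro x y
    unfold DE
    by_cases k1 : x = a
    · subst k1
      rw [if_neg h1, if_neg h3.symm]
      by_cases k2 : y = b
      · subst k2; simp
      · simp [k2, h1, h3.symm]
    · by_cases k2 : x = b
      · subst k2
        by_cases k3 : y = c
        · subst k3; simp [h1.symm, h2]
        · simp [h1.symm, h2, k3]
      · by_cases k3 : x = c
        · subst k3
          by_cases k4 : y = a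
          · subst k4; simp [h3, h2.symm]
          · simp [h3, h2.symm, k4]
        · simp [k1, k2, k3]
  simp only [key, Finset.sum_add_distrib]
  congr 1
  · congr 1
    · rw [Finset.sum_eq_single a]
      · simp
      · intro x _ hx; simp [hx]
      · simp
    · rw [Finset.sum_eq_single b]
      · simp
      · intro x _ hx; simp [hx]
      · simp
  · rw [Finset.sum_eq_single c]
    · simp
    · intro x _ hx; simp [hx]
    · simp

open Classical in
theorem anti_sum [Fintype V] (F : V → V → ℝ) (hF : ∀ x y, F y x = -F x y) :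
    (∑ x, ∑ y, if G.Adj x y then F x y else 0) = 0 := by
  have h1 : (∑ x, ∑ y, if G.Adj x y then F x y else 0) =
      ∑ x, ∑ y, if G.Adj y x then F y x else 0 := Finset.sum_comm
  have h2 : (∑ x, ∑ y, if G.Adj y x then F y x else 0) =
      -∑ x, ∑ y, if G.Adj x y then F x y else 0 := by
    rw [← Finset.sum_neg_distrib]
    apply Finset.sum_congr rfl
    intro x _
    rw [← Finset.sum_neg_distrib]
    apply Finset.sum_congr rfl
    intro y _
    by_cases h : G.Adj x y
    · rw [if_pos h, if_pos h.symm, hF]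
    · rw [if_neg h, if_neg fun h' => h h'.symm, neg_zero]
  linarith

open Classical in
theorem face_sum [Fintype V] (H : Sit G p) {a b c a' b' c' : V} (P : Pol G p 1 a b c)
    (P' : Pol G p (-1) a' b' c') (F : V → V → ℝ) (hF : ∀ x y, F y x = -F x y) :
    (∑ x, ∑ y, ∑ z, if NF G p x y z then F x y + F y z + F z x else 0) +
      3 * (F a b + F b c + F c a) + 3 * (F a' b' + F b' c' + F c' a') = 0 := by
  have h0 := anti_sum (G := G) F hF
  simp only [edge_ind H P P' F, Finset.sum_add_distrib] at h0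
  rw [sum_DE P.ab.ne P.bc.ne P.ca.ne, sum_DE P'.ab.ne P'.bc.ne P'.ca.ne] at h0
  have rot : ∀ x y z, NF G p x y z ↔ NF G p y z x :=
    fun x y z => ⟨fun h => h.rot, fun h => h.rot.rot⟩
  have e1 : (∑ x, ∑ y, ∑ z, if NF G p x y z then F y z else 0) =
      ∑ x, ∑ y, ∑ z, if NF G p x y z then F x y else 0 := by
    rw [Finset.sum_comm]
    apply Finset.sum_congr rfl
    intro y _
    rw [Finset.sum_comm]
    apply Finset.sum_congr rfl
    intro z _
    apply Finset.sum_congr rfl
    intro x _
    simp only [rot x y z]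
  have e2 : (∑ x, ∑ y, ∑ z, if NF G p x y z then F z x else 0) =
      ∑ x, ∑ y, ∑ z, if NF G p x y z then F x y else 0 := by
    have : (∑ x, ∑ y, ∑ z, if NF G p x y z then F z x else 0) =
        ∑ z, ∑ x, ∑ y, if NF G p x y z then F z x else 0 := by
      have h1 : ∀ x, (∑ y, ∑ z, if NF G p x y z then F z x else 0) =
          ∑ z, ∑ y, if NF G p x y z then F z x else 0 := fun x => Finset.sum_comm
      simp only [h1]
      rw [Finset.sum_comm]
    rw [this]
    apply Finset.sum_congr rfl
    intro z _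
    apply Finset.sum_congr rfl
    intro x _
    apply Finset.sum_congr rfl
    intro y _
    rw [rot z x y]
  have e3 : (∑ x, ∑ y, ∑ z, if NF G p x y z then F x y + F y z + F z x else 0) =
      (∑ x, ∑ y, ∑ z, if NF G p x y z then F x y else 0) +
      (∑ x, ∑ y, ∑ z, if NF G p x y z then F y z else 0) +
      (∑ x, ∑ y, ∑ z, if NF G p x y z then F z x else 0) := by
    simp only [← Finset.sum_add_distrib]
    apply Finset.sum_congr rfl
    intro x _
    apply Finset.sum_congr rfl
    intro y _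
    apply Finset.sum_congr rfl
    intro z _
    by_cases h : NF G p x y z
    · simp only [if_pos h]
    · simp only [if_neg h]; ring
  rw [e3, e1, e2]
  linarith

/-- squared horizontal length and horizontal inner product -/
def dh (q r : E3) : ℝ := q 0 * r 0 + q 1 * r 1

/-- the edge form -/
noncomputable def qf (p : V → E3) (g h : V → ℝ) (x y : V) : ℝ :=
  ((g x * h y + g y * h x) - dh (p x) (p y) / dh (p x) (p x) * (g x * h x) -
    dh (p x) (p y) / dh (p y) (p y) * (g y * h y)) / S (p x) (p y)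

theorem qf_anti (g h : V → ℝ) (x y : V) : qf p g h y x = -qf p g h x y := by
  unfold qf
  have e : dh (p y) (p x) = dh (p x) (p y) := by unfold dh; ring
  rw [S_anti (p x) (p y), e, div_neg]
  congr 2
  ring

/-- the weight of a face -/
noncomputable def W (p : V → E3) (a b c : V) : ℝ :=
  (S (p a) (p b) * S (p b) (p c) * S (p c) (p a))⁻¹

theorem dh_ne {q : E3} (h : q 0 ≠ 0 ∨ q 1 ≠ 0) : dh q q ≠ 0 := by
  unfold dh
  rcases h with h | h
  · have h1 := mul_self_pos.2 h
    have h2 := mul_self_nonneg (q 1)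
    linarith
  · have h1 := mul_self_pos.2 h
    have h2 := mul_self_nonneg (q 0)
    linarith

theorem qf_sum (g h : V → ℝ) {a b c : V} (hab : S (p a) (p b) ≠ 0) (hbc : S (p b) (p c) ≠ 0)
    (hca : S (p c) (p a) ≠ 0) (ha : dh (p a) (p a) ≠ 0) (hb : dh (p b) (p b) ≠ 0)
    (hc : dh (p c) (p c) ≠ 0) :
    qf p g h a b + qf p g h b c + qf p g h c a = W p a b c * DD p g a b c * DD p h a b c := by
  have k1 : dh (p a) (p b) * S (p c) (p a) + dh (p c) (p a) * S (p a) (p b) =
      -dh (p a) (p a) * S (p b) (p c) := by unfold dh S; ring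
  have k2 : dh (p b) (p c) * S (p a) (p b) + dh (p a) (p b) * S (p b) (p c) =
      -dh (p b) (p b) * S (p c) (p a) := by unfold dh S; ring
  have k3 : dh (p c) (p a) * S (p b) (p c) + dh (p b) (p c) * S (p c) (p a) =
      -dh (p c) (p c) * S (p a) (p b) := by unfold dh S; ring
  unfold qf W DD
  generalize S (p a) (p b) = A at *
  generalize S (p b) (p c) = B at *
  generalize S (p c) (p a) = C at *
  generalize dh (p a) (p a) = Pa at *
  generalize dh (p b) (p b) = Pb at *
  generalize dh (p c) (p c) = Pc at *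
  generalize dh (p a) (p b) = X at *
  generalize dh (p b) (p c) = Y at *
  generalize dh (p c) (p a) = Z at *
  have e1 : X / Pa / A + Z / Pa / C = -(B / (A * C)) := by
    field_simp
    linarith
  have e2 : Y / Pb / B + X / Pb / A = -(C / (A * B)) := by
    field_simp
    linarith
  have e3 : Z / Pc / C + Y / Pc / B = -(A / (B * C)) := by
    field_simp
    linarith
  have lhs : (g a * h b + g b * h a - X / Pa * (g a * h a) - X / Pb * (g b * h b)) / A +
      (g b * h c + g c * h b - Y / Pb * (g b * h b) - Y / Pc * (g c * h c)) / B +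
      (g c * h a + g a * h c - Z / Pc * (g c * h c) - Z / Pa * (g a * h a)) / C =
      (g a * h b + g b * h a) / A + (g b * h c + g c * h b) / B + (g c * h a + g a * h c) / C -
      (X / Pa / A + Z / Pa / C) * (g a * h a) - (Y / Pb / B + X / Pb / A) * (g b * h b) -
      (Z / Pc / C + Y / Pc / B) * (g c * h c) := by ring
  rw [lhs, e1, e2, e3]
  field_simp
  ring

open Classical in
/-- the quadratic identity -/
theorem quad [Fintype V] (H : Sit G p) {a b c a' b' c' : V} (P : Pol G p 1 a b c)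
    (P' : Pol G p (-1) a' b' c') (g h : V → ℝ) :
    (∑ x, ∑ y, ∑ z, if NF G p x y z then W p x y z * DD p g x y z * DD p h x y z else 0) +
      3 * (W p a b c * DD p g a b c * DD p h a b c) +
      3 * (W p a' b' c' * DD p g a' b' c' * DD p h a' b' c') = 0 := by
  have key := face_sum H P P' (qf p g h) (qf_anti g h)
  have hd : ∀ v, dh (p v) (p v) ≠ 0 := fun v => dh_ne (hu H.T H.gen v)
  rw [qf_sum g h (S_ne H.gen P.ab.ne) (S_ne H.gen P.bc.ne) (S_ne H.gen P.ca.ne) (hd _) (hd _)
    (hd _), qf_sum g h (S_ne H.gen P'.ab.ne) (S_ne H.gen P'.bc.ne) (S_ne H.gen P'.ca.ne) (hd _)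
    (hd _) (hd _)] at key
  refine Eq.trans ?_ key
  congr 2
  apply Finset.sum_congr rfl
  intro x _
  apply Finset.sum_congr rfl
  intro y _
  apply Finset.sum_congr rfl
  intro z _
  by_cases hN : NF G p x y z
  · rw [if_pos hN, if_pos hN, qf_sum g h (S_ne H.gen hN.ab.ne) (S_ne H.gen hN.bc.ne)
      (S_ne H.gen hN.ca.ne) (hd _) (hd _) (hd _)]
  · rw [if_neg hN, if_neg hN]

end Pool.Agent.V11122.Sym
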