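import Pool.Agent.V11122.Sym.Val

set_option autoImplicit false

/-! Faces. -/

namespace Pool.Agent.V11122.Sym

open Pool.Agent.V11122.Sink Filter Topology

variable {V : Type} {G : SimpleGraph V} {p : V → E3}

theorem co_of_rep {a b c q : E3} (hD : Dt a b c ≠ 0) {r s t : ℝ}
    (e : q = r • a + s • b + t • c) : co a b c q = r ∧ co b c a q = s ∧ co c a b q = t := by
  subst e
  refine ⟨co_comb hD r s t, ?_, ?_⟩
  · have : r • a + s • b + t • c = s • b + t • c + r • a := by abel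
    rw [this, co_comb (Dt_ne hD).1]
  · have : r • a + s • b + t • c = t • c + r • a + s • b := by abel
    rw [this, co_comb (Dt_ne hD).2]

/-- component of a point -/
def comp (G : SimpleGraph V) (p : V → E3) (x : E3) : Set E3 :=
  connectedComponentIn (sphere \ drawing G p) x

def OC (p : V → E3) (a b c : V) (q : E3) : Prop :=
  0 < co (p a) (p b) (p c) q ∧ 0 < co (p b) (p c) (p a) q ∧ 0 < co (p c) (p a) (p b) q

def CC (p : V → E3) (a b c : V) (q : E3) : Prop :=
  0 ≤ co (p a) (p b) (p c) q ∧ 0 ≤ co (p b) (p c) (p a) q ∧ 0 ≤ co (p c) (p a) (p b) q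

theorem OC.cc {a b c : V} {q : E3} (h : OC p a b c q) : CC p a b c q :=
  ⟨h.1.le, h.2.1.le, h.2.2.le⟩

theorem OC.rot {a b c : V} {q : E3} (h : OC p a b c q) : OC p b c a q := ⟨h.2.1, h.2.2, h.1⟩
theorem CC.rot {a b c : V} {q : E3} (h : CC p a b c q) : CC p b c a q := ⟨h.2.1, h.2.2, h.1⟩

theorem nz_rep {q x y z : E3} {r s t : ℝ} (e : q = r • x + s • y + t • z) :
    nz q = (‖q‖⁻¹ * r) • x + (‖q‖⁻¹ * s) • y + (‖q‖⁻¹ * t) • z := by
  have h1 : ‖q‖⁻¹ • (r • x + s • y + t • z) =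
      (‖q‖⁻¹ * r) • x + (‖q‖⁻¹ * s) • y + (‖q‖⁻¹ * t) • z := by
    rw [smul_add, smul_add, smul_smul, smul_smul, smul_smul]
  rw [← h1, ← e]
  rfl

theorem rep_of_nz {q x y z : E3} {r s t : ℝ} (hq : q ≠ 0) (e : nz q = r • x + s • y + t • z) :
    q = (‖q‖ * r) • x + (‖q‖ * s) • y + (‖q‖ * t) • z := by
  rw [mul_smul, mul_smul, mul_smul, ← smul_add, ← smul_add, ← e, nz_back hq]

theorem open_iff {a b c : V} (hD : Dt (p a) (p b) (p c) ≠ 0) {q : E3} (hq : q ≠ 0) :
    nz q ∈ openTriangle (p a) (p b) (p c) ↔ OC p a b c q := by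
  have hn : 0 < ‖q‖ := norm_pos_iff.2 hq
  constructor
  · rintro ⟨-, r, s, t, hr, hs, ht, e⟩
    obtain ⟨h1, h2, h3⟩ := co_of_rep hD (rep_of_nz hq e)
    refine ⟨?_, ?_, ?_⟩
    · rw [h1]; positivity
    · rw [h2]; positivity
    · rw [h3]; positivity
  · rintro ⟨h1, h2, h3⟩
    exact ⟨norm_nz hq, ‖q‖⁻¹ * co (p a) (p b) (p c) q, ‖q‖⁻¹ * co (p b) (p c) (p a) q,
      ‖q‖⁻¹ * co (p c) (p a) (p b) q, by positivity, by positivity, by positivity,
      nz_rep (rep hD q)⟩

theorem closed_iff {a b c : V} (hD : Dt (p a) (p b) (p c) ≠ 0) {q : E3} (hq : q ≠ 0) :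
    nz q ∈ closedTriangle (p a) (p b) (p c) ↔ CC p a b c q := by
  have hn : 0 < ‖q‖ := norm_pos_iff.2 hq
  constructor
  · rintro ⟨-, r, s, t, hr, hs, ht, e⟩
    obtain ⟨h1, h2, h3⟩ := co_of_rep hD (rep_of_nz hq e)
    refine ⟨?_, ?_, ?_⟩
    · rw [h1]; positivity
    · rw [h2]; positivity
    · rw [h3]; positivity
  · rintro ⟨h1, h2, h3⟩
    exact ⟨norm_nz hq, ‖q‖⁻¹ * co (p a) (p b) (p c) q, ‖q‖⁻¹ * co (p b) (p c) (p a) q,
      ‖q‖⁻¹ * co (p c) (p a) (p b) q, by positivity, by positivity, by positivity,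
      nz_rep (rep hD q)⟩

theorem openTriangle_rot (x y z : E3) : openTriangle y z x = openTriangle x y z := by
  ext w
  constructor
  · rintro ⟨h, r, s, t, hr, hs, ht, e⟩
    exact ⟨h, t, r, s, ht, hr, hs, by rw [e]; abel⟩
  · rintro ⟨h, r, s, t, hr, hs, ht, e⟩
    exact ⟨h, s, t, r, hs, ht, hr, by rw [e]; abel⟩

theorem openTriangle_swap (x y z : E3) : openTriangle x z y = openTriangle x y z := by
  ext w
  constructor
  · rintro ⟨h, r, s, t, hr, hs, ht, e⟩
    exact ⟨h, r, t, s, hr, ht, hs, by rw [e]; abel⟩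
  · rintro ⟨h, r, s, t, hr, hs, ht, e⟩
    exact ⟨h, r, t, s, hr, ht, hs, by rw [e]; abel⟩

theorem closedTriangle_swap (x y z : E3) : closedTriangle x z y = closedTriangle x y z := by
  ext w
  constructor
  · rintro ⟨h, r, s, t, hr, hs, ht, e⟩
    exact ⟨h, r, t, s, hr, ht, hs, by rw [e]; abel⟩
  · rintro ⟨h, r, s, t, hr, hs, ht, e⟩
    exact ⟨h, r, t, s, hr, ht, hs, by rw [e]; abel⟩

/-- nonpolar faces, oriented -/
structure NF (G : SimpleGraph V) (p : V → E3) (a b c : V) : Prop where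
  ab : G.Adj a b
  bc : G.Adj b c
  ca : G.Adj c a
  pos : 0 < Dt (p a) (p b) (p c)
  face : ∀ x ∈ openTriangle (p a) (p b) (p c), comp G p x = openTriangle (p a) (p b) (p c)
  north : north ∉ openTriangle (p a) (p b) (p c)
  south : -Sink.north ∉ openTriangle (p a) (p b) (p c)

theorem NF.rot {a b c : V} (h : NF G p a b c) : NF G p b c a where
  ab := h.bc
  bc := h.ca
  ca := h.ab
  pos := by rw [Dt_rot]; exact h.pos
  face := by rw [openTriangle_rot]; exact h.face
  north := by rw [openTriangle_rot]; exact h.north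
  south := by rw [openTriangle_rot]; exact h.south

/-- the point `q` is over the component of the pole `σ • north` -/
def InX (G : SimpleGraph V) (p : V → E3) (σ : ℝ) (q : E3) : Prop :=
  q ≠ 0 ∧ nz q ∈ comp G p (σ • north)

theorem comp_sub {x : E3} : comp G p x ⊆ sphere \ drawing G p := connectedComponentIn_subset _ _

theorem InX.notD (emb : IsShortestPathEmbedding G p) {σ : ℝ} {q : E3} (h : InX G p σ q) :
    ¬ InD G p q := by
  rw [inD_iff emb h.1]
  exact (comp_sub h.2).2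

theorem comp_eq {x y : E3} (h : y ∈ comp G p x) : comp G p y = comp G p x :=
  (connectedComponentIn_eq h).symm

theorem mem_comp {x : E3} (h : x ∈ sphere \ drawing G p) : x ∈ comp G p x :=
  mem_connectedComponentIn h

/-- `q` lies on one of the three edge cones of the triple -/
def OnE (p : V → E3) (a b c : V) (q : E3) : Prop :=
  (∃ r s : ℝ, 0 ≤ r ∧ 0 ≤ s ∧ q = r • p a + s • p b) ∨
  (∃ r s : ℝ, 0 ≤ r ∧ 0 ≤ s ∧ q = r • p b + s • p c) ∨
  (∃ r s : ℝ, 0 ≤ r ∧ 0 ≤ s ∧ q = r • p c + s • p a)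

theorem onE_of {a b c : V} (hD : Dt (p a) (p b) (p c) ≠ 0) {q : E3} (h : CC p a b c q)
    (h' : ¬ OC p a b c q) : OnE p a b c q := by
  have e := rep hD q
  obtain ⟨h1, h2, h3⟩ := h
  rcases h1.lt_or_eq with k1 | k1
  · rcases h2.lt_or_eq with k2 | k2
    · rcases h3.lt_or_eq with k3 | k3
      · exact absurd ⟨k1, k2, k3⟩ h'
      · rw [← k3, zero_smul, add_zero] at e
        exact Or.inl ⟨_, _, h1, h2, e⟩
    · rw [← k2, zero_smul, add_zero, add_comm] at e
      exact Or.inr (Or.inr ⟨_, _, h3, h1, e⟩)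
  · rw [← k1, zero_smul, zero_add] at e
    exact Or.inr (Or.inl ⟨_, _, h2, h3, e⟩)

theorem cc_of_onE {a b c : V} (hD : Dt (p a) (p b) (p c) ≠ 0) {q : E3} (h : OnE p a b c q) :
    CC p a b c q ∧ (co (p a) (p b) (p c) q = 0 ∨ co (p b) (p c) (p a) q = 0 ∨
      co (p c) (p a) (p b) q = 0) := by
  rcases h with ⟨r, s, hr, hs, e⟩ | ⟨r, s, hr, hs, e⟩ | ⟨r, s, hr, hs, e⟩
  · obtain ⟨h1, h2, h3⟩ := co_of_rep (q := q) (r := r) (s := s) (t := 0) hD (by rw [e]; simp)
    exact ⟨⟨by rw [h1]; exact hr, by rw [h2]; exact hs, by rw [h3]⟩, Or.inr (Or.inr h3)⟩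
  · obtain ⟨h1, h2, h3⟩ := co_of_rep (q := q) (r := 0) (s := r) (t := s) hD (by rw [e]; simp)
    exact ⟨⟨by rw [h1], by rw [h2]; exact hr, by rw [h3]; exact hs⟩, Or.inl h1⟩
  · obtain ⟨h1, h2, h3⟩ := co_of_rep (q := q) (r := s) (s := 0) (t := r) hD
      (by rw [e, zero_smul, add_zero, add_comm])
    exact ⟨⟨by rw [h1]; exact hs, by rw [h2], by rw [h3]; exact hr⟩, Or.inr (Or.inl h2)⟩

theorem OnE.inD {a b c : V} (ab : G.Adj a b) (bc : G.Adj b c) (ca : G.Adj c a) {q : E3}
    (h : OnE p a b c q) : InD G p q := by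
  rcases h with ⟨r, s, hr, hs, e⟩ | ⟨r, s, hr, hs, e⟩ | ⟨r, s, hr, hs, e⟩
  · exact ⟨_, _, Or.inr ab, r, s, hr, hs, e⟩
  · exact ⟨_, _, Or.inr bc, r, s, hr, hs, e⟩
  · exact ⟨_, _, Or.inr ca, r, s, hr, hs, e⟩

theorem NF.not_inD (emb : IsShortestPathEmbedding G p) {a b c : V} (h : NF G p a b c) {q : E3}
    (hq : q ≠ 0) (ho : OC p a b c q) : ¬ InD G p q := by
  rw [inD_iff emb hq]
  have h1 := (open_iff h.pos.ne' hq).2 ho
  have h2 := h.face _ h1
  have h3 : nz q ∈ comp G p (nz q) := by rw [h2]; exact h1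
  exact (comp_sub h3).2

theorem NF.onE (emb : IsShortestPathEmbedding G p) {a b c : V} (h : NF G p a b c) {q : E3}
    (hq : q ≠ 0) (hc : CC p a b c q) (hd : InD G p q) : OnE p a b c q :=
  onE_of h.pos.ne' hc fun ho => h.not_inD emb hq ho hd

theorem onE_vertex (emb : IsShortestPathEmbedding G p) {a b c v : V} (ab : G.Adj a b)
    (bc : G.Adj b c) (ca : G.Adj c a) (h : OnE p a b c (p v)) : v = a ∨ v = b ∨ v = c := by
  have key : ∀ x y, G.Adj x y → ∀ r s : ℝ, 0 ≤ r → 0 ≤ s → p v = r • p x + s • p y →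
      v = x ∨ v = y := by
    intro x y hxy r s hr hs e
    apply emb.vertex_edge v x y hxy
    exact ⟨emb.unit v, r, s, hr, hs, e⟩
  rcases h with ⟨r, s, hr, hs, e⟩ | ⟨r, s, hr, hs, e⟩ | ⟨r, s, hr, hs, e⟩
  · rcases key _ _ ab r s hr hs e with h | h
    · exact Or.inl h
    · exact Or.inr (Or.inl h)
  · rcases key _ _ bc r s hr hs e with h | h
    · exact Or.inr (Or.inl h)
    · exact Or.inr (Or.inr h)
  · rcases key _ _ ca r s hr hs e with h | h
    · exact Or.inr (Or.inr h)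
    · exact Or.inl h

theorem ge_of_forall {x y : ℝ} (h : ∀ ε : ℝ, 0 < ε → 0 < x + ε * y) : 0 ≤ x := by
  by_contra hx
  push Not at hx
  rcases le_or_gt y 0 with hy | hy
  · have := h 1 one_pos
    linarith
  · have h1 := h (-x / y) (div_pos (by linarith) hy)
    rw [div_mul_cancel₀ _ hy.ne'] at h1
    linarith

theorem corner_mem (emb : IsShortestPathEmbedding G p) {a b c a' b' c' : V}
    (h : NF G p a b c) (h' : NF G p a' b' c') {q : E3} (hq : q ≠ 0) (ho : OC p a b c q)
    (ho' : OC p a' b' c' q) : a' = a ∨ a' = b ∨ a' = c := by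
  have h1 := h.face _ ((open_iff h.pos.ne' hq).2 ho)
  have h1' := h'.face _ ((open_iff h'.pos.ne' hq).2 ho')
  have hset : openTriangle (p a) (p b) (p c) = openTriangle (p a') (p b') (p c') := by
    rw [← h1, h1']
  have hiff : ∀ r : E3, r ≠ 0 → OC p a' b' c' r → OC p a b c r := by
    intro r hr h2
    rw [← open_iff h.pos.ne' hr, hset, open_iff h'.pos.ne' hr]
    exact h2
  have hcorner : ∀ ε : ℝ, 0 < ε → OC p a b c (p a' + ε • (p b' + p c')) := by
    intro ε hε
    have e : p a' + ε • (p b' + p c') = (1 : ℝ) • p a' + ε • p b' + ε • p c' := by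
      rw [smul_add, one_smul]; abel
    obtain ⟨k1, k2, k3⟩ := co_of_rep h'.pos.ne' e
    have hoc : OC p a' b' c' (p a' + ε • (p b' + p c')) :=
      ⟨by rw [k1]; exact one_pos, by rw [k2]; exact hε, by rw [k3]; exact hε⟩
    apply hiff _ _ hoc
    intro h0
    rw [h0] at k1
    have : co (p a') (p b') (p c') 0 = 0 := by
      have := co_smul (p a') (p b') (p c') 0 0
      simpa using this
    rw [this] at k1
    exact zero_ne_one k1
  have hcc : CC p a b c (p a') := by
    refine ⟨?_, ?_, ?_⟩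
    · apply ge_of_forall (y := co (p a) (p b) (p c) (p b' + p c'))
      intro ε hε
      have := (hcorner ε hε).1
      rwa [co_add, co_smul] at this
    · apply ge_of_forall (y := co (p b) (p c) (p a) (p b' + p c'))
      intro ε hε
      have := (hcorner ε hε).2.1
      rwa [co_add, co_smul] at this
    · apply ge_of_forall (y := co (p c) (p a) (p b) (p b' + p c'))
      intro ε hε
      have := (hcorner ε hε).2.2
      rwa [co_add, co_smul] at this
  have hd : InD G p (p a') := ⟨a', a', Or.inl rfl, 1, 0, zero_le_one, le_rfl, by simp⟩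
  exact onE_vertex emb h.ab h.bc h.ca (h.onE emb (p_ne_zero emb a') hcc hd)

/-- two nonpolar faces with a common point have the same corners -/
theorem same_corners (emb : IsShortestPathEmbedding G p) {a b c a' b' c' : V}
    (h : NF G p a b c) (h' : NF G p a' b' c') {q : E3} (hq : q ≠ 0) (ho : OC p a b c q)
    (ho' : OC p a' b' c' q) :
    (a' = a ∧ b' = b ∧ c' = c) ∨ (a' = b ∧ b' = c ∧ c' = a) ∨ (a' = c ∧ b' = a ∧ c' = b) := by
  have h1 := corner_mem emb h h' hq ho ho'
  have h2 := corner_mem emb h h'.rot hq ho ho'.rot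
  have h3 := corner_mem emb h h'.rot.rot hq ho ho'.rot.rot
  have n1 := h'.ab.ne
  have n2 := h'.bc.ne
  have n3 := h'.ca.ne
  have hp := h.pos
  have hp' := h'.pos
  have sw : ∀ x y z : E3, Dt x z y = -Dt x y z := Dt_swap
  have rt : ∀ x y z : E3, Dt y z x = Dt x y z := Dt_rot
  rcases h1 with rfl | rfl | rfl
  · rcases h2 with rfl | rfl | rfl
    · exact absurd rfl n1
    · rcases h3 with rfl | rfl | rfl
      · exact absurd rfl n3
      · exact absurd rfl n2
      · exact Or.inl ⟨rfl, rfl, rfl⟩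
    · rcases h3 with rfl | rfl | rfl
      · exact absurd rfl n3
      · rw [sw] at hp'; linarith
      · exact absurd rfl n2
  · rcases h2 with rfl | rfl | rfl
    · rcases h3 with rfl | rfl | rfl
      · exact absurd rfl n2
      · exact absurd rfl n3
      · rw [← rt, sw] at hp'; linarith
    · exact absurd rfl n1
    · rcases h3 with rfl | rfl | rfl
      · exact Or.inr (Or.inl ⟨rfl, rfl, rfl⟩)
      · exact absurd rfl n3
      · exact absurd rfl n2
  · rcases h2 with rfl | rfl | rfl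
    · rcases h3 with rfl | rfl | rfl
      · exact absurd rfl n2
      · exact Or.inr (Or.inr ⟨rfl, rfl, rfl⟩)
      · exact absurd rfl n3
    · rcases h3 with rfl | rfl | rfl
      · have e : Dt (p a') (p b') (p c') = -Dt (p c') (p b') (p a') := by unfold Dt S; ring
        rw [e] at hp'
        linarith
      · exact absurd rfl n2
      · exact absurd rfl n3
    · exact absurd rfl n1

theorem NF.not_inX (emb : IsShortestPathEmbedding G p) {a b c : V} (h : NF G p a b c) {σ : ℝ}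
    (hσ : σ = 1 ∨ σ = -1) (hmem : σ • Sink.north ∈ sphere \ drawing G p) {q : E3}
    (ho : OC p a b c q) (hx : InX G p σ q) : False := by
  have h1 := h.face _ ((open_iff h.pos.ne' hx.1).2 ho)
  have h2 := comp_eq hx.2
  have h3 : σ • Sink.north ∈ openTriangle (p a) (p b) (p c) := by
    rw [← h1, h2]
    exact mem_comp hmem
  rcases hσ with rfl | rfl
  · rw [one_smul] at h3; exact h.north h3
  · rw [neg_one_smul] at h3; exact h.south h3

end Pool.Agent.V11122.Sym
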