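import Pool.Agent.V11122.Sym.Faces

set_option autoImplicit false

/-! Vertical lines, polar faces, the face in a vertical direction from a point of the drawing. -/

namespace Pool.Agent.V11122.Sym

open Pool.Agent.V11122.Sink Filter Topology

variable {V : Type} {G : SimpleGraph V} {p : V → E3}

theorem horiz_eq {a b : E3} (hS : S a b ≠ 0) {r s r' s' : ℝ}
    (e0 : r * a 0 + s * b 0 = r' * a 0 + s' * b 0)
    (e1 : r * a 1 + s * b 1 = r' * a 1 + s' * b 1) : r = r' ∧ s = s' := by
  unfold S at hS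
  constructor
  · have : (r - r') * (a 0 * b 1 - a 1 * b 0) = 0 := by
      linear_combination (b 1) * e0 - (b 0) * e1
    have := (mul_eq_zero.1 this).resolve_right hS
    linarith
  · have : (s - s') * (a 0 * b 1 - a 1 * b 0) = 0 := by
      linear_combination (a 0) * e1 - (a 1) * e0
    have := (mul_eq_zero.1 this).resolve_right hS
    linarith

theorem vert (gen : IsGeneric p) {a b : V} {q q' : E3} (h0 : q 0 = q' 0) (h1 : q 1 = q' 1)
    (hq : q 0 ≠ 0 ∨ q 1 ≠ 0) {r s r' s' : ℝ}
    (e : q = r • p a + s • p b) (e' : q' = r' • p a + s' • p b) : q = q' := by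
  have c0 : r * p a 0 + s * p b 0 = r' * p a 0 + s' * p b 0 := by
    rw [e, e'] at h0; simpa using h0
  have c1 : r * p a 1 + s * p b 1 = r' * p a 1 + s' * p b 1 := by
    rw [e, e'] at h1; simpa using h1
  by_cases hab : a = b
  · subst hab
    have d0 : q 0 = (r + s) * p a 0 := by rw [e]; simp; ring
    have d1 : q 1 = (r + s) * p a 1 := by rw [e]; simp; ring
    have hrs : r + s = r' + s' := by
      rcases hq with h | h
      · rw [d0] at h
        have h2 := right_ne_zero_of_mul h
        apply mul_right_cancel₀ h2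
        linarith
      · rw [d1] at h
        have h2 := right_ne_zero_of_mul h
        apply mul_right_cancel₀ h2
        linarith
    rw [e, e', ← add_smul, ← add_smul, hrs]
  · obtain ⟨h2, h3⟩ := horiz_eq (S_ne gen hab) c0 c1
    rw [e, e', h2, h3]

theorem ev_subs {A : Set ℝ} (h : A.Subsingleton) : ∀ᶠ t in 𝓝[>] (0 : ℝ), t ∉ A := by
  by_cases h1 : ∃ t0 ∈ A, 0 < t0
  · obtain ⟨t0, ht0, hpos⟩ := h1
    filter_upwards [Ioo_mem_nhdsGT hpos] with t ht hA
    have := h hA ht0
    rw [this] at ht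
    exact lt_irrefl _ ht.2
  · push Not at h1
    filter_upwards [self_mem_nhdsWithin] with t ht hA
    exact absurd ht (not_lt.2 (h1 t hA))

theorem vadd0 (q : E3) (t : ℝ) : (q + t • north) 0 = q 0 := by simp [north0]
theorem vadd1 (q : E3) (t : ℝ) : (q + t • north) 1 = q 1 := by simp [north1]
theorem vadd2 (q : E3) (t : ℝ) : (q + t • north) 2 = q 2 + t := by simp [north2]

theorem eventually_off [Finite V] (gen : IsGeneric p) {q : E3} (hq : q 0 ≠ 0 ∨ q 1 ≠ 0) {σ : ℝ}
    (hσ : σ ≠ 0) : ∀ᶠ t in 𝓝[>] (0 : ℝ), ¬ InD G p (q + (t * σ) • north) := by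
  have key : ∀ ab : V × V, ∀ᶠ t in 𝓝[>] (0 : ℝ),
      t ∉ {t : ℝ | ∃ r s : ℝ, q + (t * σ) • north = r • p ab.1 + s • p ab.2} := by
    rintro ⟨a, b⟩
    apply ev_subs
    rintro t ⟨r, s, e⟩ t' ⟨r', s', e'⟩
    have := vert gen (by rw [vadd0, vadd0]) (by rw [vadd1, vadd1])
      (by rw [vadd0, vadd1]; exact hq) e e'
    have h2 := congrArg (fun y : E3 => y 2) this
    simp only [vadd2] at h2
    exact mul_right_cancel₀ hσ (by linarith)
  filter_upwards [eventually_all.2 key] with t ht
  rintro ⟨a, b, -, r, s, -, -, e⟩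
  exact ht (a, b) ⟨r, s, e⟩

theorem exists_pt [Finite V] (T : IsTriangulation G p) (gen : IsGeneric p) :
    ∃ a b c, G.Adj a b ∧ G.Adj b c ∧ G.Adj c a := by
  let q : E3 := !₂[(1 : ℝ), 0, 0]
  have hq : q 0 ≠ 0 ∨ q 1 ≠ 0 := by left; simp [q]
  obtain ⟨t, ht⟩ := (eventually_off (G := G) gen hq one_ne_zero).exists
  have hne : q + (t * 1) • north ≠ 0 := by
    intro h
    have := vadd0 q (t * 1)
    rw [h] at this
    simp [q] at this
  rw [inD_iff T.toIsShortestPathEmbedding hne] at ht
  obtain ⟨a, b, c, h1, h2, h3, -⟩ := T.face _ ⟨norm_nz hne, ht⟩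
  exact ⟨a, b, c, h1, h2, h3⟩

theorem hu [Finite V] (T : IsTriangulation G p) (gen : IsGeneric p) (v : V) :
    p v 0 ≠ 0 ∨ p v 1 ≠ 0 := by
  obtain ⟨a, b, c, hab, -, -⟩ := exists_pt T gen
  have : ∃ w, w ≠ v := by
    by_cases h : a = v
    · exact ⟨b, by rw [← h]; exact hab.ne'⟩
    · exact ⟨a, h⟩
  obtain ⟨w, hw⟩ := this
  have hS := S_ne gen hw
  by_contra hcon
  push Not at hcon
  apply hS
  unfold S
  rw [hcon.1, hcon.2]; ring

theorem horiz_ne [Finite V] (T : IsTriangulation G p) (gen : IsGeneric p) {q : E3}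
    (hd : InD G p q) (hq : q ≠ 0) : q 0 ≠ 0 ∨ q 1 ≠ 0 := by
  by_contra hcon
  push Not at hcon
  obtain ⟨h0, h1⟩ := hcon
  obtain ⟨a, b, hab, r, s, hr, hs, e⟩ := hd
  apply hq
  have d0 : r * p a 0 + s * p b 0 = 0 := by rw [e] at h0; simpa using h0
  have d1 : r * p a 1 + s * p b 1 = 0 := by rw [e] at h1; simpa using h1
  by_cases hab' : a = b
  · subst hab'
    have : r + s = 0 := by
      rcases hu T gen a with h | h
      · have : (r + s) * p a 0 = 0 := by linarith
        exact (mul_eq_zero.1 this).resolve_right h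
      · have : (r + s) * p a 1 = 0 := by linarith
        exact (mul_eq_zero.1 this).resolve_right h
    rw [e, ← add_smul, this, zero_smul]
  · obtain ⟨h2, h3⟩ := horiz_eq (r := r) (s := s) (r' := 0) (s' := 0) (S_ne gen hab')
      (by linarith) (by linarith)
    rw [e, h2, h3]; simp

theorem norm_north : ‖north‖ = 1 := by
  rw [EuclideanSpace.norm_eq, Fin.sum_univ_three, north0, north1, north2]
  simp

theorem pole_ne {σ : ℝ} (hσ : σ = 1 ∨ σ = -1) : σ • north ≠ 0 := by
  intro h
  have := congrArg (fun y : E3 => y 2) h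
  simp [north2] at this
  rcases hσ with h | h <;> rw [h] at this <;> norm_num at this

theorem pole_off [Finite V] (T : IsTriangulation G p) (gen : IsGeneric p) {σ : ℝ}
    (hσ : σ = 1 ∨ σ = -1) : σ • north ∈ sphere \ drawing G p := by
  have hn : ‖σ • north‖ = 1 := by
    rw [norm_smul, norm_north]
    rcases hσ with h | h <;> rw [h] <;> simp
  refine ⟨hn, ?_⟩
  have h1 : ¬ InD G p (σ • north) := by
    intro hd
    rcases horiz_ne T gen hd (pole_ne hσ) with h | h <;> apply h <;> simp [north0, north1]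
  rwa [inD_iff T.toIsShortestPathEmbedding (pole_ne hσ), nz_unit hn] at h1

/-- the polar face in direction `σ` -/
structure Pol (G : SimpleGraph V) (p : V → E3) (σ : ℝ) (a b c : V) : Prop where
  ab : G.Adj a b
  bc : G.Adj b c
  ca : G.Adj c a
  s1 : 0 < σ * S (p a) (p b)
  s2 : 0 < σ * S (p b) (p c)
  s3 : 0 < σ * S (p c) (p a)
  up : ∀ (q : E3) (t : ℝ), 0 ≤ t → InX G p σ q → InX G p σ (q + (t * σ) • north)
  bd : ∀ q : E3, InD G p q → (∃ᶠ t in 𝓝[>] (0 : ℝ), InX G p σ (q + (t * σ) • north)) →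
    OnE p a b c q
  upb : ∀ q : E3, OnE p a b c q → ∀ t : ℝ, 0 < t → InX G p σ (q + (t * σ) • north)

theorem co_zero (x y w : E3) : co x y w 0 = 0 := by
  have := co_smul x y w 0 0
  simpa using this

theorem not_oc_zero (a b c : V) : ¬ OC p a b c 0 := by
  intro h
  have := h.1
  rw [co_zero] at this
  exact lt_irrefl _ this

theorem cc_zero (a b c : V) : CC p a b c 0 :=
  ⟨by rw [co_zero], by rw [co_zero], by rw [co_zero]⟩

theorem frequently_pos_lim {x y : ℝ} (h : ∃ᶠ t in 𝓝[>] (0 : ℝ), 0 < x + t * y) : 0 ≤ x := by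
  by_contra hx
  push Not at hx
  apply h
  have hc : Tendsto (fun t : ℝ => x + t * y) (𝓝[>] 0) (𝓝 (x + 0 * y)) := by
    apply Tendsto.mono_left _ nhdsWithin_le_nhds
    exact (continuous_const.add (continuous_id.mul continuous_const)).tendsto 0
  have := hc.eventually (Iio_mem_nhds (show x + 0 * y < 0 by linarith))
  filter_upwards [this] with t ht
  exact not_lt.2 (le_of_lt ht)

theorem eventually_pos {x y : ℝ} (h : 0 < x) : ∀ᶠ t in 𝓝[>] (0 : ℝ), 0 < x + t * y := by
  have hc : Tendsto (fun t : ℝ => x + t * y) (𝓝[>] 0) (𝓝 (x + 0 * y)) := by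
    apply Tendsto.mono_left _ nhdsWithin_le_nhds
    exact (continuous_const.add (continuous_id.mul continuous_const)).tendsto 0
  exact hc.eventually (Ioi_mem_nhds (show 0 < x + 0 * y by linarith))

theorem co_up (a b c q : E3) (t σ : ℝ) :
    co a b c (q + (t * σ) • north) = co a b c q + t * (σ * S b c / Dt a b c) := by
  rw [co_vert]; ring

theorem pol_of (emb : IsShortestPathEmbedding G p) {σ : ℝ} {a b c : V} (ab : G.Adj a b)
    (bc : G.Adj b c) (ca : G.Adj c a)
    (s1 : 0 < σ * S (p a) (p b)) (s2 : 0 < σ * S (p b) (p c)) (s3 : 0 < σ * S (p c) (p a))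
    (hX : (0 < Dt (p a) (p b) (p c) ∧ ∀ q, InX G p σ q ↔ OC p a b c q) ∨
      (Dt (p a) (p b) (p c) < 0 ∧ ∀ q, InX G p σ q ↔ ¬ CC p a b c q)) : Pol G p σ a b c := by
  have r1 : Dt (p b) (p c) (p a) = Dt (p a) (p b) (p c) := Dt_rot _ _ _
  have r2 : Dt (p c) (p a) (p b) = Dt (p a) (p b) (p c) := by rw [← Dt_rot (p c)]
  have c1 : ∀ q t, co (p a) (p b) (p c) (q + (t * σ) • north) = co (p a) (p b) (p c) q +
      t * (σ * S (p b) (p c) / Dt (p a) (p b) (p c)) := fun q t => co_up _ _ _ _ _ _
  have c2 : ∀ q t, co (p b) (p c) (p a) (q + (t * σ) • north) = co (p b) (p c) (p a) q +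
      t * (σ * S (p c) (p a) / Dt (p a) (p b) (p c)) := fun q t => by rw [co_up, r1]
  have c3 : ∀ q t, co (p c) (p a) (p b) (q + (t * σ) • north) = co (p c) (p a) (p b) q +
      t * (σ * S (p a) (p b) / Dt (p a) (p b) (p c)) := fun q t => by rw [co_up, r2]
  rcases hX with ⟨hD, hX⟩ | ⟨hD, hX⟩
  · have k1 := div_pos s2 hD
    have k2 := div_pos s3 hD
    have k3 := div_pos s1 hD
    refine ⟨ab, bc, ca, s1, s2, s3, ?_, ?_, ?_⟩
    · intro q t ht h
      rw [hX] at h ⊢
      obtain ⟨h1, h2, h3⟩ := h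
      refine ⟨?_, ?_, ?_⟩
      · rw [c1]; have := mul_nonneg ht k1.le; linarith
      · rw [c2]; have := mul_nonneg ht k2.le; linarith
      · rw [c3]; have := mul_nonneg ht k3.le; linarith
    · intro q hd hf
      simp only [hX] at hf
      apply onE_of hD.ne'
      · refine ⟨?_, ?_, ?_⟩
        · apply frequently_pos_lim
          exact hf.mono fun t h => by have := h.1; rwa [c1] at this
        · apply frequently_pos_lim
          exact hf.mono fun t h => by have := h.2.1; rwa [c2] at this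
        · apply frequently_pos_lim
          exact hf.mono fun t h => by have := h.2.2; rwa [c3] at this
      · intro ho
        exact InX.notD emb ((hX q).2 ho) hd
    · intro q hE t ht
      rw [hX]
      obtain ⟨⟨h1, h2, h3⟩, -⟩ := cc_of_onE hD.ne' hE
      refine ⟨?_, ?_, ?_⟩
      · rw [c1]; have := mul_pos ht k1; linarith
      · rw [c2]; have := mul_pos ht k2; linarith
      · rw [c3]; have := mul_pos ht k3; linarith
  · have k1 := div_neg_of_pos_of_neg s2 hD
    have k2 := div_neg_of_pos_of_neg s3 hD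
    have k3 := div_neg_of_pos_of_neg s1 hD
    refine ⟨ab, bc, ca, s1, s2, s3, ?_, ?_, ?_⟩
    · intro q t ht h
      rw [hX] at h ⊢
      intro h'
      apply h
      obtain ⟨h1, h2, h3⟩ := h'
      rw [c1] at h1
      rw [c2] at h2
      rw [c3] at h3
      have m1 := mul_nonpos_of_nonneg_of_nonpos ht k1.le
      have m2 := mul_nonpos_of_nonneg_of_nonpos ht k2.le
      have m3 := mul_nonpos_of_nonneg_of_nonpos ht k3.le
      exact ⟨by linarith, by linarith, by linarith⟩
    · intro q hd hf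
      have hcc : CC p a b c q := by
        by_contra h
        exact InX.notD emb ((hX q).2 h) hd
      apply onE_of hD.ne hcc
      rintro ⟨h1, h2, h3⟩
      apply hf
      filter_upwards [eventually_pos (y := σ * S (p b) (p c) / Dt (p a) (p b) (p c)) h1,
        eventually_pos (y := σ * S (p c) (p a) / Dt (p a) (p b) (p c)) h2,
        eventually_pos (y := σ * S (p a) (p b) / Dt (p a) (p b) (p c)) h3] with t e1 e2 e3
      rw [hX, not_not]
      exact ⟨by rw [c1]; exact e1.le, by rw [c2]; exact e2.le, by rw [c3]; exact e3.le⟩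
    · intro q hE t ht
      rw [hX]
      rintro ⟨h1, h2, h3⟩
      rw [c1] at h1
      rw [c2] at h2
      rw [c3] at h3
      have m1 := mul_neg_of_pos_of_neg ht k1
      have m2 := mul_neg_of_pos_of_neg ht k2
      have m3 := mul_neg_of_pos_of_neg ht k3
      obtain ⟨-, h | h | h⟩ := cc_of_onE hD.ne hE
      · rw [h] at h1; linarith
      · rw [h] at h2; linarith
      · rw [h] at h3; linarith

theorem OC_swap {a b c : V} {q : E3} : OC p a c b q ↔ OC p a b c q := by
  have e1 : co (p a) (p c) (p b) q = co (p a) (p b) (p c) q := by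
    unfold co; rw [Dt_swap, Dt_swap (p a), neg_div_neg_eq]
  have e2 : co (p c) (p b) (p a) q = co (p c) (p a) (p b) q := by
    unfold co; rw [Dt_swap, Dt_swap (p c), neg_div_neg_eq]
  have e3 : co (p b) (p a) (p c) q = co (p b) (p c) (p a) q := by
    unfold co; rw [Dt_swap, Dt_swap (p b), neg_div_neg_eq]
  unfold OC
  rw [e1, e2, e3]
  tauto

theorem CC_swap {a b c : V} {q : E3} : CC p a c b q ↔ CC p a b c q := by
  have e1 : co (p a) (p c) (p b) q = co (p a) (p b) (p c) q := by
    unfold co; rw [Dt_swap, Dt_swap (p a), neg_div_neg_eq]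
  have e2 : co (p c) (p b) (p a) q = co (p c) (p a) (p b) q := by
    unfold co; rw [Dt_swap, Dt_swap (p c), neg_div_neg_eq]
  have e3 : co (p b) (p a) (p c) q = co (p b) (p c) (p a) q := by
    unfold co; rw [Dt_swap, Dt_swap (p b), neg_div_neg_eq]
  unfold CC
  rw [e1, e2, e3]
  tauto

theorem exists_pol [Finite V] (T : IsTriangulation G p) (gen : IsGeneric p) {σ : ℝ}
    (hσ : σ = 1 ∨ σ = -1) (hNS : (-σ) • north ∉ comp G p (σ • north)) :
    ∃ a b c, Pol G p σ a b c := by
  have emb := T.toIsShortestPathEmbedding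
  have hoff := pole_off T gen hσ
  have hne := pole_ne hσ
  have hσ' : -σ = 1 ∨ -σ = -1 := by
    rcases hσ with h | h
    · right; rw [h]
    · left; rw [h]; norm_num
  have hnz : nz (σ • north) = σ • north := nz_unit hoff.1
  have hnz' : nz ((-σ) • north) = (-σ) • north := nz_unit (pole_off T gen hσ').1
  obtain ⟨a, b, c, ab, bc, ca, h | h⟩ := T.face _ hoff
  · -- small face
    change comp G p (σ • north) = _ at h
    have hD := Dt_ne_zero gen ab.ne bc.ne ca.ne'
    have hX : ∀ q, InX G p σ q ↔ OC p a b c q := by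
      intro q
      by_cases hq : q = 0
      · subst hq
        exact ⟨fun h' => absurd rfl h'.1, fun h' => absurd h' (not_oc_zero a b c)⟩
      · rw [← open_iff hD hq, InX, h]
        exact ⟨fun h' => h'.2, fun h' => ⟨hq, h'⟩⟩
    have hoc : OC p a b c (σ • north) := (hX _).1 ⟨hne, by rw [hnz]; exact mem_comp hoff⟩
    have r1 : Dt (p b) (p c) (p a) = Dt (p a) (p b) (p c) := Dt_rot _ _ _
    have r2 : Dt (p c) (p a) (p b) = Dt (p a) (p b) (p c) := by rw [← Dt_rot (p c)]
    obtain ⟨o1, o2, o3⟩ := hoc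
    rw [co_smul, co_north] at o1 o2 o3
    rw [r1] at o2
    rw [r2] at o3
    rcases lt_or_gt_of_ne hD with hD' | hD'
    · -- swap
      refine ⟨a, c, b, pol_of emb ca.symm bc.symm ab.symm ?_ ?_ ?_ (Or.inl ⟨?_, ?_⟩)⟩
      · rw [S_anti]
        have := mul_neg_of_pos_of_neg o2 hD'
        rw [mul_assoc, div_mul_cancel₀ _ hD] at this
        linarith
      · rw [S_anti]
        have := mul_neg_of_pos_of_neg o1 hD'
        rw [mul_assoc, div_mul_cancel₀ _ hD] at this
        linarith
      · rw [S_anti]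
        have := mul_neg_of_pos_of_neg o3 hD'
        rw [mul_assoc, div_mul_cancel₀ _ hD] at this
        linarith
      · rw [Dt_swap]; linarith
      · intro q; rw [OC_swap]; exact hX q
    · refine ⟨a, b, c, pol_of emb ab bc ca ?_ ?_ ?_ (Or.inl ⟨hD', hX⟩)⟩
      · have := mul_pos o3 hD'
        rwa [mul_assoc, div_mul_cancel₀ _ hD] at this
      · have := mul_pos o1 hD'
        rwa [mul_assoc, div_mul_cancel₀ _ hD] at this
      · have := mul_pos o2 hD'
        rwa [mul_assoc, div_mul_cancel₀ _ hD] at this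
  · -- big face
    change comp G p (σ • north) = _ at h
    have hD := Dt_ne_zero gen ab.ne bc.ne ca.ne'
    have hX : ∀ q, InX G p σ q ↔ ¬ CC p a b c q := by
      intro q
      by_cases hq : q = 0
      · subst hq
        exact ⟨fun h' => absurd rfl h'.1, fun h' => absurd (cc_zero a b c) h'⟩
      · rw [← closed_iff hD hq, InX, h]
        exact ⟨fun h' => h'.2.2, fun h' => ⟨hq, norm_nz hq, h'⟩⟩
    have hcc : CC p a b c ((-σ) • north) := by
      by_contra hcon
      have := (hX _).2 hcon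
      apply hNS
      rw [← hnz']
      exact this.2
    have r1 : Dt (p b) (p c) (p a) = Dt (p a) (p b) (p c) := Dt_rot _ _ _
    have r2 : Dt (p c) (p a) (p b) = Dt (p a) (p b) (p c) := by rw [← Dt_rot (p c)]
    obtain ⟨o1, o2, o3⟩ := hcc
    rw [co_smul, co_north] at o1 o2 o3
    rw [r1] at o2
    rw [r2] at o3
    have hσ0 : -σ ≠ 0 := by rcases hσ with h | h <;> rw [h] <;> norm_num
    have o1 := lt_of_le_of_ne o1 (mul_ne_zero hσ0 (div_ne_zero (S_ne gen bc.ne) hD)).symm
    have o2 := lt_of_le_of_ne o2 (mul_ne_zero hσ0 (div_ne_zero (S_ne gen ca.ne) hD)).symm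
    have o3 := lt_of_le_of_ne o3 (mul_ne_zero hσ0 (div_ne_zero (S_ne gen ab.ne) hD)).symm
    rcases lt_or_gt_of_ne hD with hD' | hD'
    · refine ⟨a, b, c, pol_of emb ab bc ca ?_ ?_ ?_ (Or.inr ⟨hD', hX⟩)⟩
      · have := mul_neg_of_pos_of_neg o3 hD'
        rw [mul_assoc, div_mul_cancel₀ _ hD] at this
        linarith
      · have := mul_neg_of_pos_of_neg o1 hD'
        rw [mul_assoc, div_mul_cancel₀ _ hD] at this
        linarith
      · have := mul_neg_of_pos_of_neg o2 hD'
        rw [mul_assoc, div_mul_cancel₀ _ hD] at this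
        linarith
    · refine ⟨a, c, b, pol_of emb ca.symm bc.symm ab.symm ?_ ?_ ?_ (Or.inr ⟨?_, ?_⟩)⟩
      · rw [S_anti]
        have := mul_pos o2 hD'
        rw [mul_assoc, div_mul_cancel₀ _ hD] at this
        linarith
      · rw [S_anti]
        have := mul_pos o1 hD'
        rw [mul_assoc, div_mul_cancel₀ _ hD] at this
        linarith
      · rw [S_anti]
        have := mul_pos o3 hD'
        rw [mul_assoc, div_mul_cancel₀ _ hD] at this
        linarith
      · rw [Dt_swap]; linarith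
      · intro q; rw [CC_swap]; exact hX q

theorem cov [Finite V] (T : IsTriangulation G p) (gen : IsGeneric p) {q : E3} (hq : q ≠ 0)
    (hd : ¬ InD G p q) :
    InX G p 1 q ∨ InX G p (-1) q ∨ ∃ a b c, NF G p a b c ∧ OC p a b c q := by
  have emb := T.toIsShortestPathEmbedding
  rw [inD_iff emb hq] at hd
  have hx : nz q ∈ sphere \ drawing G p := ⟨norm_nz hq, hd⟩
  have key : ∀ σ : ℝ, (σ = 1 ∨ σ = -1) → σ • north ∈ comp G p (nz q) → InX G p σ q := by
    intro σ hσ h
    refine ⟨hq, ?_⟩
    rw [comp_eq h]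
    exact mem_comp hx
  obtain ⟨a, b, c, ab, bc, ca, h | h⟩ := T.face _ hx
  · change comp G p (nz q) = _ at h
    have hD := Dt_ne_zero gen ab.ne bc.ne ca.ne'
    by_cases hN : (1 : ℝ) • north ∈ openTriangle (p a) (p b) (p c)
    · exact Or.inl (key 1 (Or.inl rfl) (by rw [h]; exact hN))
    by_cases hS : (-1 : ℝ) • north ∈ openTriangle (p a) (p b) (p c)
    · exact Or.inr (Or.inl (key (-1) (Or.inr rfl) (by rw [h]; exact hS)))
    right; right
    rw [one_smul] at hN
    rw [neg_one_smul] at hS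
    have hface : ∀ x ∈ openTriangle (p a) (p b) (p c),
        comp G p x = openTriangle (p a) (p b) (p c) := by
      intro x hx'
      rw [← h] at hx' ⊢
      exact comp_eq hx'
    have hoc : OC p a b c q := by
      rw [← open_iff hD hq, ← h]; exact mem_comp hx
    rcases lt_or_gt_of_ne hD with hD' | hD'
    · refine ⟨a, c, b, ⟨ca.symm, bc.symm, ab.symm, ?_, ?_, ?_, ?_⟩, OC_swap.2 hoc⟩
      · rw [Dt_swap]; linarith
      · rw [openTriangle_swap]; exact hface
      · rw [openTriangle_swap]; exact hN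
      · rw [openTriangle_swap]; exact hS
    · exact ⟨a, b, c, ⟨ab, bc, ca, hD', hface, hN, hS⟩, hoc⟩
  · change comp G p (nz q) = _ at h
    have hD := Dt_ne_zero gen ab.ne bc.ne ca.ne'
    have hn1 := pole_off T gen (σ := 1) (Or.inl rfl)
    have hn2 := pole_off T gen (σ := -1) (Or.inr rfl)
    by_cases hN : (1 : ℝ) • north ∈ closedTriangle (p a) (p b) (p c)
    · by_cases hS : (-1 : ℝ) • north ∈ closedTriangle (p a) (p b) (p c)
      · exfalso
        rw [← nz_unit hn1.1, closed_iff hD (pole_ne (Or.inl rfl))] at hN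
        rw [← nz_unit hn2.1, closed_iff hD (pole_ne (Or.inr rfl))] at hS
        have h1 := hN.1
        have h2 := hS.1
        rw [co_smul, co_north] at h1 h2
        have h3 : S (p b) (p c) / Dt (p a) (p b) (p c) = 0 := by linarith
        exact div_ne_zero (S_ne gen bc.ne) hD h3
      · exact Or.inr (Or.inl (key (-1) (Or.inr rfl) (by rw [h]; exact ⟨hn2.1, hS⟩)))
    · exact Or.inl (key 1 (Or.inl rfl) (by rw [h]; exact ⟨hn1.1, hN⟩))

end Pool.Agent.V11122.Sym
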