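import Pool.Agent.V11122.Sym.Local

set_option autoImplicit false

/-! The face in a vertical direction; monotonicity along vertical lines; the local-to-global
principle. -/

namespace Pool.Agent.V11122.Sym

open Pool.Agent.V11122.Sink Filter Topology

variable {V : Type} {G : SimpleGraph V} {p : V → E3}

/-- covering lemma -/
theorem covering {ι : Type} (T : Finset ι) (C : ι → Set ℝ) (φ : ℝ → ℝ) (m : ℝ)
    (hcl : ∀ i ∈ T, IsClosed (C i)) (hcv : ∀ i ∈ T, (C i).OrdConnected)
    (hφ : ∀ i ∈ T, ∀ x ∈ C i, ∀ y ∈ C i, x ≤ y → m * (y - x) ≤ φ y - φ x) :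
    ∀ x y : ℝ, x ≤ y → Set.Icc x y ⊆ ⋃ i ∈ T, C i → m * (y - x) ≤ φ y - φ x := by
  classical
  induction T using Finset.induction_on with
  | empty =>
    intro x y hxy h
    have := h ⟨le_rfl, hxy⟩
    simp at this
  | insert i T hi ih =>
    intro x y hxy h
    have ih' := ih (fun j hj => hcl j (Finset.mem_insert_of_mem hj))
      (fun j hj => hcv j (Finset.mem_insert_of_mem hj))
      (fun j hj => hφ j (Finset.mem_insert_of_mem hj))
    have hiT := Finset.mem_insert_self i T
    have hclT : IsClosed (⋃ j ∈ T, C j) := by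
      apply Set.Finite.isClosed_biUnion T.finite_toSet
      intro j hj
      exact hcl j (Finset.mem_insert_of_mem hj)
    by_cases hne : (C i ∩ Set.Icc x y).Nonempty
    · have hcomp : IsCompact (C i ∩ Set.Icc x y) := isCompact_Icc.inter_left (hcl i hiT)
      obtain ⟨s1, hs1, hmin⟩ := hcomp.exists_isMinOn hne continuousOn_id
      obtain ⟨s2, hs2, hmax⟩ := hcomp.exists_isMaxOn hne continuousOn_id
      have h12 : s1 ≤ s2 := hmin hs2
      have hA : m * (s1 - x) ≤ φ s1 - φ x := by
        rcases hs1.2.1.lt_or_eq with hlt | heq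
        · apply ih' x s1 hs1.2.1
          have hsub : Set.Ico x s1 ⊆ ⋃ j ∈ T, C j := by
            intro z hz
            have h1 := h ⟨hz.1, hz.2.le.trans hs1.2.2⟩
            simp only [Set.mem_iUnion, Finset.mem_insert, exists_prop] at h1
            obtain ⟨j, rfl | hj, hzj⟩ := h1
            · exfalso
              have := hmin ⟨hzj, hz.1, hz.2.le.trans hs1.2.2⟩
              exact absurd hz.2 (not_lt.2 this)
            · simp only [Set.mem_iUnion, exists_prop]
              exact ⟨j, hj, hzj⟩
          have := closure_mono hsub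
          rw [closure_Ico hlt.ne, hclT.closure_eq] at this
          exact this
        · rw [← heq]; simp
      have hB : m * (s2 - s1) ≤ φ s2 - φ s1 := hφ i hiT s1 hs1.1 s2 hs2.1 h12
      have hC : m * (y - s2) ≤ φ y - φ s2 := by
        rcases hs2.2.2.lt_or_eq with hlt | heq
        · apply ih' s2 y hs2.2.2
          have hsub : Set.Ioc s2 y ⊆ ⋃ j ∈ T, C j := by
            intro z hz
            have h1 := h ⟨hs2.2.1.trans hz.1.le, hz.2⟩
            simp only [Set.mem_iUnion, Finset.mem_insert, exists_prop] at h1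
            obtain ⟨j, rfl | hj, hzj⟩ := h1
            · exfalso
              have := hmax ⟨hzj, hs2.2.1.trans hz.1.le, hz.2⟩
              exact absurd hz.1 (not_lt.2 this)
            · simp only [Set.mem_iUnion, exists_prop]
              exact ⟨j, hj, hzj⟩
          have := closure_mono hsub
          rw [closure_Ioc hlt.ne, hclT.closure_eq] at this
          exact this
        · rw [heq]; simp
      linarith
    · apply ih' x y hxy
      intro z hz
      have h1 := h hz
      simp only [Set.mem_iUnion, Finset.mem_insert, exists_prop] at h1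
      obtain ⟨j, rfl | hj, hzj⟩ := h1
      · exact absurd ⟨z, hzj, hz⟩ hne
      · simp only [Set.mem_iUnion, exists_prop]
        exact ⟨j, hj, hzj⟩

/-- the standing situation: a generic triangulation whose poles lie in different faces -/
structure Sit (G : SimpleGraph V) (p : V → E3) : Prop where
  T : IsTriangulation G p
  gen : IsGeneric p
  ns : (-1 : ℝ) • north ∉ comp G p ((1 : ℝ) • north)

theorem Sit.sn [Finite V] (H : Sit G p) : (1 : ℝ) • north ∉ comp G p ((-1 : ℝ) • north) := by
  intro h
  apply H.ns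
  rw [comp_eq h]
  exact mem_comp (pole_off H.T H.gen (Or.inr rfl))

theorem Sit.pol [Finite V] (H : Sit G p) {σ : ℝ} (hσ : σ = 1 ∨ σ = -1) :
    ∃ a b c, Pol G p σ a b c := by
  apply exists_pol H.T H.gen hσ
  rcases hσ with rfl | rfl
  · exact H.ns
  · rw [neg_neg]; exact H.sn

/-- existence of a face in direction `σ` -/
theorem exists_dir [Finite V] (H : Sit G p) {σ : ℝ} (hσ : σ = 1 ∨ σ = -1) {a b c : V}
    (hP : Pol G p σ a b c) {q : E3} (hq : q ≠ 0) (hd : InD G p q) :
    OnE p a b c q ∨ ∃ a' b' c', NF G p a' b' c' ∧ CC p a' b' c' q ∧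
      ∃ᶠ t in 𝓝[>] (0 : ℝ), OC p a' b' c' (q + (t * σ) • north) := by
  classical
  have emb := H.T.toIsShortestPathEmbedding
  have hu := horiz_ne H.T H.gen hd hq
  have hσ0 : σ ≠ 0 := by rcases hσ with h | h <;> rw [h] <;> norm_num
  have hoff := eventually_off (G := G) H.gen hu hσ0
  have hσ' : -σ = 1 ∨ -σ = -1 := by
    rcases hσ with h | h
    · right; rw [h]
    · left; rw [h]; norm_num
  obtain ⟨a2, b2, c2, hP2⟩ := H.pol hσ'
  -- the opposite pole is excluded
  have hexcl : ∀ t : ℝ, 0 < t → ¬ InX G p (-σ) (q + (t * σ) • north) := by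
    intro t ht hx
    have := hP2.up _ t ht.le hx
    have e : q + (t * σ) • north + (t * -σ) • north = q := by
      rw [add_assoc, ← add_smul]; simp
    rw [e] at this
    exact this.notD emb hd
  have hcov : ∀ᶠ t in 𝓝[>] (0 : ℝ), InX G p σ (q + (t * σ) • north) ∨
      ∃ x : V × V × V, NF G p x.1 x.2.1 x.2.2 ∧ OC p x.1 x.2.1 x.2.2 (q + (t * σ) • north) := by
    filter_upwards [hoff, self_mem_nhdsWithin] with t ht htpos
    have hne : q + (t * σ) • north ≠ 0 := by
      intro h
      rcases hu with h' | h'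
      · apply h'
        rw [← vadd0 q (t * σ), h]; rfl
      · apply h'
        rw [← vadd1 q (t * σ), h]; rfl
    have hex := hexcl t htpos
    rcases cov H.T H.gen hne ht with h | h | ⟨a', b', c', h, ho⟩
    · rcases hσ with rfl | rfl
      · exact Or.inl h
      · rw [neg_neg] at hex; exact absurd h hex
    · rcases hσ with rfl | rfl
      · exact absurd h hex
      · exact Or.inl h
    · exact Or.inr ⟨(a', b', c'), h, ho⟩
  by_cases hfr : ∃ᶠ t in 𝓝[>] (0 : ℝ), InX G p σ (q + (t * σ) • north)
  · exact Or.inl (hP.bd q hd hfr)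
  right
  rw [not_frequently] at hfr
  by_contra hcon
  push Not at hcon
  have hall : ∀ x : V × V × V, ∀ᶠ t in 𝓝[>] (0 : ℝ),
      ¬ (NF G p x.1 x.2.1 x.2.2 ∧ OC p x.1 x.2.1 x.2.2 (q + (t * σ) • north)) := by
    rintro ⟨a', b', c'⟩
    by_cases hN : NF G p a' b' c'
    · by_cases hC : CC p a' b' c' q
      · have := hcon a' b' c' hN hC
        filter_upwards [this] with t ht
        exact fun h => ht h.2
      · have : ¬ ∃ᶠ t in 𝓝[>] (0 : ℝ), OC p a' b' c' (q + (t * σ) • north) := by
          intro hf
          apply hC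
          refine ⟨?_, ?_, ?_⟩
          · apply frequently_pos_lim (y := σ * S (p b') (p c') / Dt (p a') (p b') (p c'))
            exact hf.mono fun t h => by have := h.1; rwa [co_up] at this
          · apply frequently_pos_lim (y := σ * S (p c') (p a') / Dt (p b') (p c') (p a'))
            exact hf.mono fun t h => by have := h.2.1; rwa [co_up] at this
          · apply frequently_pos_lim (y := σ * S (p a') (p b') / Dt (p c') (p a') (p b'))
            exact hf.mono fun t h => by have := h.2.2; rwa [co_up] at this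
        rw [not_frequently] at this
        filter_upwards [this] with t ht
        exact fun h => ht h.2
    · exact Eventually.of_forall fun t h => hN h.1
  have hall' := eventually_all.2 hall
  obtain ⟨t, h1, h2, h3⟩ := (hcov.and (hfr.and hall')).exists
  rcases h1 with h1 | ⟨x, h1⟩
  · exact h2 h1
  · exact h3 x h1

/-- value of the linear extension over a face -/
noncomputable def Lf (p : V → E3) (g : V → ℝ) (a b c : V) (q : E3) : ℝ :=
  co (p a) (p b) (p c) q * g a + co (p b) (p c) (p a) q * g b + co (p c) (p a) (p b) q * g c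

/-- oriented determinant with heights `g` -/
def DD (p : V → E3) (g : V → ℝ) (a b c : V) : ℝ :=
  g a * S (p b) (p c) + g b * S (p c) (p a) + g c * S (p a) (p b)

theorem Lf_vert (g : V → ℝ) (a b c : V) (q : E3) (t : ℝ) :
    Lf p g a b c (q + t • north) = Lf p g a b c q +
      t * (DD p g a b c / Dt (p a) (p b) (p c)) := by
  have r1 : Dt (p b) (p c) (p a) = Dt (p a) (p b) (p c) := Dt_rot _ _ _
  have r2 : Dt (p c) (p a) (p b) = Dt (p a) (p b) (p c) := by rw [← Dt_rot (p c)]
  unfold Lf DD
  rw [co_vert, co_vert, co_vert, r1, r2]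
  ring

theorem OnE.ev {a b c : V} (ab : G.Adj a b) (bc : G.Adj b c) (ca : G.Adj c a)
    (hD : Dt (p a) (p b) (p c) ≠ 0) {q : E3} (h : OnE p a b c q) (g : V → ℝ) :
    EV G p g q (Lf p g a b c q) := by
  rcases h with ⟨r, s, hr, hs, e⟩ | ⟨r, s, hr, hs, e⟩ | ⟨r, s, hr, hs, e⟩
  · obtain ⟨h1, h2, h3⟩ := co_of_rep (q := q) (r := r) (s := s) (t := 0) hD (by rw [e]; simp)
    exact ⟨_, _, Or.inr ab, r, s, hr, hs, e, by rw [Lf, h1, h2, h3]; ring⟩
  · obtain ⟨h1, h2, h3⟩ := co_of_rep (q := q) (r := 0) (s := r) (t := s) hD (by rw [e]; simp)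
    exact ⟨_, _, Or.inr bc, r, s, hr, hs, e, by rw [Lf, h1, h2, h3]; ring⟩
  · obtain ⟨h1, h2, h3⟩ := co_of_rep (q := q) (r := s) (s := 0) (t := r) hD
      (by rw [e, zero_smul, add_zero, add_comm])
    exact ⟨_, _, Or.inr ca, r, s, hr, hs, e, by rw [Lf, h1, h2, h3]; ring⟩

theorem Lf_rot (g : V → ℝ) (a b c : V) (q : E3) : Lf p g b c a q = Lf p g a b c q := by
  unfold Lf; ring

/-- the values of two nonpolar faces at a common point agree -/
theorem val_agree (emb : IsShortestPathEmbedding G p) (gen : IsGeneric p) {a b c a' b' c' : V}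
    (h : NF G p a b c) (h' : NF G p a' b' c') {q : E3} (hq : q ≠ 0) (hc : CC p a b c q)
    (hc' : CC p a' b' c' q) (g : V → ℝ) : Lf p g a b c q = Lf p g a' b' c' q := by
  by_cases hd : InD G p q
  · exact ev_unique emb gen hq ((h.onE emb hq hc hd).ev h.ab h.bc h.ca h.pos.ne' g)
      ((h'.onE emb hq hc' hd).ev h'.ab h'.bc h'.ca h'.pos.ne' g)
  · have ho : OC p a b c q := by
      by_contra hcon
      exact hd ((onE_of h.pos.ne' hc hcon).inD h.ab h.bc h.ca)
    have ho' : OC p a' b' c' q := by
      by_contra hcon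
      exact hd ((onE_of h'.pos.ne' hc' hcon).inD h'.ab h'.bc h'.ca)
    rcases same_corners emb h h' hq ho ho' with ⟨e1, e2, e3⟩ | ⟨e1, e2, e3⟩ | ⟨e1, e2, e3⟩
    · rw [e1, e2, e3]
    · rw [e1, e2, e3]; exact (Lf_rot g a b c q).symm
    · rw [e1, e2, e3]; exact Lf_rot g c a b q

theorem ne_zero_of_horiz {q : E3} (h : q 0 ≠ 0 ∨ q 1 ≠ 0) : q ≠ 0 := by
  rintro rfl
  rcases h with h | h <;> exact h rfl

/-- slopes bounded below give growth along vertical lines -/
theorem growth [Finite V] (H : Sit G p) (g : V → ℝ) (m : ℝ)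
    (hm : ∀ a b c, NF G p a b c → m ≤ DD p g a b c / Dt (p a) (p b) (p c))
    {q : E3} {t : ℝ} (ht : 0 < t) (h0 : q ≠ 0) (hd : InD G p q) (hd' : InD G p (q + t • north))
    {w w' : ℝ} (hw : EV G p g q w) (hw' : EV G p g (q + t • north) w') :
    m * t ≤ w' - w := by
  classical
  have emb := H.T.toIsShortestPathEmbedding
  have hu := horiz_ne H.T H.gen hd h0
  obtain ⟨a1, b1, c1, P1⟩ := H.pol (σ := 1) (Or.inl rfl)
  obtain ⟨a2, b2, c2, P2⟩ := H.pol (σ := -1) (Or.inr rfl)
  have hne : ∀ x : ℝ, q + x • north ≠ 0 := by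
    intro x
    apply ne_zero_of_horiz
    rw [vadd0, vadd1]; exact hu
  let C : V × V × V → Set ℝ := fun x => {z | CC p x.1 x.2.1 x.2.2 (q + z • north)}
  haveI : Fintype V := Fintype.ofFinite V
  let TT : Finset (V × V × V) := Finset.univ.filter fun x => NF G p x.1 x.2.1 x.2.2
  have hTT : ∀ x, x ∈ TT ↔ NF G p x.1 x.2.1 x.2.2 := by intro x; simp [TT]
  -- the cover
  have hcover : Set.Icc 0 t ⊆ ⋃ x ∈ TT, C x := by
    intro z hz
    simp only [Set.mem_iUnion, exists_prop]
    have key : ∃ a b c, NF G p a b c ∧ CC p a b c (q + z • north) := by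
      by_cases hD : InD G p (q + z • north)
      · rcases hz.2.lt_or_eq with hlt | heq
        · rcases exists_dir H (Or.inl rfl) P1 (hne z) hD with h | ⟨a, b, c, h1, h2, -⟩
          · exfalso
            have := P1.upb _ h (t - z) (by linarith)
            have e : q + z • north + ((t - z) * 1) • north = q + t • north := by
              rw [add_assoc, ← add_smul]; congr 2; ring
            rw [e] at this
            exact this.notD emb hd'
          · exact ⟨a, b, c, h1, h2⟩
        · rcases exists_dir H (Or.inr rfl) P2 (hne z) hD with h | ⟨a, b, c, h1, h2, -⟩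
          · exfalso
            have := P2.upb _ h t ht
            have e : q + z • north + (t * -1) • north = q := by
              rw [add_assoc, ← add_smul, heq]; simp
            rw [e] at this
            exact this.notD emb hd
          · exact ⟨a, b, c, h1, h2⟩
      · rcases cov H.T H.gen (hne z) hD with h | h | ⟨a, b, c, h1, h2⟩
        · exfalso
          have := P1.up _ (t - z) (by linarith [hz.2]) h
          have e : q + z • north + ((t - z) * 1) • north = q + t • north := by
            rw [add_assoc, ← add_smul]; congr 2; ring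
          rw [e] at this
          exact this.notD emb hd'
        · exfalso
          have := P2.up _ z hz.1 h
          have e : q + z • north + (z * -1) • north = q := by
            rw [add_assoc, ← add_smul]; simp
          rw [e] at this
          exact this.notD emb hd
        · exact ⟨a, b, c, h1, h2.cc⟩
    obtain ⟨a, b, c, h1, h2⟩ := key
    exact ⟨(a, b, c), (hTT _).2 h1, h2⟩
  -- the function
  let φ : ℝ → ℝ := fun z =>
    if h : ∃ x : V × V × V, NF G p x.1 x.2.1 x.2.2 ∧ CC p x.1 x.2.1 x.2.2 (q + z • north) then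
      Lf p g h.choose.1 h.choose.2.1 h.choose.2.2 (q + z • north) else 0
  have hφ : ∀ z (x : V × V × V), NF G p x.1 x.2.1 x.2.2 →
      CC p x.1 x.2.1 x.2.2 (q + z • north) → φ z = Lf p g x.1 x.2.1 x.2.2 (q + z • north) := by
    intro z x h1 h2
    have hex : ∃ x : V × V × V, NF G p x.1 x.2.1 x.2.2 ∧
        CC p x.1 x.2.1 x.2.2 (q + z • north) := ⟨x, h1, h2⟩
    change dite _ _ _ = _
    rw [dif_pos hex]
    exact val_agree emb H.gen hex.choose_spec.1 h1 (hne z) hex.choose_spec.2 h2 g
  have hcoC : ∀ a b c : V, ∀ z : ℝ, CC p a b c (q + z • north) ↔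
      (0 ≤ co (p a) (p b) (p c) q + z * (S (p b) (p c) / Dt (p a) (p b) (p c)) ∧
       0 ≤ co (p b) (p c) (p a) q + z * (S (p c) (p a) / Dt (p b) (p c) (p a)) ∧
       0 ≤ co (p c) (p a) (p b) q + z * (S (p a) (p b) / Dt (p c) (p a) (p b))) := by
    intro a b c z
    unfold CC
    rw [co_vert, co_vert, co_vert]
  have hmain := covering TT C φ m (by
      rintro ⟨a, b, c⟩ -
      have : C (a, b, c) = {z : ℝ | 0 ≤ co (p a) (p b) (p c) q +
            z * (S (p b) (p c) / Dt (p a) (p b) (p c))} ∩
          ({z : ℝ | 0 ≤ co (p b) (p c) (p a) q + z * (S (p c) (p a) / Dt (p b) (p c) (p a))} ∩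
          {z : ℝ | 0 ≤ co (p c) (p a) (p b) q +
            z * (S (p a) (p b) / Dt (p c) (p a) (p b))}) := by
        ext z
        exact hcoC a b c z
      rw [this]
      apply IsClosed.inter (isClosed_le continuous_const (by fun_prop))
      exact IsClosed.inter (isClosed_le continuous_const (by fun_prop))
        (isClosed_le continuous_const (by fun_prop))) (by
      rintro ⟨a, b, c⟩ -
      constructor
      intro x hx y hy z hz
      change CC p a b c (q + x • north) at hx
      change CC p a b c (q + y • north) at hy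
      change CC p a b c (q + z • north)
      rw [hcoC] at hx hy ⊢
      have aff : ∀ A B : ℝ, 0 ≤ A + x * B → 0 ≤ A + y * B → 0 ≤ A + z * B := by
        intro A B h1 h2
        rcases le_total 0 B with hB | hB
        · have := mul_le_mul_of_nonneg_right hz.1 hB; linarith
        · have := mul_le_mul_of_nonpos_right hz.2 hB; linarith
      exact ⟨aff _ _ hx.1 hy.1, aff _ _ hx.2.1 hy.2.1, aff _ _ hx.2.2 hy.2.2⟩) (by
      rintro ⟨a, b, c⟩ hx x h1 y h2 hxy
      have hN : NF G p a b c := (hTT _).1 hx
      rw [hφ x (a, b, c) hN h1, hφ y (a, b, c) hN h2]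
      simp only
      rw [Lf_vert, Lf_vert]
      have := hm a b c hN
      have h3 := mul_le_mul_of_nonneg_right this (sub_nonneg.2 hxy)
      linarith) 0 t ht.le hcover
  -- values at the ends
  have hend : ∀ z ∈ Set.Icc (0 : ℝ) t, ∀ w, EV G p g (q + z • north) w → φ z = w := by
    intro z hz w hw
    have := hcover hz
    simp only [Set.mem_iUnion, exists_prop] at this
    obtain ⟨⟨a, b, c⟩, h1, h2⟩ := this
    have hN : NF G p a b c := (hTT _).1 h1
    rw [hφ z (a, b, c) hN h2]
    exact ev_unique emb H.gen (hne z)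
      ((hN.onE emb (hne z) h2 hw.inD).ev hN.ab hN.bc hN.ca hN.pos.ne' g) hw
  have e1 := hend 0 ⟨le_rfl, ht.le⟩ w (by rw [zero_smul, add_zero]; exact hw)
  have e2 := hend t ⟨ht.le, le_rfl⟩ w' hw'
  rw [e1, e2, sub_zero] at hmain
  exact hmain

end Pool.Agent.V11122.Sym
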