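import Pool.Agent.V11122.Sym.Mono

set_option autoImplicit false

/-! Local-to-global: heights for which all nonpolar faces are positively oriented give a
shortest-path embedding. -/

namespace Pool.Agent.V11122.Sym

open Pool.Agent.V11122.Sink Filter Topology

variable {V : Type} {G : SimpleGraph V} {p : V → E3}

theorem exists_lower {ι : Type} (T : Finset ι) (f : ι → ℝ) (h : ∀ x ∈ T, 0 < f x) :
    ∃ m : ℝ, 0 < m ∧ ∀ x ∈ T, m ≤ f x := by
  classical
  induction T using Finset.induction_on with
  | empty => exact ⟨1, one_pos, by simp⟩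
  | insert i T hi ih =>
    obtain ⟨m, hm, h1⟩ := ih fun x hx => h x (Finset.mem_insert_of_mem hx)
    refine ⟨min m (f i), lt_min hm (h i (Finset.mem_insert_self i T)), ?_⟩
    intro x hx
    rcases Finset.mem_insert.1 hx with rfl | hx
    · exact min_le_right _ _
    · exact (min_le_left _ _).trans (h1 x hx)

theorem eq_vadd {q q' : E3} (h0 : q 0 = q' 0) (h1 : q 1 = q' 1) :
    q' = q + (q' 2 - q 2) • north := by
  apply ext3
  · rw [vadd0, h0]
  · rw [vadd1, h1]
  · rw [vadd2]; ring

theorem strict [Finite V] (H : Sit G p) {g : V → ℝ}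
    (hg : ∀ a b c, NF G p a b c → 0 < DD p g a b c) {q q' : E3} (hq : q ≠ 0) (h0 : q 0 = q' 0)
    (h1 : q 1 = q' 1) {w w' : ℝ} (hw : EV G p g q w) (hw' : EV G p g q' w')
    (hlt : q 2 < q' 2) : w < w' := by
  classical
  haveI : Fintype V := Fintype.ofFinite V
  obtain ⟨m, hm, h⟩ := exists_lower
    (Finset.univ.filter fun x : V × V × V => NF G p x.1 x.2.1 x.2.2)
    (fun x => DD p g x.1 x.2.1 x.2.2 / Dt (p x.1) (p x.2.1) (p x.2.2)) (by
      rintro ⟨a, b, c⟩ hx
      have hN : NF G p a b c := by simpa using hx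
      exact div_pos (hg a b c hN) hN.pos)
  have e := eq_vadd h0 h1
  have ht : 0 < q' 2 - q 2 := by linarith
  rw [e] at hw'
  have := growth H g m (fun a b c hN => h (a, b, c) (by simpa using hN)) ht hq hw.inD hw'.inD
    hw hw'
  have := mul_pos hm ht
  linarith

theorem inj_val [Finite V] (H : Sit G p) {g : V → ℝ}
    (hg : ∀ a b c, NF G p a b c → 0 < DD p g a b c) {q q' : E3} (hq : q ≠ 0) (hq' : q' ≠ 0)
    (h0 : q 0 = q' 0) (h1 : q 1 = q' 1) {w : ℝ} (hw : EV G p g q w) (hw' : EV G p g q' w) :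
    q = q' := by
  rcases lt_trichotomy (q 2) (q' 2) with h | h | h
  · exact absurd (strict H hg hq h0 h1 hw hw' h) (lt_irrefl _)
  · exact ext3 h0 h1 h
  · exact absurd (strict H hg hq' h0.symm h1.symm hw' hw h) (lt_irrefl _)

/-- the point over vertex `v` at height `g v` -/
noncomputable def lift (p : V → E3) (g : V → ℝ) (v : V) : E3 := !₂[p v 0, p v 1, g v]

theorem lift0 (g : V → ℝ) (v : V) : lift p g v 0 = p v 0 := rfl
theorem lift1 (g : V → ℝ) (v : V) : lift p g v 1 = p v 1 := rfl
theorem lift2 (g : V → ℝ) (v : V) : lift p g v 2 = g v := rfl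

/-- the moved vertex -/
noncomputable def pos (p : V → E3) (g : V → ℝ) (v : V) : E3 := nz (lift p g v)

theorem lift_ne [Finite V] (H : Sit G p) (g : V → ℝ) (v : V) : lift p g v ≠ 0 := by
  apply ne_zero_of_horiz
  rw [lift0, lift1]
  exact hu H.T H.gen v

theorem lift_comb (g : V → ℝ) (a b : V) (r s : ℝ) :
    (r • lift p g a + s • lift p g b) 0 = (r • p a + s • p b) 0 ∧
    (r • lift p g a + s • lift p g b) 1 = (r • p a + s • p b) 1 ∧
    (r • lift p g a + s • lift p g b) 2 = r * g a + s * g b := by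
  refine ⟨?_, ?_, ?_⟩
  · simp [lift0]
  · simp [lift1]
  · simp [lift2]

theorem pos_embedding [Finite V] (H : Sit G p) {g : V → ℝ}
    (hg : ∀ a b c, NF G p a b c → 0 < DD p g a b c) :
    IsShortestPathEmbedding G (pos p g) := by
  have emb := H.T.toIsShortestPathEmbedding
  have hl := lift_ne H g
  have hr : ∀ v, 0 < ‖lift p g v‖⁻¹ := fun v => inv_pos.2 (norm_pos_iff.2 (hl v))
  have hpos : ∀ v, pos p g v = ‖lift p g v‖⁻¹ • lift p g v := fun v => rfl
  have hunit : ∀ v, ‖pos p g v‖ = 1 := fun v => norm_nz (hl v)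
  -- antipodal or equal positions are impossible
  have hind : ∀ a b : V, a ≠ b → ∀ x y : ℝ, x • pos p g a + y • pos p g b = 0 →
      x = 0 ∧ y = 0 := by
    intro a b hab x y h
    rw [hpos, hpos, smul_smul, smul_smul] at h
    obtain ⟨k0, k1, -⟩ := lift_comb (p := p) g a b (x * ‖lift p g a‖⁻¹) (y * ‖lift p g b‖⁻¹)
    rw [h] at k0 k1
    have e := horiz_eq (r := x * ‖lift p g a‖⁻¹) (s := y * ‖lift p g b‖⁻¹) (r' := 0) (s' := 0)
      (S_ne H.gen hab) (by simpa using k0.symm) (by simpa using k1.symm)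
    exact ⟨(mul_eq_zero.1 e.1).resolve_right (hr a).ne',
      (mul_eq_zero.1 e.2).resolve_right (hr b).ne'⟩
  refine ⟨hunit, ?_, ?_, ?_, ?_⟩
  · intro a b h
    by_contra hne
    have := hind a b hne 1 (-1) (by rw [h]; simp)
    exact one_ne_zero this.1
  · intro a b hab h
    have := hind a b hab.ne 1 1 (by rw [h]; simp)
    exact one_ne_zero this.1
  · rintro u v w hvw ⟨-, s, t, hs, ht, e⟩
    rw [hpos u, hpos v, hpos w, smul_smul, smul_smul] at e
    set ru := ‖lift p g u‖⁻¹
    set rv := ‖lift p g v‖⁻¹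
    set rw' := ‖lift p g w‖⁻¹
    have hru := hr u
    have hrv := hr v
    have hrw := hr w
    obtain ⟨k0, k1, k2⟩ := lift_comb (p := p) g v w (s * rv) (t * rw')
    rw [← e] at k0 k1 k2
    have hq : ru • p u ≠ 0 := smul_ne_zero hru.ne' (p_ne_zero emb u)
    have hh : (ru • p u) 0 ≠ 0 ∨ (ru • p u) 1 ≠ 0 := by
      rcases hu H.T H.gen u with h | h
      · left; simp only [PiLp.smul_apply, smul_eq_mul]; exact mul_ne_zero hru.ne' h
      · right; simp only [PiLp.smul_apply, smul_eq_mul]; exact mul_ne_zero hru.ne' h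
    have m0 : (ru • p u) 0 = ((s * rv) • p v + (t * rw') • p w) 0 := by
      rw [← k0]; simp [lift0]
    have m1 : (ru • p u) 1 = ((s * rv) • p v + (t * rw') • p w) 1 := by
      rw [← k1]; simp [lift1]
    have hq' : (s * rv) • p v + (t * rw') • p w ≠ 0 := by
      apply ne_zero_of_horiz
      rw [← m0, ← m1]; exact hh
    have ev1 : EV G p g (ru • p u) (ru * g u) :=
      ⟨u, u, Or.inl rfl, ru, 0, hru.le, le_rfl, by simp, by ring⟩
    have ev2 : EV G p g ((s * rv) • p v + (t * rw') • p w) (ru * g u) := by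
      refine ⟨v, w, Or.inr hvw, s * rv, t * rw', by positivity, by positivity, rfl, ?_⟩
      rw [← k2]; simp [lift2]
    have heq := inj_val H hg hq hq' m0 m1 ev1 ev2
    apply emb.vertex_edge u v w hvw
    have hmem := nz_mem_arc hq (r := s * rv) (s := t * rw') (by positivity) (by positivity) heq
    rwa [nz_smul hru, nz_unit (emb.unit u)] at hmem
  · rintro a b c d hab hcd hne x ⟨hx, s, t, hs, ht, e⟩ ⟨-, s', t', hs', ht', e'⟩
    rw [hpos a, hpos b, smul_smul, smul_smul] at e
    rw [hpos c, hpos d, smul_smul, smul_smul] at e'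
    have hra := hr a
    have hrb := hr b
    have hrc := hr c
    have hrd := hr d
    set ra := ‖lift p g a‖⁻¹
    set rb := ‖lift p g b‖⁻¹
    set rc := ‖lift p g c‖⁻¹
    set rd := ‖lift p g d‖⁻¹
    obtain ⟨k0, k1, k2⟩ := lift_comb (p := p) g a b (s * ra) (t * rb)
    obtain ⟨l0, l1, l2⟩ := lift_comb (p := p) g c d (s' * rc) (t' * rd)
    rw [← e] at k0 k1 k2
    rw [← e'] at l0 l1 l2
    have hx0 : x ≠ 0 := by rintro rfl; simp at hx
    have hz : ∀ {y z : V} {α β : ℝ}, y ≠ z → x = α • lift p g y + β • lift p g z →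
        α • p y + β • p z ≠ 0 := by
      intro y z α β hyz hxe h0
      obtain ⟨h1, h2⟩ := indep2 (S_ne H.gen hyz) h0
      apply hx0
      rw [hxe, h1, h2]; simp
    have hq := hz hab.ne e
    have hq' := hz hcd.ne e'
    have heq := inj_val H hg hq hq' (k0.symm.trans l0) (k1.symm.trans l1)
      ⟨a, b, Or.inr hab, s * ra, t * rb, by positivity, by positivity, rfl, k2⟩
      ⟨c, d, Or.inr hcd, s' * rc, t' * rd, by positivity, by positivity, rfl, l2⟩
    rcases common emb (Or.inr hab) (Or.inr hcd) hq (r := s * ra) (s := t * rb) (r' := s' * rc)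
      (s' := t' * rd) (by positivity) (by positivity) (by positivity) (by positivity) rfl heq with
      ⟨v, h1, h2, h3⟩ | ⟨-, h⟩
    · refine ⟨v, h1, h2, ?_⟩
      set q := (s * ra) • p a + (t * rb) • p b with hqdef
      have hv := val_at emb H.gen (Or.inr hab) h1 h3 g
      have hxl : x = ‖q‖ • lift p g v := by
        apply ext3
        · rw [k0]
          conv_lhs => rw [h3]
          simp [lift0]
        · rw [k1]
          conv_lhs => rw [h3]
          simp [lift1]
        · rw [k2, hv]
          simp [lift2]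
      have hnq : 0 < ‖q‖ := norm_pos_iff.2 hq
      rw [← nz_unit hx, hxl, nz_smul hnq]
      rfl
    · exfalso
      apply hne
      rcases h with ⟨rfl, rfl⟩ | ⟨rfl, rfl⟩
      · rfl
      · exact Sym2.eq_swap

theorem pos_self (emb : IsShortestPathEmbedding G p) : pos p (fun v => p v 2) = p := by
  funext v
  have : lift p (fun v => p v 2) v = p v := ext3 rfl rfl rfl
  rw [pos, this, nz_unit (emb.unit v)]

theorem pos_longitude [Finite V] (H : Sit G p) (g : V → ℝ) (v : V) :
    pos p g v ∈ longitude (p v) := by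
  have hl := lift_ne H g v
  refine ⟨norm_nz hl, ‖lift p g v‖⁻¹, inv_pos.2 (norm_pos_iff.2 hl), ?_, ?_⟩
  · rw [pos, nz]; simp [lift0]
  · rw [pos, nz]; simp [lift1]

theorem pos_two (g : V → ℝ) (v : V) : pos p g v 2 = ‖lift p g v‖⁻¹ * g v := by
  rw [pos, nz]; simp [lift2]

/-- the straight path of heights -/
theorem path [Finite V] (H : Sit G p) {g : V → ℝ}
    (hg : ∀ a b c, NF G p a b c → 0 < DD p g a b c) :
    ∃ Γ : unitInterval → V → E3, Continuous Γ ∧ Γ 0 = p ∧
      (∀ t, IsShortestPathEmbedding G (Γ t)) ∧ (∀ t v, Γ t v ∈ longitude (p v)) ∧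
      Γ 1 = pos p g := by
  have emb := H.T.toIsShortestPathEmbedding
  let h : unitInterval → V → ℝ := fun t v => (1 - (t : ℝ)) * p v 2 + (t : ℝ) * g v
  have hDD : ∀ t a b c, NF G p a b c → 0 < DD p (h t) a b c := by
    intro t a b c hN
    have h1 : DD p (h t) a b c = (1 - (t : ℝ)) * Dt (p a) (p b) (p c) +
        (t : ℝ) * DD p g a b c := by
      simp only [DD, Dt, h]; ring
    rw [h1]
    have h2 := hN.pos
    have h3 := hg a b c hN
    have h4 := t.2.1
    have h5 := t.2.2
    rcases h4.lt_or_eq with h6 | h6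
    · have := mul_pos h6 h3
      have := mul_nonneg (sub_nonneg.2 h5) h2.le
      linarith
    · rw [← h6]; simpa using h2
  refine ⟨fun t => pos p (h t), ?_, ?_, fun t => pos_embedding H (hDD t),
    fun t v => pos_longitude H _ v, ?_⟩
  · apply continuous_pi
    intro v
    have hlc : Continuous fun t : unitInterval => lift p (h t) v := by
      apply (PiLp.continuous_toLp 2 _).comp
      apply continuous_pi
      intro i
      fin_cases i
      · exact continuous_const
      · exact continuous_const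
      · change Continuous fun t : unitInterval => (1 - (t : ℝ)) * p v 2 + (t : ℝ) * g v
        fun_prop
    change Continuous fun t : unitInterval => ‖lift p (h t) v‖⁻¹ • lift p (h t) v
    refine Continuous.smul (f := fun t : unitInterval => ‖lift p (h t) v‖⁻¹)
      (g := fun t : unitInterval => lift p (h t) v) ?_ hlc
    apply Continuous.inv₀ hlc.norm
    intro t
    exact (norm_pos_iff.2 (lift_ne H _ v)).ne'
  · have : h 0 = fun v => p v 2 := by
      funext v; simp [h]
    simp only
    rw [this, pos_self emb]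
  · have : h 1 = g := by
      funext v; simp [h]
    simp only
    rw [this]

end Pool.Agent.V11122.Sym
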