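import Pool.Agent.V11122.Sym.Dual

set_option autoImplicit false

/-! Linear images of embeddings; both poles in one face; reflection in the equator. -/

namespace Pool.Agent.V11122.Sym

open Pool.Agent.V11122.Sink Filter Topology

variable {V : Type} {G : SimpleGraph V} {p : V → E3}

theorem spe_linear (emb : IsShortestPathEmbedding G p) (A : E3 →ₗ[ℝ] E3)
    (hA : Function.Injective A) : IsShortestPathEmbedding G (fun v => nz (A (p v))) := by
  have hne : ∀ {q : E3}, q ≠ 0 → A q ≠ 0 := by
    intro q hq h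
    apply hq
    apply hA
    rw [h, map_zero]
  have hl : ∀ v, A (p v) ≠ 0 := fun v => hne (p_ne_zero emb v)
  have hr : ∀ v, 0 < ‖A (p v)‖⁻¹ := fun v => inv_pos.2 (norm_pos_iff.2 (hl v))
  have hback : ∀ v, nz (A (p v)) = A (‖A (p v)‖⁻¹ • p v) := by
    intro v; rw [map_smul]; rfl
  have hcomb : ∀ a b : V, ∀ s t : ℝ, s • nz (A (p a)) + t • nz (A (p b)) =
      A ((s * ‖A (p a)‖⁻¹) • p a + (t * ‖A (p b)‖⁻¹) • p b) := by
    intro a b s t
    rw [map_add, map_smul, map_smul, mul_smul, mul_smul]
    rfl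
  have hnz : ∀ v (r : ℝ), 0 < r → nz (r • p v) = p v := fun v r h => by
    rw [nz_smul h, nz_unit (emb.unit v)]
  refine ⟨fun v => norm_nz (hl v), ?_, ?_, ?_, ?_⟩
  · intro a b h
    simp only [hback] at h
    have := hA h
    apply emb.inj
    rw [← hnz a _ (hr a), this, hnz b _ (hr b)]
  · intro a b hab h
    apply emb.short a b hab
    have h1 : A (‖A (p a)‖⁻¹ • p a) = A (‖A (p b)‖⁻¹ • (-p b)) := by
      rw [← hback, smul_neg, map_neg, ← hback]; exact h
    have h2 := hA h1
    rw [← hnz a _ (hr a), h2, nz_smul (hr b), nz_unit (by rw [norm_neg]; exact emb.unit b)]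
  · rintro u v w hvw ⟨-, s, t, hs, ht, e⟩
    rw [hcomb, hback] at e
    have h2 := hA e
    apply emb.vertex_edge u v w hvw
    have hrv := hr v
    have hrw := hr w
    have hq : ‖A (p u)‖⁻¹ • p u ≠ 0 := smul_ne_zero (hr u).ne' (p_ne_zero emb u)
    have := nz_mem_arc hq (r := s * ‖A (p v)‖⁻¹) (s := t * ‖A (p w)‖⁻¹) (by positivity)
      (by positivity) h2
    rwa [hnz u _ (hr u)] at this
  · rintro a b c d hab hcd hne' x ⟨hx, s, t, hs, ht, e⟩ ⟨-, s', t', hs', ht', e'⟩
    rw [hcomb] at e e'
    have h2 := hA (e.symm.trans e')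
    have hra := hr a
    have hrb := hr b
    have hrc := hr c
    have hrd := hr d
    have hx0 : x ≠ 0 := by rintro rfl; simp at hx
    set y := (s * ‖A (p a)‖⁻¹) • p a + (t * ‖A (p b)‖⁻¹) • p b with hy
    have hy0 : y ≠ 0 := by
      rintro h0
      rw [h0, map_zero] at e
      exact hx0 e
    have m1 := nz_mem_arc hy0 (r := s * ‖A (p a)‖⁻¹) (s := t * ‖A (p b)‖⁻¹) (by positivity)
      (by positivity) hy
    have m2 := nz_mem_arc hy0 (r := s' * ‖A (p c)‖⁻¹) (s := t' * ‖A (p d)‖⁻¹) (by positivity)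
      (by positivity) h2
    obtain ⟨v, k1, k2, k3⟩ := emb.edge_edge a b c d hab hcd hne' _ m1 m2
    refine ⟨v, k1, k2, ?_⟩
    have hyn : 0 < ‖y‖ := norm_pos_iff.2 hy0
    have e1 : y = ‖y‖ • p v := by rw [← k3, nz_back hy0]
    have e2 : x = ‖y‖ • A (p v) := by
      rw [← map_smul, ← e1]; exact e
    rw [← nz_unit hx, e2, nz_smul hyn]

/-- vertical shear -/
noncomputable def shear (α β : ℝ) : E3 →ₗ[ℝ] E3 where
  toFun x := x + (α * x 0 + β * x 1) • north
  map_add' x y := by
    apply ext3 <;> simp [north0, north1, north2] <;> ring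
  map_smul' r x := by
    apply ext3 <;> simp [north0, north1, north2] <;> ring

theorem shear_inj (α β : ℝ) : Function.Injective (shear α β) := by
  intro x y h
  have e0 := congrArg (fun z : E3 => z 0) h
  have e1 := congrArg (fun z : E3 => z 1) h
  have e2 := congrArg (fun z : E3 => z 2) h
  simp only [shear, LinearMap.coe_mk, AddHom.coe_mk, vadd0, vadd1, vadd2] at e0 e1 e2
  rw [e0, e1] at e2
  exact ext3 e0 e1 (by linarith)

theorem shear_lift (α β : ℝ) (v : V) :
    shear α β (p v) = lift p (fun v => p v 2 + (α * p v 0 + β * p v 1)) v := by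
  apply ext3
  · simp only [shear, LinearMap.coe_mk, AddHom.coe_mk, vadd0]; rfl
  · simp only [shear, LinearMap.coe_mk, AddHom.coe_mk, vadd1]; rfl
  · simp only [shear, LinearMap.coe_mk, AddHom.coe_mk, vadd2]; rfl

theorem sep_mid {m b c : V} (hS : S (p b) (p c) ≠ 0)
    (h1 : S (p b) (p c) * S (p m) (p b) < 0) (h2 : S (p b) (p c) * S (p c) (p m) < 0) :
    ∃ α β : ℝ, 0 < α * p m 0 + β * p m 1 ∧ 0 < α * p b 0 + β * p b 1 ∧
      0 < α * p c 0 + β * p c 1 := by
  obtain ⟨α, β, l1, l2⟩ := lin_two (p := p) hS 1 1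
  refine ⟨α, β, ?_, by rw [l1]; exact one_pos, by rw [l2]; exact one_pos⟩
  have e : S (p b) (p c) * (α * p m 0 + β * p m 1) =
      -S (p c) (p m) * (α * p b 0 + β * p b 1) - S (p m) (p b) * (α * p c 0 + β * p c 1) := by
    unfold S; ring
  rw [l1, l2] at e
  have hpos : 0 < S (p b) (p c) * (S (p b) (p c) * (α * p m 0 + β * p m 1)) := by
    rw [e]; linarith
  have hsq : 0 < S (p b) (p c) * S (p b) (p c) := mul_self_pos.2 hS
  rw [← mul_assoc] at hpos
  exact (mul_pos_iff_of_pos_left hsq).1 hpos

theorem sep (gen : IsGeneric p) {a b c : V} (ab : a ≠ b) (bc : b ≠ c) (ca : c ≠ a)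
    (h1 : ¬ (0 < S (p a) (p b) ∧ 0 < S (p b) (p c) ∧ 0 < S (p c) (p a)))
    (h2 : ¬ (S (p a) (p b) < 0 ∧ S (p b) (p c) < 0 ∧ S (p c) (p a) < 0)) :
    ∃ α β : ℝ, 0 < α * p a 0 + β * p a 1 ∧ 0 < α * p b 0 + β * p b 1 ∧
      0 < α * p c 0 + β * p c 1 := by
  have hA := S_ne gen ab
  have hB := S_ne gen bc
  have hC := S_ne gen ca
  have mA : ∀ {x y : ℝ}, x < 0 → 0 < y → x * y < 0 := fun h k => mul_neg_of_neg_of_pos h k
  have mB : ∀ {x y : ℝ}, 0 < x → y < 0 → x * y < 0 := fun h k => mul_neg_of_pos_of_neg h k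
  have rotA : S (p b) (p c) * S (p a) (p b) < 0 → S (p b) (p c) * S (p c) (p a) < 0 →
      ∃ α β : ℝ, 0 < α * p a 0 + β * p a 1 ∧ 0 < α * p b 0 + β * p b 1 ∧
      0 < α * p c 0 + β * p c 1 := fun h h' => sep_mid hB h h'
  have rotB : S (p c) (p a) * S (p b) (p c) < 0 → S (p c) (p a) * S (p a) (p b) < 0 →
      ∃ α β : ℝ, 0 < α * p a 0 + β * p a 1 ∧ 0 < α * p b 0 + β * p b 1 ∧
      0 < α * p c 0 + β * p c 1 := by
    intro h h'
    obtain ⟨α, β, k1, k2, k3⟩ := sep_mid hC h h'
    exact ⟨α, β, k3, k1, k2⟩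
  have rotC : S (p a) (p b) * S (p c) (p a) < 0 → S (p a) (p b) * S (p b) (p c) < 0 →
      ∃ α β : ℝ, 0 < α * p a 0 + β * p a 1 ∧ 0 < α * p b 0 + β * p b 1 ∧
      0 < α * p c 0 + β * p c 1 := by
    intro h h'
    obtain ⟨α, β, k1, k2, k3⟩ := sep_mid hA h h'
    exact ⟨α, β, k2, k3, k1⟩
  rcases lt_or_gt_of_ne hA with kA | kA <;> rcases lt_or_gt_of_ne hB with kB | kB <;>
    rcases lt_or_gt_of_ne hC with kC | kC
  · exact absurd ⟨kA, kB, kC⟩ h2
  · exact rotB (mB kC kB) (mB kC kA)
  · exact rotA (mB kB kA) (mB kB kC)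
  · exact rotC (mA kA kC) (mA kA kB)
  · exact rotC (mB kA kC) (mB kA kB)
  · exact rotA (mA kB kA) (mA kB kC)
  · exact rotB (mA kC kB) (mA kC kA)
  · exact absurd ⟨kA, kB, kC⟩ h1

theorem spe_height (emb : IsShortestPathEmbedding G p) (α β : ℝ) :
    IsShortestPathEmbedding G (pos p (fun v => p v 2 + (α * p v 0 + β * p v 1))) := by
  have := spe_linear emb (shear α β) (shear_inj α β)
  simp only [shear_lift] at this
  exact this

theorem same_face [Finite V] (T : IsTriangulation G p) (gen : IsGeneric p)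
    (h : (-1 : ℝ) • north ∈ comp G p ((1 : ℝ) • north)) : Floatable G p := by
  haveI : Fintype V := Fintype.ofFinite V
  have emb := T.toIsShortestPathEmbedding
  have hn1 := pole_off T gen (σ := 1) (Or.inl rfl)
  have hn2 := pole_off T gen (σ := -1) (Or.inr rfl)
  obtain ⟨a, b, c, ab, bc, ca, hf⟩ := T.face _ hn1
  have hD := Dt_ne_zero gen ab.ne bc.ne ca.ne'
  have r1 : Dt (p b) (p c) (p a) = Dt (p a) (p b) (p c) := Dt_rot _ _ _
  have r2 : Dt (p c) (p a) (p b) = Dt (p a) (p b) (p c) := by rw [← Dt_rot (p c)]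
  have hall : ∀ v, CC p a b c (p v) ∧ ¬ CC p a b c ((1 : ℝ) • north) ∧
      ¬ CC p a b c ((-1 : ℝ) • north) := by
    intro v
    rcases hf with hf | hf
    · exfalso
      change comp G p ((1 : ℝ) • north) = _ at hf
      have k1 : (1 : ℝ) • north ∈ openTriangle (p a) (p b) (p c) := by
        rw [← hf]; exact mem_comp hn1
      have k2 : (-1 : ℝ) • north ∈ openTriangle (p a) (p b) (p c) := by
        rw [← hf]; exact h
      rw [← nz_unit hn1.1, open_iff hD (pole_ne (Or.inl rfl))] at k1
      rw [← nz_unit hn2.1, open_iff hD (pole_ne (Or.inr rfl))] at k2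
      have l1 := k1.1
      have l2 := k2.1
      rw [co_smul] at l1 l2
      linarith
    · change comp G p ((1 : ℝ) • north) = _ at hf
      have k1 : (1 : ℝ) • north ∈ sphere \ closedTriangle (p a) (p b) (p c) := by
        rw [← hf]; exact mem_comp hn1
      have k2 : (-1 : ℝ) • north ∈ sphere \ closedTriangle (p a) (p b) (p c) := by
        rw [← hf]; exact h
      have l1 := k1.2
      have l2 := k2.2
      rw [← nz_unit hn1.1, closed_iff hD (pole_ne (Or.inl rfl))] at l1
      rw [← nz_unit hn2.1, closed_iff hD (pole_ne (Or.inr rfl))] at l2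
      refine ⟨?_, l1, l2⟩
      by_contra hcon
      rw [← closed_iff hD (p_ne_zero emb v), nz_unit (emb.unit v)] at hcon
      have hmem : p v ∈ comp G p ((1 : ℝ) • north) := by
        rw [hf]; exact ⟨emb.unit v, hcon⟩
      exact (comp_sub hmem).2 (Or.inl ⟨v, rfl⟩)
  obtain ⟨-, hno1, hno2⟩ := hall a
  have q1 : ¬ (0 < S (p a) (p b) ∧ 0 < S (p b) (p c) ∧ 0 < S (p c) (p a)) := by
    rintro ⟨k1, k2, k3⟩
    rcases lt_or_gt_of_ne hD with hD' | hD'
    · apply hno2
      refine ⟨?_, ?_, ?_⟩
      · rw [co_smul, co_north]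
        have := div_neg_of_pos_of_neg k2 hD'
        linarith
      · rw [co_smul, co_north, r1]
        have := div_neg_of_pos_of_neg k3 hD'
        linarith
      · rw [co_smul, co_north, r2]
        have := div_neg_of_pos_of_neg k1 hD'
        linarith
    · apply hno1
      refine ⟨?_, ?_, ?_⟩
      · rw [co_smul, co_north]
        have := div_pos k2 hD'
        linarith
      · rw [co_smul, co_north, r1]
        have := div_pos k3 hD'
        linarith
      · rw [co_smul, co_north, r2]
        have := div_pos k1 hD'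
        linarith
  have q2 : ¬ (S (p a) (p b) < 0 ∧ S (p b) (p c) < 0 ∧ S (p c) (p a) < 0) := by
    rintro ⟨k1, k2, k3⟩
    rcases lt_or_gt_of_ne hD with hD' | hD'
    · apply hno1
      refine ⟨?_, ?_, ?_⟩
      · rw [co_smul, co_north]
        have := div_pos_of_neg_of_neg k2 hD'
        linarith
      · rw [co_smul, co_north, r1]
        have := div_pos_of_neg_of_neg k3 hD'
        linarith
      · rw [co_smul, co_north, r2]
        have := div_pos_of_neg_of_neg k1 hD'
        linarith
    · apply hno2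
      refine ⟨?_, ?_, ?_⟩
      · rw [co_smul, co_north]
        have := div_neg_of_neg_of_pos k2 hD'
        linarith
      · rw [co_smul, co_north, r1]
        have := div_neg_of_neg_of_pos k3 hD'
        linarith
      · rw [co_smul, co_north, r2]
        have := div_neg_of_neg_of_pos k1 hD'
        linarith
  obtain ⟨α, β, x1, x2, x3⟩ := sep gen ab.ne bc.ne ca.ne q1 q2
  have hξ : ∀ v, 0 < α * p v 0 + β * p v 1 := by
    intro v
    obtain ⟨⟨k1, k2, k3⟩, -, -⟩ := hall v
    have e := rep hD (p v)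
    set r := co (p a) (p b) (p c) (p v)
    set s := co (p b) (p c) (p a) (p v)
    set t := co (p c) (p a) (p b) (p v)
    have e0 : p v 0 = r * p a 0 + s * p b 0 + t * p c 0 := by
      have := congrArg (fun y : E3 => y 0) e; simpa using this
    have e1 : p v 1 = r * p a 1 + s * p b 1 + t * p c 1 := by
      have := congrArg (fun y : E3 => y 1) e; simpa using this
    have e2 : α * p v 0 + β * p v 1 = r * (α * p a 0 + β * p a 1) +
        s * (α * p b 0 + β * p b 1) + t * (α * p c 0 + β * p c 1) := by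
      rw [e0, e1]; ring
    rw [e2]
    have m1 := mul_nonneg k1 x1.le
    have m2 := mul_nonneg k2 x2.le
    have m3 := mul_nonneg k3 x3.le
    rcases k1.lt_or_eq with n1 | n1
    · have := mul_pos n1 x1; linarith
    rcases k2.lt_or_eq with n2 | n2
    · have := mul_pos n2 x2; linarith
    rcases k3.lt_or_eq with n3 | n3
    · have := mul_pos n3 x3; linarith
    exfalso
    apply p_ne_zero emb v
    rw [e, ← n1, ← n2, ← n3]; simp
  obtain ⟨m, hm, hml⟩ := exists_lower (Finset.univ : Finset V)
    (fun v => α * p v 0 + β * p v 1) (fun v _ => hξ v)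
  let K : ℝ := 2 / m
  let g : unitInterval → V → ℝ := fun t v =>
    p v 2 + ((t : ℝ) * K * α * p v 0 + (t : ℝ) * K * β * p v 1)
  have hl : ∀ (f : V → ℝ) v, lift p f v ≠ 0 := by
    intro f v
    apply ne_zero_of_horiz
    rw [lift0, lift1]
    exact hu T gen v
  refine ⟨fun t => pos p (g t), ?_, ?_, fun t => spe_height emb _ _, ?_, ?_⟩
  · apply continuous_pi
    intro v
    have hlc : Continuous fun t : unitInterval => lift p (g t) v := by
      apply (PiLp.continuous_toLp 2 _).comp
      apply continuous_pi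
      intro i
      fin_cases i
      · exact continuous_const
      · exact continuous_const
      · change Continuous fun t : unitInterval =>
          p v 2 + ((t : ℝ) * K * α * p v 0 + (t : ℝ) * K * β * p v 1)
        fun_prop
    change Continuous fun t : unitInterval => ‖lift p (g t) v‖⁻¹ • lift p (g t) v
    refine Continuous.smul (f := fun t : unitInterval => ‖lift p (g t) v‖⁻¹)
      (g := fun t : unitInterval => lift p (g t) v) ?_ hlc
    apply Continuous.inv₀ hlc.norm
    intro t
    exact (norm_pos_iff.2 (hl _ v)).ne'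
  · have : g 0 = fun v => p v 2 := by
      funext v; simp [g]
    simp only
    rw [this, pos_self emb]
  · intro t v
    refine ⟨norm_nz (hl _ v), ‖lift p (g t) v‖⁻¹, inv_pos.2 (norm_pos_iff.2 (hl _ v)), ?_, ?_⟩
    · simp only [pos, nz]; simp [lift0]
    · simp only [pos, nz]; simp [lift1]
  · intro v
    simp only
    rw [pos_two]
    apply mul_pos (inv_pos.2 (norm_pos_iff.2 (hl _ v)))
    have h1 : |p v 2| ≤ 1 := by
      have := PiLp.norm_apply_le (p v) 2
      rw [emb.unit v] at this
      exact this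
    have h2 : g 1 v = p v 2 + K * (α * p v 0 + β * p v 1) := by
      simp only [g, Set.Icc.coe_one]; ring
    have h3 := hml v (Finset.mem_univ v)
    have h4 : K * m = 2 := div_mul_cancel₀ _ hm.ne'
    have hK : 0 < K := div_pos two_pos hm
    have h5 := mul_le_mul_of_nonneg_left h3 hK.le
    rw [h2]
    have := (abs_le.1 h1).1
    linarith

/-- reflection in the equator -/
noncomputable def refl : E3 →ₗ[ℝ] E3 where
  toFun x := !₂[x 0, x 1, -x 2]
  map_add' x y := by
    apply ext3 <;> simp
    ring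
  map_smul' r x := by
    apply ext3 <;> simp

theorem refl0 (x : E3) : refl x 0 = x 0 := rfl
theorem refl1 (x : E3) : refl x 1 = x 1 := rfl
theorem refl2 (x : E3) : refl x 2 = -x 2 := rfl

theorem refl_refl (x : E3) : refl (refl x) = x := by
  apply ext3
  · rfl
  · rfl
  · rw [refl2, refl2, neg_neg]

theorem refl_inj : Function.Injective refl := by
  intro x y h
  rw [← refl_refl x, h, refl_refl]

theorem refl_norm (x : E3) : ‖refl x‖ = ‖x‖ := by
  rw [EuclideanSpace.norm_eq, EuclideanSpace.norm_eq, Fin.sum_univ_three, Fin.sum_univ_three,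
    refl0, refl1, refl2, norm_neg]

theorem refl_cont : Continuous refl := LinearMap.continuous_of_finiteDimensional refl

theorem refl_spe (emb : IsShortestPathEmbedding G p) :
    IsShortestPathEmbedding G (fun v => refl (p v)) := by
  have h := spe_linear emb refl refl_inj
  have e : (fun v => nz (refl (p v))) = fun v => refl (p v) := by
    funext v
    exact nz_unit (by rw [refl_norm]; exact emb.unit v)
  rwa [e] at h

noncomputable def reflHomeo : E3 ≃ₜ E3 where
  toFun := refl
  invFun := refl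
  left_inv := refl_refl
  right_inv := refl_refl
  continuous_toFun := refl_cont
  continuous_invFun := refl_cont

theorem mem_image_refl {s : Set E3} {x : E3} : x ∈ refl '' s ↔ refl x ∈ s := by
  constructor
  · rintro ⟨y, hy, rfl⟩
    rwa [refl_refl]
  · intro h
    exact ⟨_, h, refl_refl x⟩

theorem refl_arc (x y z : E3) : z ∈ arc (refl x) (refl y) ↔ refl z ∈ arc x y := by
  constructor
  · rintro ⟨h1, s, t, hs, ht, e⟩
    refine ⟨by rw [refl_norm]; exact h1, s, t, hs, ht, ?_⟩
    rw [e, map_add, map_smul, map_smul, refl_refl, refl_refl]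
  · rintro ⟨h1, s, t, hs, ht, e⟩
    refine ⟨by rw [← refl_norm]; exact h1, s, t, hs, ht, ?_⟩
    rw [← map_smul, ← map_smul, ← map_add, ← e, refl_refl]

theorem refl_drawing (z : E3) : z ∈ drawing G (fun v => refl (p v)) ↔ refl z ∈ drawing G p := by
  constructor
  · rintro (⟨v, rfl⟩ | ⟨a, b, hab, h⟩)
    · left; exact ⟨v, (refl_refl _).symm⟩
    · right; exact ⟨a, b, hab, (refl_arc _ _ _).1 h⟩
  · rintro (⟨v, h⟩ | ⟨a, b, hab, h⟩)
    · left; exact ⟨v, by simp only; rw [h, refl_refl]⟩
    · right; exact ⟨a, b, hab, (refl_arc _ _ _).2 h⟩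

theorem refl_open (x y z w : E3) :
    w ∈ openTriangle (refl x) (refl y) (refl z) ↔ refl w ∈ openTriangle x y z := by
  constructor
  · rintro ⟨h1, r, s, t, hr, hs, ht, e⟩
    refine ⟨by rw [refl_norm]; exact h1, r, s, t, hr, hs, ht, ?_⟩
    rw [e, map_add, map_add, map_smul, map_smul, map_smul, refl_refl, refl_refl, refl_refl]
  · rintro ⟨h1, r, s, t, hr, hs, ht, e⟩
    refine ⟨by rw [← refl_norm]; exact h1, r, s, t, hr, hs, ht, ?_⟩
    rw [← map_smul, ← map_smul, ← map_smul, ← map_add, ← map_add, ← e, refl_refl]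

theorem refl_closed (x y z w : E3) :
    w ∈ closedTriangle (refl x) (refl y) (refl z) ↔ refl w ∈ closedTriangle x y z := by
  constructor
  · rintro ⟨h1, r, s, t, hr, hs, ht, e⟩
    refine ⟨by rw [refl_norm]; exact h1, r, s, t, hr, hs, ht, ?_⟩
    rw [e, map_add, map_add, map_smul, map_smul, map_smul, refl_refl, refl_refl, refl_refl]
  · rintro ⟨h1, r, s, t, hr, hs, ht, e⟩
    refine ⟨by rw [← refl_norm]; exact h1, r, s, t, hr, hs, ht, ?_⟩
    rw [← map_smul, ← map_smul, ← map_smul, ← map_add, ← map_add, ← e, refl_refl]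

theorem refl_off (z : E3) :
    z ∈ sphere \ drawing G (fun v => refl (p v)) ↔ refl z ∈ sphere \ drawing G p := by
  rw [Set.mem_diff, Set.mem_diff, refl_drawing]
  have : z ∈ sphere ↔ refl z ∈ sphere := by
    change ‖z‖ = 1 ↔ ‖refl z‖ = 1
    rw [refl_norm]
  rw [this]

theorem refl_tri (T : IsTriangulation G p) : IsTriangulation G (fun v => refl (p v)) := by
  refine ⟨refl_spe T.toIsShortestPathEmbedding, ?_⟩
  intro x hx
  have hx' := (refl_off x).1 hx
  have himg : refl '' (sphere \ drawing G p) = sphere \ drawing G (fun v => refl (p v)) := by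
    ext z
    rw [mem_image_refl, refl_off]
  have hcomp : refl '' connectedComponentIn (sphere \ drawing G p) (refl x) =
      connectedComponentIn (sphere \ drawing G (fun v => refl (p v))) x := by
    have := reflHomeo.image_connectedComponentIn hx'
    change refl '' connectedComponentIn (sphere \ drawing G p) (refl x) =
      connectedComponentIn (refl '' (sphere \ drawing G p)) (refl (refl x)) at this
    rw [this, himg, refl_refl]
  obtain ⟨a, b, c, ab, bc, ca, h | h⟩ := T.face _ hx'
  · refine ⟨a, b, c, ab, bc, ca, Or.inl ?_⟩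
    rw [← hcomp, h]
    ext z
    rw [mem_image_refl, refl_open]
  · refine ⟨a, b, c, ab, bc, ca, Or.inr ?_⟩
    rw [← hcomp, h]
    ext z
    rw [mem_image_refl, Set.mem_diff, Set.mem_diff, refl_closed]
    have : z ∈ sphere ↔ refl z ∈ sphere := by
      change ‖z‖ = 1 ↔ ‖refl z‖ = 1
      rw [refl_norm]
    rw [this]

theorem li_of_Dt {a b c : E3} (h : Dt a b c ≠ 0) : LinearIndependent ℝ ![a, b, c] := by
  rw [Fintype.linearIndependent_iff]
  intro g hg
  rw [Fin.sum_univ_three] at hg
  obtain ⟨h0, h1, h2⟩ := indep_of_Dt h (r := g 0) (s := g 1) (t := g 2) (by simpa using hg)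
  intro i
  fin_cases i
  · exact h0
  · exact h1
  · exact h2

theorem refl_gen (gen : IsGeneric p) : IsGeneric (fun v => refl (p v)) := by
  constructor
  · intro a b c h1 h2 h3
    apply li_of_Dt
    have e : Dt (refl (p a)) (refl (p b)) (refl (p c)) = -Dt (p a) (p b) (p c) := by
      unfold Dt S
      simp only [refl0, refl1, refl2]
      ring
    rw [e]
    exact neg_ne_zero.2 (Dt_ne_zero gen h1 h2 h3)
  · intro a b hab
    apply li_of_Dt
    rw [Dt_north]
    have e : S (refl (p a)) (refl (p b)) = S (p a) (p b) := rfl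
    rw [e]
    exact S_ne gen hab

theorem refl_long {x y : E3} (h : x ∈ longitude y) : refl x ∈ longitude (refl y) := by
  obtain ⟨h1, c, hc, e0, e1⟩ := h
  exact ⟨by rw [refl_norm]; exact h1, c, hc, e0, e1⟩

theorem refl_map_cont {Γ : unitInterval → V → E3} (h : Continuous Γ) :
    Continuous fun t v => refl (Γ t v) := by
  apply continuous_pi
  intro v
  exact refl_cont.comp ((continuous_apply v).comp h)

theorem refl_float (h : Floatable G p) : Sinkable G (fun v => refl (p v)) := by
  obtain ⟨Γ, h1, h2, h3, h4, h5⟩ := h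
  refine ⟨fun t v => refl (Γ t v), refl_map_cont h1, by simp only [h2], fun t => refl_spe (h3 t),
    fun t v => refl_long (h4 t v), fun v => ?_⟩
  simp only
  rw [refl2]
  have := h5 v
  linarith

theorem refl_sink (h : Sinkable G p) : Floatable G (fun v => refl (p v)) := by
  obtain ⟨Γ, h1, h2, h3, h4, h5⟩ := h
  refine ⟨fun t v => refl (Γ t v), refl_map_cont h1, by simp only [h2], fun t => refl_spe (h3 t),
    fun t v => refl_long (h4 t v), fun v => ?_⟩
  simp only
  rw [refl2]
  have := h5 v
  linarith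

theorem sink_float [Finite V] (T : IsTriangulation G p) (gen : IsGeneric p)
    (h : Sinkable G p) : Floatable G p := by
  by_cases hs : (-1 : ℝ) • north ∈ comp G p ((1 : ℝ) • north)
  · exact same_face T gen hs
  · exact sit_float ⟨T, gen, hs⟩ h

theorem float_sink [Finite V] (T : IsTriangulation G p) (gen : IsGeneric p)
    (h : Floatable G p) : Sinkable G p := by
  have h1 := sink_float (refl_tri T) (refl_gen gen) (refl_float h)
  have h2 := refl_float h1
  simp only [refl_refl] at h2
  exact h2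

end Pool.Agent.V11122.Sym
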