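import Pool.Agent.V11122.Sym.Basic

set_option autoImplicit false

/-! Points over the drawing and their values. -/

namespace Pool.Agent.V11122.Sym

open Pool.Agent.V11122.Sink

variable {V : Type} {G : SimpleGraph V} {p : V → E3}

/-- `q` lies on the cone over the drawing, with value `w` for the heights `g` -/
def EV (G : SimpleGraph V) (p : V → E3) (g : V → ℝ) (q : E3) (w : ℝ) : Prop :=
  ∃ a b, Ad G a b ∧ ∃ r s : ℝ, 0 ≤ r ∧ 0 ≤ s ∧ q = r • p a + s • p b ∧ w = r * g a + s * g b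

/-- `q` lies on the cone over the drawing -/
def InD (G : SimpleGraph V) (p : V → E3) (q : E3) : Prop :=
  ∃ a b, Ad G a b ∧ ∃ r s : ℝ, 0 ≤ r ∧ 0 ≤ s ∧ q = r • p a + s • p b

theorem InD.ev {q : E3} (h : InD G p q) (g : V → ℝ) : ∃ w, EV G p g q w := by
  obtain ⟨a, b, hab, r, s, hr, hs, e⟩ := h
  exact ⟨_, a, b, hab, r, s, hr, hs, e, rfl⟩

theorem EV.inD {g : V → ℝ} {q : E3} {w : ℝ} (h : EV G p g q w) : InD G p q := by
  obtain ⟨a, b, hab, r, s, hr, hs, e, -⟩ := h
  exact ⟨a, b, hab, r, s, hr, hs, e⟩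

/-- normalisation -/
noncomputable def nz (q : E3) : E3 := ‖q‖⁻¹ • q

theorem norm_nz {q : E3} (h : q ≠ 0) : ‖nz q‖ = 1 := by
  rw [nz, norm_smul, norm_inv, norm_norm, inv_mul_cancel₀ (norm_pos_iff.2 h).ne']

theorem nz_back {q : E3} (h : q ≠ 0) : ‖q‖ • nz q = q := by
  rw [nz, smul_smul, mul_inv_cancel₀ (norm_pos_iff.2 h).ne', one_smul]

theorem nz_smul {q : E3} {t : ℝ} (ht : 0 < t) : nz (t • q) = nz q := by
  rw [nz, nz, norm_smul, Real.norm_eq_abs, abs_of_pos ht, smul_smul, mul_inv]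
  congr 1
  field_simp

theorem nz_unit {q : E3} (h : ‖q‖ = 1) : nz q = q := by rw [nz, h]; simp

theorem p_ne_zero (emb : IsShortestPathEmbedding G p) (v : V) : p v ≠ 0 := by
  intro h
  have := emb.unit v
  rw [h, norm_zero] at this
  exact zero_ne_one this

theorem nz_mem_arc {q x y : E3} (hq : q ≠ 0) {r s : ℝ} (hr : 0 ≤ r) (hs : 0 ≤ s)
    (e : q = r • x + s • y) : nz q ∈ arc x y := by
  have hn : 0 < ‖q‖ := norm_pos_iff.2 hq
  refine ⟨norm_nz hq, ‖q‖⁻¹ * r, ‖q‖⁻¹ * s, by positivity, by positivity, ?_⟩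
  have h1 : ‖q‖⁻¹ • (r • x + s • y) = (‖q‖⁻¹ * r) • x + (‖q‖⁻¹ * s) • y := by
    rw [smul_add, smul_smul, smul_smul]
  rw [← h1, ← e]
  rfl

theorem nz_vertex (emb : IsShortestPathEmbedding G p) {q : E3} (hq : q ≠ 0) {r s : ℝ}
    (hr : 0 ≤ r) (hs : 0 ≤ s) {a : V} (e : q = r • p a + s • p a) : nz q = p a := by
  rw [← add_smul] at e
  have hpos : 0 < r + s := by
    rcases (add_nonneg hr hs).lt_or_eq with h | h
    · exact h
    · rw [← h, zero_smul] at e; exact absurd e hq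
  rw [e, nz_smul hpos, nz_unit (emb.unit a)]

theorem inD_iff (emb : IsShortestPathEmbedding G p) {q : E3} (hq : q ≠ 0) :
    InD G p q ↔ nz q ∈ drawing G p := by
  constructor
  · rintro ⟨a, b, hab | hab, r, s, hr, hs, e⟩
    · subst hab
      exact Or.inl ⟨a, (nz_vertex emb hq hr hs e).symm⟩
    · exact Or.inr ⟨a, b, hab, nz_mem_arc hq hr hs e⟩
  · rintro (⟨v, hv⟩ | ⟨a, b, hab, -, s, t, hs, ht, e⟩)
    · refine ⟨v, v, Or.inl rfl, ‖q‖, 0, norm_nonneg _, le_rfl, ?_⟩
      rw [hv, nz_back hq]; simp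
    · refine ⟨a, b, Or.inr hab, ‖q‖ * s, ‖q‖ * t, by positivity, by positivity, ?_⟩
      rw [mul_smul, mul_smul, ← smul_add, ← e, nz_back hq]

theorem val_at (emb : IsShortestPathEmbedding G p) (gen : IsGeneric p) {a b v : V}
    (hab : Ad G a b) {r s l : ℝ} (hv : v = a ∨ v = b) (e : r • p a + s • p b = l • p v)
    (g : V → ℝ) : r * g a + s * g b = l * g v := by
  rcases hab with hab | hab
  · subst hab
    have hva : v = a := by rcases hv with h | h <;> exact h
    subst hva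
    have : (r + s - l) • p v = 0 := by rw [sub_smul, add_smul, e, sub_self]
    have h2 : r + s - l = 0 := (smul_eq_zero.1 this).resolve_right (p_ne_zero emb v)
    have : l = r + s := by linarith
    rw [this]; ring
  · have hS := S_ne gen hab.ne
    rcases hv with h | h
    · subst h
      obtain ⟨h1, h2⟩ := eq2 (r' := l) (s' := 0) hS (by rw [e]; simp)
      rw [h1, h2]; ring
    · subst h
      obtain ⟨h1, h2⟩ := eq2 (r' := 0) (s' := l) hS (by rw [e]; simp)
      rw [h1, h2]; ring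

/-- two representations of the same point of the drawing -/
theorem common (emb : IsShortestPathEmbedding G p) {a b c d : V}
    (hab : Ad G a b) (hcd : Ad G c d) {q : E3} (hq : q ≠ 0) {r s r' s' : ℝ} (hr : 0 ≤ r)
    (hs : 0 ≤ s) (hr' : 0 ≤ r') (hs' : 0 ≤ s') (e : q = r • p a + s • p b)
    (e' : q = r' • p c + s' • p d) :
    (∃ v, (v = a ∨ v = b) ∧ (v = c ∨ v = d) ∧ q = ‖q‖ • p v) ∨
      (G.Adj a b ∧ (a = c ∧ b = d ∨ a = d ∧ b = c)) := by
  rcases hab with hab | hab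
  · subst hab
    have h1 := nz_vertex emb hq hr hs e
    have hqv : q = ‖q‖ • p a := by rw [← h1, nz_back hq]
    rcases hcd with hcd | hcd
    · subst hcd
      have h2 := nz_vertex emb hq hr' hs' e'
      have : a = c := emb.inj (by rw [← h1, h2])
      exact Or.inl ⟨a, Or.inl rfl, Or.inl this, hqv⟩
    · have h2 := nz_mem_arc hq hr' hs' e'
      rw [h1] at h2
      exact Or.inl ⟨a, Or.inl rfl, emb.vertex_edge a c d hcd h2, hqv⟩
  · have h1 := nz_mem_arc hq hr hs e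
    rcases hcd with hcd | hcd
    · subst hcd
      have h2 := nz_vertex emb hq hr' hs' e'
      have hqv : q = ‖q‖ • p c := by rw [← h2, nz_back hq]
      rw [h2] at h1
      exact Or.inl ⟨c, emb.vertex_edge c a b hab h1, Or.inl rfl, hqv⟩
    · have h2 := nz_mem_arc hq hr' hs' e'
      by_cases hs2 : s(a, b) = s(c, d)
      · exact Or.inr ⟨hab, by simpa using hs2⟩
      · obtain ⟨v, h3, h4, h5⟩ := emb.edge_edge a b c d hab hcd hs2 _ h1 h2
        exact Or.inl ⟨v, h3, h4, by rw [← h5, nz_back hq]⟩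

theorem ev_unique (emb : IsShortestPathEmbedding G p) (gen : IsGeneric p) {g : V → ℝ} {q : E3}
    (hq : q ≠ 0) {w w' : ℝ} (h : EV G p g q w) (h' : EV G p g q w') : w = w' := by
  obtain ⟨a, b, hab, r, s, hr, hs, e, rfl⟩ := h
  obtain ⟨c, d, hcd, r', s', hr', hs', e', rfl⟩ := h'
  rcases common emb hab hcd hq hr hs hr' hs' e e' with ⟨v, h1, h2, h3⟩ | ⟨hadj, h⟩
  · rw [val_at emb gen hab h1 (e.symm.trans h3) g, val_at emb gen hcd h2 (e'.symm.trans h3) g]
  · have hS := S_ne gen hadj.ne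
    rcases h with ⟨rfl, rfl⟩ | ⟨rfl, rfl⟩
    · obtain ⟨h1, h2⟩ := eq2 hS (e.symm.trans e')
      rw [h1, h2]
    · obtain ⟨h1, h2⟩ := eq2 (r' := s') (s' := r') hS (by rw [← e, e', add_comm])
      rw [h1, h2]; ring

end Pool.Agent.V11122.Sym
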